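import Pool.Agent.H589.Boyd.Spec

/-!
# CORE: energy bound from the coefficient identity
-/

set_option autoImplicit false

namespace Pool.Agent.H589.Boyd

namespace core_

open Classical in
theorem part_mul_coeff {Γ : Type} [AddCommGroup Γ] (W : AddSubgroup Γ)
    (X Y : AddMonoidAlgebra ℂ Γ) (U : Finset Γ) (hU : X.coeff.support ⊆ U) (s : Γ) :
    (part W X * Y).coeff s =
      ∑ v ∈ U.filter (fun u => u ∈ W), X.coeff v * Y.coeff (-v + s) := by
  unfold part
  rw [Finset.sum_mul, AddMonoidAlgebra.coeff_sum, Finsupp.finsetSum_apply]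
  simp only [AddMonoidAlgebra.coeff_single_mul_apply]
  apply Finset.sum_subset (Finset.filter_subset_filter _ hU)
  intro v hv hv'
  have : X.coeff v = 0 := by
    by_contra h
    exact hv' (Finset.mem_filter.2 ⟨Finsupp.mem_support_iff.2 h, (Finset.mem_filter.1 hv).2⟩)
  rw [this, zero_mul]

/-- the inequality of Cauchy and Schwarz -/
theorem cs {Γ : Type} (V : Finset Γ) (x y z w : Γ → ℂ) :
    ‖∑ v ∈ V, (x v * y v - z v * w v)‖ ^ 2 ≤
      (∑ v ∈ V, (‖x v‖ ^ 2 + ‖z v‖ ^ 2)) * ∑ v ∈ V, (‖y v‖ ^ 2 + ‖w v‖ ^ 2) := by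
  have h1 : ‖∑ v ∈ V, (x v * y v - z v * w v)‖ ≤
      ∑ v ∈ V, √(‖x v‖ ^ 2 + ‖z v‖ ^ 2) * √(‖y v‖ ^ 2 + ‖w v‖ ^ 2) := by
    refine (norm_sum_le _ _).trans (Finset.sum_le_sum fun v _ => ?_)
    refine (norm_sub_le _ _).trans ?_
    rw [norm_mul, norm_mul, ← Real.sqrt_mul (by positivity)]
    refine Real.le_sqrt_of_sq_le ?_
    nlinarith [sq_nonneg (‖x v‖ * ‖w v‖ - ‖z v‖ * ‖y v‖)]
  calc ‖∑ v ∈ V, (x v * y v - z v * w v)‖ ^ 2
      ≤ (∑ v ∈ V, √(‖x v‖ ^ 2 + ‖z v‖ ^ 2) * √(‖y v‖ ^ 2 + ‖w v‖ ^ 2)) ^ 2 :=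
        pow_le_pow_left₀ (norm_nonneg _) h1 2
    _ ≤ (∑ v ∈ V, √(‖x v‖ ^ 2 + ‖z v‖ ^ 2) ^ 2) * ∑ v ∈ V, √(‖y v‖ ^ 2 + ‖w v‖ ^ 2) ^ 2 :=
        Finset.sum_mul_sq_le_sq_mul_sq _ _ _
    _ = _ := by
        congr 1
        · exact Finset.sum_congr rfl fun v _ => Real.sq_sqrt (by positivity)
        · exact Finset.sum_congr rfl fun v _ => Real.sq_sqrt (by positivity)

end core_

open core_

open Classical in
theorem core : S_Ident → S_Core := by
  intro hI Γ _ _ _ ι _ q j0 m hG g hg hg0
  set F : ι → AddMonoidAlgebra ℂ Γ := fun j => cst (q j) * g with hF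
  set e : Γ → ℝ := fun u => ∑ j, ‖(F j).coeff u‖ ^ 2 with he
  set U : Finset Γ := Finset.univ.biUnion fun j => (F j).coeff.support with hU
  have he0 : ∀ u, 0 ≤ e u := fun u => Finset.sum_nonneg fun j _ => by positivity
  have hUs : ∀ j, (F j).coeff.support ⊆ U := fun j =>
    Finset.subset_biUnion_of_mem (fun j => (F j).coeff.support) (Finset.mem_univ j)
  have hz : ∀ u, u ∉ U → ∀ j, (F j).coeff u = 0 := by
    intro u hu j
    by_contra h
    exact hu (hUs j (Finsupp.mem_support_iff.2 h))
  have heU : ∀ u, u ∉ U → e u = 0 := by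
    intro u hu
    simp only [he]
    refine Finset.sum_eq_zero fun j _ => ?_
    rw [hz u hu j]
    simp
  have hN : ∑ j, sq (F j) = ∑ u ∈ U, e u := by
    simp only [he]
    rw [Finset.sum_comm]
    refine Finset.sum_congr rfl fun j _ => ?_
    unfold sq
    refine Finset.sum_subset (hUs j) fun u _ hu => ?_
    have : (F j).coeff u = 0 := by
      by_contra h
      exact hu (Finsupp.mem_support_iff.2 h)
    rw [this]
    simp
  have hsum : (∑ j, sq (cst (q j) * g)) = ∑ u ∈ U, e u := hN
  rw [hsum]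
  set N2 : ℝ := ∑ u ∈ U, e u with hN2
  have hN20 : 0 ≤ N2 := Finset.sum_nonneg fun u _ => he0 u
  have hpair : ∀ j, j ≠ j0 → ∀ u, ‖(F j0).coeff u‖ ^ 2 + ‖(F j).coeff u‖ ^ 2 ≤ e u := by
    intro j hj u
    have h1 : ∑ i ∈ {j0, j}, ‖(F i).coeff u‖ ^ 2 ≤ e u :=
      Finset.sum_le_sum_of_subset_of_nonneg (Finset.subset_univ _) fun i _ _ => by positivity
    rwa [Finset.sum_pair (Ne.symm hj)] at h1
  have key : ∀ k : ℕ, k ≤ m → ∃ T : Finset Γ, T.card ≤ k ∧
      (k : ℝ) ≤ (∑ u ∈ U.filter (fun u => u ∈ AddSubgroup.closure (T : Set Γ)), e u) * N2 := by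
    intro k
    induction k with
    | zero =>
      intro _
      refine ⟨∅, by simp, ?_⟩
      rw [Nat.cast_zero]
      exact mul_nonneg (Finset.sum_nonneg fun u _ => he0 u) hN20
    | succ k ih =>
      intro hk
      obtain ⟨T, hT, hE⟩ := ih (by omega)
      obtain ⟨j, hj⟩ := hG.nondeg T (by omega)
      have hjj : j ≠ j0 := by
        rintro rfl
        exact hj rfl
      generalize hW : AddSubgroup.closure (T : Set Γ) = W at hj hE
      obtain ⟨s, hs, h⟩ := hI Γ (q j0) (q j) W (hG.nonneg j0) (hG.nonneg j) hG.zero hj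
      have h1 := h g hg hg0
      have e1 : (part W (cst (q j0) * g) * (cst (q j) * g) -
          part W (cst (q j) * g) * (cst (q j0) * g) : AddMonoidAlgebra ℂ Γ).coeff s =
          ∑ v ∈ U.filter (fun u => u ∈ W), ((F j0).coeff v * (F j).coeff (-v + s) -
            (F j).coeff v * (F j0).coeff (-v + s)) := by
        rw [Finset.sum_sub_distrib, AddMonoidAlgebra.coeff_sub, Finsupp.sub_apply]
        congr 1
        · exact part_mul_coeff W (F j0) (F j) U (hUs j0) s
        · exact part_mul_coeff W (F j) (F j0) U (hUs j) s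
      rw [e1] at h1
      have h2 := cs (U.filter (fun u => u ∈ W)) (fun v => (F j0).coeff v)
        (fun v => (F j).coeff (-v + s)) (fun v => (F j).coeff v) (fun v => (F j0).coeff (-v + s))
      have h3 : (1 : ℝ) ≤ (∑ v ∈ U.filter (fun u => u ∈ W),
          (‖(F j0).coeff v‖ ^ 2 + ‖(F j).coeff v‖ ^ 2)) *
          ∑ v ∈ U.filter (fun u => u ∈ W),
            (‖(F j).coeff (-v + s)‖ ^ 2 + ‖(F j0).coeff (-v + s)‖ ^ 2) := by
        refine le_trans ?_ h2
        nlinarith [h1]
      have h4 : ∑ v ∈ U.filter (fun u => u ∈ W),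
          (‖(F j0).coeff v‖ ^ 2 + ‖(F j).coeff v‖ ^ 2) ≤ N2 := by
        refine (Finset.sum_le_sum fun v _ => hpair j hjj v).trans ?_
        exact Finset.sum_le_sum_of_subset_of_nonneg (Finset.filter_subset _ _) fun u _ _ => he0 u
      have h5 : ∑ v ∈ U.filter (fun u => u ∈ W),
          (‖(F j).coeff (-v + s)‖ ^ 2 + ‖(F j0).coeff (-v + s)‖ ^ 2) ≤
          ∑ u ∈ U.filter (fun u => s - u ∈ W), e u := by
        calc ∑ v ∈ U.filter (fun u => u ∈ W),
              (‖(F j).coeff (-v + s)‖ ^ 2 + ‖(F j0).coeff (-v + s)‖ ^ 2)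
            ≤ ∑ v ∈ U.filter (fun u => u ∈ W), e (-v + s) :=
              Finset.sum_le_sum fun v _ => by
                have := hpair j hjj (-v + s)
                linarith
          _ = ∑ u ∈ (U.filter (fun u => u ∈ W)).image (fun v => -v + s), e u := by
              rw [Finset.sum_image]
              intro a _ b _ hab
              have h6 : -a = -b := add_right_cancel hab
              exact neg_injective h6
          _ = ∑ u ∈ ((U.filter (fun u => u ∈ W)).image (fun v => -v + s)).filter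
                (fun u => u ∈ U), e u := by
              rw [Finset.sum_filter_of_ne]
              intro u _ hu
              by_contra h6
              exact hu (heU u h6)
          _ ≤ ∑ u ∈ U.filter (fun u => s - u ∈ W), e u := by
              refine Finset.sum_le_sum_of_subset_of_nonneg ?_ fun u _ _ => he0 u
              intro u hu
              obtain ⟨h6, h7⟩ := Finset.mem_filter.1 hu
              obtain ⟨v, hv, rfl⟩ := Finset.mem_image.1 h6
              refine Finset.mem_filter.2 ⟨h7, ?_⟩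
              have h8 : s - (-v + s) = v := by abel
              rw [h8]
              exact (Finset.mem_filter.1 hv).2
      have hE2 : 0 ≤ ∑ u ∈ U.filter (fun u => s - u ∈ W), e u :=
        Finset.sum_nonneg fun u _ => he0 u
      have h6 : (1 : ℝ) ≤ N2 * ∑ u ∈ U.filter (fun u => s - u ∈ W), e u :=
        h3.trans (mul_le_mul h4 h5 (Finset.sum_nonneg fun v _ => by positivity) hN20)
      refine ⟨insert s T, (Finset.card_insert_le s T).trans (by omega), ?_⟩
      have hcl : W ≤ AddSubgroup.closure ((insert s T : Finset Γ) : Set Γ) := by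
        rw [← hW]
        refine AddSubgroup.closure_mono ?_
        rw [Finset.coe_insert]
        exact Set.subset_insert _ _
      have hsc : s ∈ AddSubgroup.closure ((insert s T : Finset Γ) : Set Γ) :=
        AddSubgroup.subset_closure (by simp)
      have h7 : (∑ u ∈ U.filter (fun u => u ∈ W), e u) +
          ∑ u ∈ U.filter (fun u => s - u ∈ W), e u ≤
          ∑ u ∈ U.filter (fun u => u ∈ AddSubgroup.closure ((insert s T : Finset Γ) : Set Γ)),
            e u := by
        rw [← Finset.sum_union]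
        · refine Finset.sum_le_sum_of_subset_of_nonneg ?_ fun u _ _ => he0 u
          intro u hu
          rcases Finset.mem_union.1 hu with hu | hu
          · obtain ⟨a1, a2⟩ := Finset.mem_filter.1 hu
            exact Finset.mem_filter.2 ⟨a1, hcl a2⟩
          · obtain ⟨a1, a2⟩ := Finset.mem_filter.1 hu
            refine Finset.mem_filter.2 ⟨a1, ?_⟩
            have h8 : u = s - (s - u) := by abel
            rw [h8]
            exact AddSubgroup.sub_mem _ hsc (hcl a2)
        · rw [Finset.disjoint_left]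
          intro u hu hu'
          refine hs ?_
          have a1 := (Finset.mem_filter.1 hu).2
          have a2 := (Finset.mem_filter.1 hu').2
          have h8 : s = (s - u) + u := by abel
          rw [h8]
          exact AddSubgroup.add_mem _ a2 a1
      rw [Nat.cast_add, Nat.cast_one]
      calc (k : ℝ) + 1 ≤ (∑ u ∈ U.filter (fun u => u ∈ W), e u) * N2 +
            N2 * ∑ u ∈ U.filter (fun u => s - u ∈ W), e u := add_le_add hE h6
        _ = ((∑ u ∈ U.filter (fun u => u ∈ W), e u) +
            ∑ u ∈ U.filter (fun u => s - u ∈ W), e u) * N2 := by ring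
        _ ≤ _ := mul_le_mul_of_nonneg_right h7 hN20
  obtain ⟨T, -, hT⟩ := key m le_rfl
  refine hT.trans ?_
  rw [pow_two]
  refine mul_le_mul_of_nonneg_right ?_ hN20
  exact Finset.sum_le_sum_of_subset_of_nonneg (Finset.filter_subset _ _) fun u _ _ => he0 u

end Pool.Agent.H589.Boyd
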