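import Pool.Agent.H589.Boyd.Spec

set_option autoImplicit false

open MeasureTheory

namespace Pool.Agent.H589.Boyd

namespace finB_

theorem continuous_val {n : ℕ} (P : MvPolynomial (Fin n) ℤ) : Continuous (val P) := by
  unfold val
  simp only [MvPolynomial.eval₂_eq]
  fun_prop

theorem continuous_cons {n : ℕ} :
    Continuous (fun z : ℝ × (Fin n → ℝ) => (Fin.cons z.1 z.2 : Fin (n + 1) → ℝ)) := by
  refine continuous_pi fun i => ?_
  refine Fin.cases ?_ (fun j => ?_) i
  · simpa using continuous_fst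
  · simp only [Fin.cons_succ]
    exact (continuous_apply j).comp continuous_snd

/-- Fubini for continuous functions on the cube -/
theorem fubini {n : ℕ} (F : (Fin (n + 1) → ℝ) → ℝ) (hF : Continuous F) :
    IntegrableOn (fun θ : Fin n → ℝ => ∫ y in Set.Icc (0 : ℝ) 1, F (Fin.cons y θ)) (cube n) ∧
    ∫ φ in cube (n + 1), F φ = ∫ θ in cube n, ∫ y in Set.Icc (0 : ℝ) 1, F (Fin.cons y θ) := by
  have hmp := volume_preserving_piFinSuccAbove (fun _ : Fin (n + 1) => ℝ) 0
  set e := MeasurableEquiv.piFinSuccAbove (fun _ : Fin (n + 1) => ℝ) 0 with he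
  have hfst : ∀ φ : Fin (n + 1) → ℝ, (e φ).1 = φ 0 := fun φ => rfl
  have hsnd : ∀ (φ : Fin (n + 1) → ℝ) (i : Fin n), (e φ).2 i = φ i.succ := fun φ i => rfl
  have hpre : cube (n + 1) = e ⁻¹' (Set.Icc (0 : ℝ) 1 ×ˢ cube n) := by
    ext φ
    simp only [Set.mem_preimage, Set.mem_prod, Set.mem_Icc, Pi.le_def, hfst, hsnd, Pi.zero_apply,
      Pi.one_apply]
    constructor
    · rintro ⟨h1, h2⟩
      exact ⟨⟨h1 0, h2 0⟩, fun i => h1 i.succ, fun i => h2 i.succ⟩
    · rintro ⟨⟨h1, h2⟩, h3, h4⟩
      refine ⟨fun i => ?_, fun i => ?_⟩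
      · exact Fin.cases h1 h3 i
      · exact Fin.cases h2 h4 i
  let g : ℝ × (Fin n → ℝ) → ℝ := fun z => F (Fin.cons z.1 z.2)
  have hg : Continuous g := hF.comp continuous_cons
  have hge : ∀ φ, g (e φ) = F φ := by
    intro φ
    show F (Fin.cons (e φ).1 (e φ).2) = F φ
    congr 1
    funext i
    refine Fin.cases ?_ (fun j => ?_) i
    · rfl
    · rfl
  have h1 : ∫ φ in cube (n + 1), F φ = ∫ z in Set.Icc (0 : ℝ) 1 ×ˢ cube n, g z := by
    rw [hpre, ← hmp.setIntegral_preimage_emb e.measurableEmbedding]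
    simp only [hge]
  have hint : IntegrableOn g (Set.Icc (0 : ℝ) 1 ×ˢ cube n) :=
    hg.continuousOn.integrableOn_compact (isCompact_Icc.prod isCompact_Icc)
  have hint' : Integrable g ((volume.restrict (Set.Icc (0 : ℝ) 1)).prod
      (volume.restrict (cube n))) := by
    rw [Measure.prod_restrict]
    exact hint
  refine ⟨hint'.integral_prod_right, ?_⟩
  rw [h1]
  have h2 := integral_prod_symm g hint'
  rw [Measure.prod_restrict] at h2
  exact h2

end finB_

open finB_ in
theorem finB (hGen : S_Gen) (hNDB : S_NDB) (hJen : S_Jen) (hLim : S_Lim) (_hPars : S_Pars) :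
    S_FinB := by
  intro n P hP hdeg
  set d := P.degreeOf 0 with hd
  have hcB : (0 : ℝ) < (Nat.centralBinom d : ℝ) := by exact_mod_cast Nat.centralBinom_pos d
  by_cases hdim : dim P ≤ 1
  · have h1 : ((dim P : ℝ) - 1) / (Nat.centralBinom d : ℝ) ^ 2 ≤ 0 := by
      apply div_nonpos_of_nonpos_of_nonneg
      · have : (dim P : ℝ) ≤ 1 := by exact_mod_cast hdim
        linarith
      · positivity
    exact h1.trans (by positivity)
  push Not at hdim
  obtain ⟨q, j0, hgood, hq⟩ := hNDB n P hP hdeg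
  obtain ⟨m, hm⟩ : ∃ m : ℕ, m = dim P - 1 := ⟨_, rfl⟩
  have hm1 : 1 ≤ m := by omega
  have hmR : (dim P : ℝ) - 1 = m := by
    have : dim P = m + 1 := by omega
    rw [this]
    push_cast
    ring
  rw [← hm] at hgood
  obtain ⟨hwi, hw0, hwb⟩ := hGen n (Fin (d + 1)) q j0 m hm1 hgood
  -- the lower bound for every `δ`
  have hkey : ∀ δ : ℝ, 0 < δ → δ < 1 → Real.log m / 2 - Real.log (Nat.centralBinom d) ≤
      ∫ φ in cube (n + 1), Real.log (‖val P φ‖ ^ 2 + δ) := by
    intro δ hδ _
    have hcont : Continuous fun φ : Fin (n + 1) → ℝ => Real.log (‖val P φ‖ ^ 2 + δ) := by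
      refine Continuous.log (((continuous_val P).norm.pow 2).add continuous_const) fun φ => ?_
      positivity
    obtain ⟨h1, h2⟩ := fubini _ hcont
    rw [h2]
    have h3 : Real.log m / 2 - Real.log (Nat.centralBinom d) ≤
        ∫ θ in cube n, (Real.log (∑ j, ‖ev (cst (q j)) θ‖ ^ 2) -
          Real.log (Nat.centralBinom d)) := by
      rw [integral_sub hwi (integrableOn_const (by
        exact (isCompact_Icc.measure_lt_top).ne))]
      have h4 : ∫ _ in cube n, Real.log (Nat.centralBinom d : ℝ) =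
          Real.log (Nat.centralBinom d : ℝ) := by
        rw [setIntegral_const]
        have h5 : (volume : Measure (Fin n → ℝ)).real (cube n) = 1 := by
          rw [Measure.real, Real.volume_Icc_pi]
          simp
        rw [h5, one_smul]
      rw [h4]
      linarith
    refine h3.trans ?_
    refine setIntegral_mono_ae_restrict ?_ h1 ?_
    · exact hwi.sub (integrableOn_const (isCompact_Icc.measure_lt_top).ne)
    · filter_upwards [hw0] with θ hθ
      obtain ⟨f, hf1, hf2, hf3⟩ := hq θ
      have hf0 : f ≠ 0 := by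
        rintro rfl
        apply hθ
        refine Finset.sum_eq_zero fun j _ => ?_
        rw [← hf3 j, Polynomial.coeff_zero, norm_zero]
        norm_num
      have h4 := hJen f d hf0 hf1 δ hδ
      simp only [hf3] at h4
      refine h4.trans (le_of_eq ?_)
      refine integral_congr_ae (Filter.Eventually.of_forall fun y => ?_)
      show Real.log (_ + δ) = Real.log (_ + δ)
      rw [hf2 y]
  obtain ⟨-, -, h5⟩ := hLim (n + 1) (fun φ => ‖val P φ‖ ^ 2) _
    ((continuous_val P).norm.pow 2) (fun φ => by positivity) hkey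
  have h6 : ∫ φ in cube (n + 1), Real.log (‖val P φ‖ ^ 2) =
      2 * ∫ φ in cube (n + 1), Real.log ‖val P φ‖ := by
    rw [← integral_const_mul]
    refine integral_congr_ae (Filter.Eventually.of_forall fun φ => ?_)
    show Real.log (‖val P φ‖ ^ 2) = 2 * Real.log ‖val P φ‖
    rw [Real.log_pow]
    push_cast
    ring
  rw [h6] at h5
  rw [hmR, ← Real.exp_nat_mul]
  have hmpos : (0 : ℝ) < m := by exact_mod_cast hm1
  have h7 : (m : ℝ) / (Nat.centralBinom d : ℝ) ^ 2 =
      Real.exp (Real.log m - 2 * Real.log (Nat.centralBinom d)) := by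
    rw [Real.exp_sub, Real.exp_log hmpos, two_mul, Real.exp_add, Real.exp_log hcB, pow_two]
  rw [h7]
  apply Real.exp_le_exp.2
  push_cast
  linarith

end Pool.Agent.H589.Boyd
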