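import Pool.Agent.H589.Boyd.Spec2

/-!
# Boyd FINC: final theorem with polynomial loss
-/

set_option autoImplicit false

open MeasureTheory

namespace Pool.Agent.H589.Boyd.finC_

/-- the point of the circle with angle `y` -/
noncomputable def ee (y : ℝ) : ℂ := Complex.exp (2 * (Real.pi : ℂ) * Complex.I * (y : ℂ))

theorem norm_ee (y : ℝ) : ‖ee y‖ = 1 := by
  unfold ee
  have : (2 * (Real.pi : ℂ) * Complex.I * (y : ℂ)) = ((2 * Real.pi * y : ℝ) : ℂ) * Complex.I := by
    push_cast; ring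
  rw [this, Complex.norm_exp_ofReal_mul_I]

/-- substitution `x_0 = X`, `x_{i+1} = e(θ_i)` -/
noncomputable def phi {n : ℕ} (θ : Fin n → ℝ) : MvPolynomial (Fin (n + 1)) ℤ →+* Polynomial ℂ :=
  MvPolynomial.eval₂Hom (Polynomial.C.comp (Int.castRingHom ℂ))
    (Fin.cons Polynomial.X fun i => Polynomial.C (ee (θ i)))

theorem phi_eval {n : ℕ} (θ : Fin n → ℝ) (P : MvPolynomial (Fin (n + 1)) ℤ) (y : ℝ) :
    (phi θ P).eval (ee y) = val P (Fin.cons y θ : Fin (n + 1) → ℝ) := by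
  unfold phi val
  rw [MvPolynomial.coe_eval₂Hom, ← Polynomial.coe_evalRingHom, MvPolynomial.eval₂_comp_left]
  have h1 : (Polynomial.evalRingHom (ee y)).comp (Polynomial.C.comp (Int.castRingHom ℂ)) =
      Int.castRingHom ℂ := Subsingleton.elim _ _
  rw [h1]
  congr 1
  funext i
  refine Fin.cases ?_ (fun j => ?_) i
  · simp [ee]
  · simp [ee]

theorem phi_deg {n : ℕ} (θ : Fin n → ℝ) (P : MvPolynomial (Fin (n + 1)) ℤ) :
    (phi θ P).natDegree ≤ P.degreeOf 0 := by
  unfold phi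
  rw [MvPolynomial.coe_eval₂Hom, MvPolynomial.eval₂_eq']
  refine Polynomial.natDegree_sum_le_of_forall_le _ _ fun e he => ?_
  rw [Fin.prod_univ_succ]
  simp only [Fin.cons_zero, Fin.cons_succ, RingHom.coe_comp, Function.comp_apply]
  have h1 : (∏ i : Fin n, Polynomial.C (ee (θ i)) ^ e i.succ) =
      Polynomial.C (∏ i : Fin n, ee (θ i) ^ e i.succ) := by
    simp [map_prod]
  rw [h1]
  refine (Polynomial.natDegree_C_mul_le _ _).trans ?_
  refine (Polynomial.natDegree_mul_C_le _ _).trans ?_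
  rw [Polynomial.natDegree_X_pow]
  exact MvPolynomial.monomial_le_degreeOf 0 he

theorem phi_X0 {n : ℕ} (θ : Fin n → ℝ) :
    phi θ (MvPolynomial.X 0) = Polynomial.X := by
  unfold phi
  rw [MvPolynomial.coe_eval₂Hom, MvPolynomial.eval₂_X, Fin.cons_zero]

theorem phi_Xs {n : ℕ} (θ : Fin n → ℝ) (j : Fin n) :
    phi θ (MvPolynomial.X j.succ) = Polynomial.C (ee (θ j)) := by
  unfold phi
  rw [MvPolynomial.coe_eval₂Hom, MvPolynomial.eval₂_X, Fin.cons_succ]

theorem phi_C {n : ℕ} (θ : Fin n → ℝ) (a : ℤ) :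
    phi θ (MvPolynomial.C a) = Polynomial.C (a : ℂ) := by
  unfold phi
  rw [MvPolynomial.coe_eval₂Hom, MvPolynomial.eval₂_C]
  rfl

theorem phi_der {n : ℕ} (θ : Fin n → ℝ) (P : MvPolynomial (Fin (n + 1)) ℤ) :
    (phi θ P).derivative = phi θ (MvPolynomial.pderiv 0 P) := by
  induction P using MvPolynomial.induction_on with
  | C a => rw [phi_C, Polynomial.derivative_C, MvPolynomial.pderiv_C, map_zero]
  | add p q hp hq => rw [map_add, Polynomial.derivative_add, hp, hq, map_add, map_add]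
  | mul_X p i hp =>
    have hX : (phi θ (MvPolynomial.X i)).derivative = phi θ (MvPolynomial.pderiv 0
        (MvPolynomial.X i : MvPolynomial (Fin (n + 1)) ℤ)) := by
      refine Fin.cases ?_ (fun j => ?_) i
      · rw [phi_X0, MvPolynomial.pderiv_X_self, map_one, Polynomial.derivative_X]
      · rw [phi_Xs, MvPolynomial.pderiv_X_of_ne (Fin.succ_ne_zero j), map_zero,
          Polynomial.derivative_C]
    rw [map_mul, Polynomial.derivative_mul, hp, MvPolynomial.pderiv_mul, map_add, map_mul, map_mul,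
      hX]

theorem val_euler {n : ℕ} (θ : Fin n → ℝ) (P : MvPolynomial (Fin (n + 1)) ℤ) (y : ℝ) :
    ‖val (euler P) (Fin.cons y θ : Fin (n + 1) → ℝ)‖ = ‖(phi θ P).derivative.eval (ee y)‖ := by
  rw [phi_der, phi_eval]
  unfold euler val
  rw [MvPolynomial.eval₂_mul, MvPolynomial.eval₂_X, norm_mul]
  have h1 : ‖Complex.exp (2 * (Real.pi : ℂ) * Complex.I *
      (((Fin.cons y θ : Fin (n + 1) → ℝ) 0 : ℝ) : ℂ))‖ = 1 := by
    rw [Fin.cons_zero]
    exact norm_ee y
  rw [h1, one_mul]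

theorem cont_val {n : ℕ} (P : MvPolynomial (Fin n) ℤ) : Continuous (val P) := by
  unfold val
  simp only [MvPolynomial.eval₂_eq']
  fun_prop

/-- the measurable equivalence -/
noncomputable abbrev eq (n : ℕ) : (Fin (n + 1) → ℝ) ≃ᵐ ℝ × (Fin n → ℝ) :=
  MeasurableEquiv.piFinSuccAbove (fun _ : Fin (n + 1) => ℝ) 0

theorem eq_symm (n : ℕ) (y : ℝ) (θ : Fin n → ℝ) :
    (eq n).symm (y, θ) = (Fin.cons y θ : Fin (n + 1) → ℝ) := by
  change Fin.insertNth (α := fun _ : Fin (n + 1) => ℝ) 0 y θ = _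
  rw [Fin.insertNth_zero']

theorem mp (n : ℕ) : MeasurePreserving (eq n) (volume.restrict (cube (n + 1)))
    ((volume.restrict (Set.Icc (0 : ℝ) 1)).prod (volume.restrict (cube n))) := by
  have h := volume_preserving_piFinSuccAbove (fun _ : Fin (n + 1) => ℝ) 0
  have h1 := h.restrict_preimage
    ((measurableSet_Icc (a := (0 : ℝ)) (b := 1)).prod (measurableSet_Icc (a := (0 : Fin n → ℝ))
      (b := 1)))
  have h2 : (eq n) ⁻¹' (Set.Icc (0 : ℝ) 1 ×ˢ Set.Icc (0 : Fin n → ℝ) 1) = cube (n + 1) := by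
    ext x
    simp only [Set.mem_preimage, Set.mem_prod, Set.mem_Icc, Pi.le_def, Pi.zero_apply, Pi.one_apply,
      cube, Fin.forall_fin_succ, MeasurableEquiv.piFinSuccAbove_apply]
    constructor
    · rintro ⟨⟨a, b⟩, c, d⟩
      exact ⟨⟨a, c⟩, b, d⟩
    · rintro ⟨⟨a, c⟩, b, d⟩
      exact ⟨⟨a, b⟩, c, d⟩
  rw [← h2, Measure.prod_restrict]
  exact h1

theorem vol_cube (n : ℕ) : volume (cube n) = 1 := by
  rw [Real.volume_Icc_pi]
  simp

instance prob (n : ℕ) : IsProbabilityMeasure (volume.restrict (cube n)) :=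
  ⟨by rw [Measure.restrict_apply_univ, vol_cube]⟩

instance prob1 : IsProbabilityMeasure (volume.restrict (Set.Icc (0 : ℝ) 1)) :=
  ⟨by simp⟩

theorem fub {n : ℕ} (F : (Fin (n + 1) → ℝ) → ℝ) (hF : IntegrableOn F (cube (n + 1))) :
    (∫ x in cube (n + 1), F x =
      ∫ θ in cube n, ∫ y in Set.Icc (0 : ℝ) 1, F (Fin.cons y θ : Fin (n + 1) → ℝ)) ∧
    IntegrableOn (fun θ => ∫ y in Set.Icc (0 : ℝ) 1, F (Fin.cons y θ : Fin (n + 1) → ℝ))
      (cube n) := by
  have h1 := (mp n).symm (eq n)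
  have h2 : Integrable (F ∘ (eq n).symm)
      ((volume.restrict (Set.Icc (0 : ℝ) 1)).prod (volume.restrict (cube n))) :=
    (h1.integrable_comp_emb (eq n).symm.measurableEmbedding).mpr hF
  have h3 : (F ∘ (eq n).symm) = fun p : ℝ × (Fin n → ℝ) =>
      F (Fin.cons p.1 p.2 : Fin (n + 1) → ℝ) := by
    funext p
    obtain ⟨y, θ⟩ := p
    change F ((eq n).symm (y, θ)) = _
    rw [eq_symm]
  rw [h3] at h2
  refine ⟨?_, h2.integral_prod_right⟩
  have h4 := h1.integral_comp (eq n).symm.measurableEmbedding F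
  rw [← h4]
  have h5 : (fun p => F ((eq n).symm p)) = fun p : ℝ × (Fin n → ℝ) =>
      F (Fin.cons p.1 p.2 : Fin (n + 1) → ℝ) := h3
  rw [h5]
  exact integral_prod_symm _ h2

theorem aefub {n : ℕ} (Q : (Fin (n + 1) → ℝ) → Prop)
    (hQ : ∀ᵐ x ∂(volume.restrict (cube (n + 1))), Q x) :
    ∀ᵐ θ ∂(volume.restrict (cube n)), ∃ y : ℝ, Q (Fin.cons y θ : Fin (n + 1) → ℝ) := by
  have h1 := (mp n).symm (eq n)
  have h2 := h1.quasiMeasurePreserving.ae hQ
  have h3 := (Measure.measurePreserving_swap (μ := volume.restrict (cube n))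
    (ν := volume.restrict (Set.Icc (0 : ℝ) 1))).quasiMeasurePreserving.ae h2
  have h4 := Measure.ae_ae_of_ae_prod h3
  filter_upwards [h4] with θ hθ
  obtain ⟨y, hy⟩ := hθ.exists
  refine ⟨y, ?_⟩
  have h5 : Q ((eq n).symm (y, θ)) := hy
  rwa [eq_symm] at h5

end Pool.Agent.H589.Boyd.finC_

namespace Pool.Agent.H589.Boyd

open finC_ in
theorem finC : S_Gen → S_NDC → S_JenC → S_Lim → S_Pars → S_FinC := by
  intro hGen hNDC hJen hLim _ n P hirr hdeg
  set d : ℕ := P.degreeOf 0 with hd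
  have hpos : (0 : ℝ) < 1 + 2 * (d : ℝ) := by positivity
  rcases Nat.eq_zero_or_pos (dim P) with hm | hm
  · rw [hm]
    simp only [Nat.cast_zero, zero_div]
    positivity
  obtain ⟨q, j0, hgood, heq⟩ := hNDC n P hirr hdeg
  obtain ⟨hI, hae, hlow⟩ := hGen (n + 1) (Fin 2) q j0 (dim P) hm hgood
  simp only [heq] at hI hae hlow
  set M : ℝ := ∫ θ in cube (n + 1), Real.log ‖val P θ‖ with hM
  have key : ∀ δ : ℝ, 0 < δ → δ < 1 → Real.log (dim P) / 2 - 4 * Real.log (1 + 2 * (d : ℝ)) ≤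
      ∫ θ in cube (n + 1), Real.log (‖val P θ‖ ^ 2 + δ) := by
    intro δ hδ _
    have hc : Continuous fun θ : Fin (n + 1) → ℝ => Real.log (‖val P θ‖ ^ 2 + δ) := by
      refine Continuous.log (((cont_val P).norm.pow 2).add continuous_const) fun θ => ?_
      positivity
    have hcI : IntegrableOn (fun θ : Fin (n + 1) → ℝ => Real.log (‖val P θ‖ ^ 2 + δ))
        (cube (n + 1)) := hc.integrableOn_Icc
    obtain ⟨f1, f2⟩ := fub _ hcI
    obtain ⟨g1, g2⟩ := fub _ hI
    rw [f1]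
    refine le_trans (sub_le_sub_right hlow _) ?_
    rw [g1]
    have hcst : ∫ _θ in cube n, 4 * Real.log (1 + 2 * (d : ℝ)) = 4 * Real.log (1 + 2 * (d : ℝ)) := by
      rw [integral_const]
      simp
    rw [← hcst, ← integral_sub g2 (integrable_const _)]
    refine integral_mono_ae (g2.sub (integrable_const _)) f2 ?_
    filter_upwards [aefub _ hae] with θ hθ
    obtain ⟨y, hy⟩ := hθ
    have hf0 : phi θ P ≠ 0 := by
      intro h0
      apply hy
      rw [val_euler, ← phi_eval, h0]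
      simp
    have hJ := hJen (phi θ P) d hf0 (phi_deg θ P) δ hδ
    have e1 : ∀ y : ℝ, ‖val P (Fin.cons y θ : Fin (n + 1) → ℝ)‖ =
        ‖(phi θ P).eval (Complex.exp (2 * (Real.pi : ℂ) * Complex.I * (y : ℂ)))‖ := by
      intro y
      rw [← phi_eval]
      rfl
    have e2 : ∀ y : ℝ, ‖val (euler P) (Fin.cons y θ : Fin (n + 1) → ℝ)‖ =
        ‖(phi θ P).derivative.eval (Complex.exp (2 * (Real.pi : ℂ) * Complex.I * (y : ℂ)))‖ := by
      intro y
      rw [val_euler]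
      rfl
    simp only [e1, e2]
    exact hJ
  obtain ⟨-, -, hfin⟩ := hLim (n + 1) (fun θ => ‖val P θ‖ ^ 2) _ ((cont_val P).norm.pow 2)
    (fun θ => by positivity) key
  have hlog : ∀ θ : Fin (n + 1) → ℝ, Real.log (‖val P θ‖ ^ 2) = 2 * Real.log ‖val P θ‖ := by
    intro θ
    rw [Real.log_pow]
    norm_num
  simp only [hlog] at hfin
  rw [integral_const_mul, ← hM] at hfin
  have hdm : (0 : ℝ) < (dim P : ℝ) := by exact_mod_cast hm
  have h1 : Real.log (dim P) - 8 * Real.log (1 + 2 * (d : ℝ)) ≤ 4 * M := by linarith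
  have h2 : Real.exp (Real.log (dim P) - 8 * Real.log (1 + 2 * (d : ℝ))) =
      (dim P : ℝ) / (1 + 2 * (d : ℝ)) ^ 8 := by
    have h3 : 8 * Real.log (1 + 2 * (d : ℝ)) = Real.log ((1 + 2 * (d : ℝ)) ^ 8) := by
      rw [Real.log_pow]
      norm_num
    rw [h3, Real.exp_sub, Real.exp_log hdm, Real.exp_log (by positivity)]
  rw [← h2]
  have h4 : Real.exp M ^ 4 = Real.exp (4 * M) := by
    rw [← Real.exp_nat_mul]
    norm_num
  rw [h4]
  exact Real.exp_le_exp.mpr h1

end Pool.Agent.H589.Boyd
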