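import Pool.Agent.H589.Boyd.Spec3
import Pool.Agent.H589.Boyd.FinC

set_option autoImplicit false

open MeasureTheory

namespace Pool.Agent.H589.Boyd

open finC_ in
theorem finD : S_Gen → S_NDC → S_JenD → S_Lim → S_Pars → S_FinD := by
  intro hGen hNDC hJen hLim _ n P hirr hdeg
  set d : ℕ := P.degreeOf 0 with hd
  have hpos : (0 : ℝ) < (d : ℝ) ^ 2 + 4 := by positivity
  rcases Nat.eq_zero_or_pos (dim P) with hm | hm
  · rw [hm]
    simp only [Nat.cast_zero, zero_div]
    positivity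
  obtain ⟨q, j0, hgood, heq⟩ := hNDC n P hirr hdeg
  obtain ⟨hI, hae, hlow⟩ := hGen (n + 1) (Fin 2) q j0 (dim P) hm hgood
  simp only [heq] at hI hae hlow
  set M : ℝ := ∫ θ in cube (n + 1), Real.log ‖val P θ‖ with hM
  have key : ∀ δ : ℝ, 0 < δ → δ < 1 → Real.log (dim P) / 2 - Real.log ((d : ℝ) ^ 2 + 4) ≤
      ∫ θ in cube (n + 1), Real.log (‖val P θ‖ ^ 2 + δ) := by
    intro δ hδ _
    have hc : Continuous fun θ : Fin (n + 1) → ℝ => Real.log (‖val P θ‖ ^ 2 + δ) := by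
      refine Continuous.log (((cont_val P).norm.pow 2).add continuous_const) fun θ => ?_
      positivity
    have hcI : IntegrableOn (fun θ : Fin (n + 1) → ℝ => Real.log (‖val P θ‖ ^ 2 + δ))
        (cube (n + 1)) := hc.integrableOn_Icc
    obtain ⟨f1, f2⟩ := fub _ hcI
    obtain ⟨g1, g2⟩ := fub _ hI
    rw [f1]
    refine le_trans (sub_le_sub_right hlow _) ?_
    rw [g1]
    have hcst : ∫ _θ in cube n, Real.log ((d : ℝ) ^ 2 + 4) = Real.log ((d : ℝ) ^ 2 + 4) := by
      rw [integral_const]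
      simp
    rw [← hcst, ← integral_sub g2 (integrable_const _)]
    refine integral_mono_ae (g2.sub (integrable_const _)) f2 ?_
    filter_upwards [aefub _ hae] with θ hθ
    obtain ⟨y, hy⟩ := hθ
    have hf0 : phi θ P ≠ 0 := by
      intro h0
      apply hy
      rw [val_euler, ← phi_eval, h0]
      simp
    have hJ := hJen (phi θ P) d hf0 (phi_deg θ P) δ hδ
    have e1 : ∀ y : ℝ, ‖val P (Fin.cons y θ : Fin (n + 1) → ℝ)‖ =
        ‖(phi θ P).eval (Complex.exp (2 * (Real.pi : ℂ) * Complex.I * (y : ℂ)))‖ := by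
      intro y
      rw [← phi_eval]
      rfl
    have e2 : ∀ y : ℝ, ‖val (euler P) (Fin.cons y θ : Fin (n + 1) → ℝ)‖ =
        ‖(phi θ P).derivative.eval (Complex.exp (2 * (Real.pi : ℂ) * Complex.I * (y : ℂ)))‖ := by
      intro y
      rw [val_euler]
      rfl
    simp only [e1, e2]
    exact hJ
  obtain ⟨-, -, hfin⟩ := hLim (n + 1) (fun θ => ‖val P θ‖ ^ 2) _ ((cont_val P).norm.pow 2)
    (fun θ => by positivity) key
  have hlog : ∀ θ : Fin (n + 1) → ℝ, Real.log (‖val P θ‖ ^ 2) = 2 * Real.log ‖val P θ‖ := by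
    intro θ
    rw [Real.log_pow]
    norm_num
  simp only [hlog] at hfin
  rw [integral_const_mul, ← hM] at hfin
  have hdm : (0 : ℝ) < (dim P : ℝ) := by exact_mod_cast hm
  have h1 : Real.log (dim P) - 2 * Real.log ((d : ℝ) ^ 2 + 4) ≤ 4 * M := by linarith
  have h2 : Real.exp (Real.log (dim P) - 2 * Real.log ((d : ℝ) ^ 2 + 4)) =
      (dim P : ℝ) / ((d : ℝ) ^ 2 + 4) ^ 2 := by
    have h3 : 2 * Real.log ((d : ℝ) ^ 2 + 4) = Real.log (((d : ℝ) ^ 2 + 4) ^ 2) := by
      rw [Real.log_pow]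
      norm_num
    rw [h3, Real.exp_sub, Real.exp_log hdm, Real.exp_log (by positivity)]
  rw [← h2]
  have h4 : Real.exp M ^ 4 = Real.exp (4 * M) := by
    rw [← Real.exp_nat_mul]
    norm_num
  rw [h4]
  exact Real.exp_le_exp.mpr h1

end Pool.Agent.H589.Boyd
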