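import Pool.Agent.H589.Boyd.Spec

/-!
# JEN: Mahler's inequality for the coefficients, integrated form
-/

set_option autoImplicit false

open MeasureTheory

namespace Pool.Agent.H589.Boyd

namespace jen_

/-- the zeros of a nonzero polynomial on the circle form a null set -/
theorem ae_ne_zero {f : Polynomial ℂ} (hf : f ≠ 0) :
    ∀ᵐ x : ℝ, f.eval (circleMap 0 1 x) ≠ 0 := by
  have h1 : ((fun x : ℝ => circleMap 0 1 x) ⁻¹' {z | f.IsRoot z}).Countable := by
    refine Set.Countable.preimage_circleMap ?_ 0 one_ne_zero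
    exact (Polynomial.finite_setOfPred_isRoot hf).countable
  have h2 : volume ((fun x : ℝ => circleMap 0 1 x) ⁻¹' {z | f.IsRoot z}) = 0 :=
    h1.measure_zero _
  rw [ae_iff]
  simpa [Set.preimage, Polynomial.IsRoot] using h2

/-- the coefficients are bounded by the Mahler measure -/
theorem sum_le (f : Polynomial ℂ) (d : ℕ) (hd : f.natDegree ≤ d) :
    ∑ j : Fin (d + 1), ‖f.coeff j‖ ^ 2 ≤ (Nat.centralBinom d : ℝ) * f.mahlerMeasure ^ 2 := by
  have h0 : (Nat.centralBinom d : ℝ) = ∑ j : Fin (d + 1), ((d.choose j : ℕ) : ℝ) ^ 2 := by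
    rw [Nat.centralBinom_eq_two_mul_choose, ← Nat.sum_range_choose_sq, ← Fin.sum_univ_eq_sum_range
      (fun i => d.choose i ^ 2) (d + 1)]
    push_cast
    rfl
  rw [h0, Finset.sum_mul]
  refine Finset.sum_le_sum fun j _ => ?_
  rw [← mul_pow]
  have h1 := Polynomial.norm_coeff_le_choose_mul_mahlerMeasure (j : ℕ) f
  have h2 : ((f.natDegree.choose (j : ℕ) : ℕ) : ℝ) ≤ ((d.choose (j : ℕ) : ℕ) : ℝ) := by
    exact_mod_cast Nat.choose_le_choose _ hd
  have h3 : ‖f.coeff j‖ ≤ ((d.choose (j : ℕ) : ℕ) : ℝ) * f.mahlerMeasure :=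
    h1.trans (mul_le_mul_of_nonneg_right h2 f.mahlerMeasure_nonneg)
  exact pow_le_pow_left₀ (norm_nonneg _) h3 2

/-- the average of the logarithm -/
theorem log_le {f : Polynomial ℂ} (hf : f ≠ 0) {δ : ℝ} (hδ : 0 < δ) :
    2 * f.logMahlerMeasure ≤
      (2 * Real.pi)⁻¹ * ∫ x in (0 : ℝ)..(2 * Real.pi),
        Real.log (‖f.eval (circleMap 0 1 x)‖ ^ 2 + δ) := by
  rw [Polynomial.logMahlerMeasure_def, Real.circleAverage_def, smul_eq_mul, mul_left_comm]
  refine mul_le_mul_of_nonneg_left ?_ (by positivity)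
  rw [← intervalIntegral.integral_const_mul]
  refine intervalIntegral.integral_mono_ae (by positivity)
    (f.intervalIntegrable_mahlerMeasure.const_mul 2) ?_ ?_
  · refine Continuous.intervalIntegrable ?_ _ _
    refine Continuous.log (by fun_prop) fun x => ?_
    positivity
  · filter_upwards [ae_ne_zero hf] with x hx
    have h1 : 0 < ‖f.eval (circleMap 0 1 x)‖ := norm_pos_iff.2 hx
    have h2 : 2 * Real.log ‖f.eval (circleMap 0 1 x)‖ =
        Real.log (‖f.eval (circleMap 0 1 x)‖ ^ 2) := by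
      rw [Real.log_pow]
      norm_num
    show 2 * Real.log ‖f.eval (circleMap 0 1 x)‖ ≤ _
    rw [h2]
    exact Real.log_le_log (by positivity) (by linarith)

/-- change of variables -/
theorem change (f : Polynomial ℂ) (δ : ℝ) :
    ∫ y in Set.Icc (0 : ℝ) 1,
      Real.log (‖f.eval (Complex.exp (2 * (Real.pi : ℂ) * Complex.I * (y : ℂ)))‖ ^ 2 + δ) =
      (2 * Real.pi)⁻¹ * ∫ x in (0 : ℝ)..(2 * Real.pi),
        Real.log (‖f.eval (circleMap 0 1 x)‖ ^ 2 + δ) := by
  rw [integral_Icc_eq_integral_Ioc, ← intervalIntegral.integral_of_le zero_le_one]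
  have h := intervalIntegral.integral_comp_mul_left (a := (0 : ℝ)) (b := 1)
    (fun x : ℝ => Real.log (‖f.eval (circleMap 0 1 x)‖ ^ 2 + δ))
    (c := 2 * Real.pi) (by positivity)
  rw [mul_zero, mul_one, smul_eq_mul] at h
  rw [← h]
  refine intervalIntegral.integral_congr fun y _ => ?_
  show Real.log (‖f.eval (Complex.exp (2 * (Real.pi : ℂ) * Complex.I * (y : ℂ)))‖ ^ 2 + δ) =
    Real.log (‖f.eval (circleMap 0 1 (2 * Real.pi * y))‖ ^ 2 + δ)
  have h2 : circleMap 0 1 (2 * Real.pi * y) =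
      Complex.exp (2 * (Real.pi : ℂ) * Complex.I * (y : ℂ)) := by
    rw [circleMap_zero, Complex.ofReal_one, one_mul]
    congr 1
    push_cast
    ring
  rw [h2]

end jen_

theorem jen : S_Jen := by
  intro f d hf hd δ hδ
  have h1 := jen_.sum_le f d hd
  have h2 := jen_.log_le hf hδ
  rw [jen_.change]
  refine le_trans ?_ h2
  have hM : 0 < f.mahlerMeasure := Polynomial.mahlerMeasure_pos_of_ne_zero hf
  have hC : (0 : ℝ) < (Nat.centralBinom d : ℝ) := by
    exact_mod_cast Nat.centralBinom_pos d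
  have hS : 0 < ∑ j : Fin (d + 1), ‖f.coeff j‖ ^ 2 := by
    have h3 : 0 < ‖f.coeff f.natDegree‖ ^ 2 := by
      have h4 : f.coeff f.natDegree ≠ 0 := by
        rw [Polynomial.coeff_natDegree]
        exact Polynomial.leadingCoeff_ne_zero.2 hf
      exact pow_pos (norm_pos_iff.2 h4) 2
    refine lt_of_lt_of_le h3 ?_
    exact Finset.single_le_sum (f := fun j : Fin (d + 1) => ‖f.coeff j‖ ^ 2)
      (fun j _ => by positivity) (Finset.mem_univ (⟨f.natDegree, by omega⟩ : Fin (d + 1)))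
  have h5 : Real.log (∑ j : Fin (d + 1), ‖f.coeff j‖ ^ 2) ≤
      Real.log (Nat.centralBinom d) + 2 * f.logMahlerMeasure := by
    refine (Real.log_le_log hS h1).trans ?_
    rw [Real.log_mul hC.ne' (by positivity), Real.log_pow,
      Polynomial.logMahlerMeasure_eq_log_MahlerMeasure]
    norm_num
  linarith

end Pool.Agent.H589.Boyd
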