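import Pool.Agent.H589.Boyd.Spec2

set_option autoImplicit false

open MeasureTheory

namespace Pool.Agent.H589.Boyd

namespace jenC_

/-- `e(y)` -/
noncomputable def e (y : ℝ) : ℂ := Complex.exp (2 * (Real.pi : ℂ) * Complex.I * (y : ℂ))

theorem e_eq (y : ℝ) : e y = Complex.exp (Complex.I * ((2 * Real.pi * y : ℝ) : ℂ)) := by
  unfold e
  congr 1
  push_cast
  ring

theorem norm_e (y : ℝ) : ‖e y‖ = 1 := by
  rw [e_eq, mul_comm]
  exact Complex.norm_exp_ofReal_mul_I _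

theorem e_add (x y : ℝ) : e (x + y) = e x * e y := by
  unfold e
  rw [← Complex.exp_add]
  congr 1
  push_cast
  ring

theorem e_one : e 1 = 1 := by
  unfold e
  rw [Complex.ofReal_one, mul_one]
  exact Complex.exp_two_pi_mul_I

theorem e_cont : Continuous e := by
  unfold e
  fun_prop

theorem e_countable (ρ : ℂ) : {y : ℝ | e y = ρ}.Countable := by
  by_cases h : ∃ y₀, e y₀ = ρ
  · obtain ⟨y₀, h0⟩ := h
    refine (Set.countable_range fun n : ℤ => y₀ + n).mono ?_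
    intro y hy
    have h1 : e y = e y₀ := by rw [h0]; exact hy
    unfold e at h1
    obtain ⟨n, hn⟩ := Complex.exp_eq_exp_iff_exists_int.1 h1
    refine ⟨n, ?_⟩
    have h2 : (2 * (Real.pi : ℂ) * Complex.I) * (y : ℂ) =
        (2 * (Real.pi : ℂ) * Complex.I) * ((y₀ + n : ℝ) : ℂ) := by
      rw [hn]
      push_cast
      ring
    have h3 := mul_left_cancel₀ Complex.two_pi_I_ne_zero h2
    exact_mod_cast h3.symm
  · have h1 : {y : ℝ | e y = ρ} = ∅ := by
      rw [Set.eq_empty_iff_forall_notMem]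
      exact fun y hy => h ⟨y, hy⟩
    rw [h1]
    exact Set.countable_empty

theorem ae_ne (ρ : ℂ) : ∀ᵐ y : ℝ, e y ≠ ρ := (e_countable ρ).ae_notMem volume

/-- the function `‖e(u) - 1‖ ^ (-1/2)` -/
noncomputable def h (u : ℝ) : ℝ := ‖e u - 1‖ ^ (-(1 / 2) : ℝ)

theorem h_nonneg (u : ℝ) : 0 ≤ h u := Real.rpow_nonneg (norm_nonneg _) _

theorem h_per : Function.Periodic h 1 := by
  intro u
  unfold h
  rw [e_add, e_one, mul_one]

theorem h_neg (u : ℝ) : h (-u) = h u := by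
  unfold h
  congr 1
  have h1 : e (-u) * e u = 1 := by
    rw [← e_add, neg_add_cancel]
    unfold e
    simp
  have h2 : e (-u) - 1 = -(e (-u)) * (e u - 1) := by
    linear_combination h1
  rw [h2, norm_mul, norm_neg, norm_e, one_mul]

theorem h_meas : Measurable h := by
  unfold h
  have : Continuous fun u : ℝ => ‖e u - 1‖ := (e_cont.sub continuous_const).norm
  exact this.measurable.pow_const _

theorem four_le {u : ℝ} (h0 : 0 ≤ u) (h1 : u ≤ 1 / 2) : 4 * u ≤ ‖e u - 1‖ := by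
  rw [e_eq, Complex.norm_exp_I_mul_ofReal_sub_one]
  have h2 : 2 * Real.pi * u / 2 = Real.pi * u := by ring
  rw [h2]
  have h3 := Real.mul_abs_le_abs_sin (x := Real.pi * u) (by
    rw [abs_of_nonneg (by positivity)]
    nlinarith [Real.pi_pos])
  rw [abs_of_nonneg (by positivity : 0 ≤ Real.pi * u)] at h3
  have h4 : 2 / Real.pi * (Real.pi * u) = 2 * u := by
    field_simp
  rw [h4] at h3
  rw [norm_mul, Real.norm_eq_abs, Real.norm_eq_abs, abs_of_pos (by norm_num : (0 : ℝ) < 2)]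
  linarith

theorem h_le {u : ℝ} (h0 : 0 < u) (h1 : u ≤ 1 / 2) : h u ≤ (1 / 2) * u ^ (-(1 / 2) : ℝ) := by
  unfold h
  have h2 := four_le h0.le h1
  have h3 : ‖e u - 1‖ ^ (-(1 / 2) : ℝ) ≤ (4 * u) ^ (-(1 / 2) : ℝ) :=
    Real.rpow_le_rpow_of_nonpos (by positivity) h2 (by norm_num)
  refine h3.trans (le_of_eq ?_)
  rw [Real.mul_rpow (by norm_num) h0.le]
  congr 1
  rw [Real.rpow_neg (by norm_num), ← Real.sqrt_eq_rpow]
  have : Real.sqrt 4 = 2 := by
    rw [show (4 : ℝ) = 2 ^ 2 by norm_num]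
    exact Real.sqrt_sq (by norm_num)
  rw [this]
  norm_num

theorem h_int0 : IntervalIntegrable h volume 0 (1 / 2) := by
  refine (intervalIntegral.intervalIntegrable_rpow' (r := -(1 / 2)) (by norm_num)).mono_fun
    h_meas.aestronglyMeasurable ?_
  refine (ae_restrict_iff' measurableSet_uIoc).2 (Filter.Eventually.of_forall ?_)
  intro u hu
  rw [Set.uIoc_of_le (by norm_num)] at hu
  show ‖h u‖ ≤ ‖u ^ (-(1 / 2) : ℝ)‖
  rw [Real.norm_of_nonneg (h_nonneg u), Real.norm_of_nonneg (Real.rpow_nonneg hu.1.le _)]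
  have h1 := h_le hu.1 hu.2
  have h2 := Real.rpow_nonneg hu.1.le (-(1 / 2))
  linarith

theorem h_val0 : ∫ u in (0 : ℝ)..(1 / 2), h u ≤ Real.sqrt (1 / 2) := by
  have h1 : ∫ u in (0 : ℝ)..(1 / 2), h u ≤
      ∫ u in (0 : ℝ)..(1 / 2), (1 / 2) * u ^ (-(1 / 2) : ℝ) := by
    refine intervalIntegral.integral_mono_on_of_le_Ioo (by norm_num) h_int0 ?_ ?_
    · exact (intervalIntegral.intervalIntegrable_rpow' (by norm_num)).const_mul _
    · intro u hu
      exact h_le hu.1 hu.2.le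
  refine h1.trans (le_of_eq ?_)
  rw [intervalIntegral.integral_const_mul, integral_rpow (Or.inl (by norm_num)),
    Real.zero_rpow (by norm_num), show (-(1 / 2) : ℝ) + 1 = 1 / 2 by norm_num,
    ← Real.sqrt_eq_rpow]
  ring

theorem h_int1 : IntervalIntegrable h volume (-(1 / 2)) 0 := by
  have h1 := (IntervalIntegrable.iff_comp_neg).1 h_int0
  simp only [h_neg, neg_zero] at h1
  exact h1.symm

theorem h_val1 : ∫ u in (-(1 / 2) : ℝ)..0, h u ≤ Real.sqrt (1 / 2) := by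
  have h1 : ∫ u in (0 : ℝ)..(1 / 2), h (-u) = ∫ u in (-(1 / 2) : ℝ)..(-0), h u :=
    intervalIntegral.integral_comp_neg _
  rw [neg_zero] at h1
  rw [← h1]
  simp only [h_neg]
  exact h_val0

theorem h_int : IntervalIntegrable h volume (-(1 / 2)) (1 / 2) := h_int1.trans h_int0

theorem h_val : ∫ u in (-(1 / 2) : ℝ)..(1 / 2), h u ≤ Real.sqrt 2 := by
  rw [← intervalIntegral.integral_add_adjacent_intervals h_int1 h_int0]
  have h0 := h_val0
  have h1 := h_val1
  have h2 : Real.sqrt (1 / 2) + Real.sqrt (1 / 2) = Real.sqrt 2 := by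
    have h3 : Real.sqrt 2 * Real.sqrt (1 / 2) = 1 := by
      rw [← Real.sqrt_mul (by norm_num)]
      norm_num
    have h4 : Real.sqrt 2 * Real.sqrt 2 = 2 := Real.mul_self_sqrt (by norm_num)
    have h5 : Real.sqrt (1 / 2) + Real.sqrt (1 / 2) =
        (Real.sqrt 2 * Real.sqrt 2) * Real.sqrt (1 / 2) := by
      rw [h4]
      ring
    rw [h5, mul_assoc, h3, mul_one]
  linarith

theorem h_int_any (a b : ℝ) : IntervalIntegrable h volume a b := by
  refine h_per.intervalIntegrable one_ne_zero (t := -(1 / 2)) ?_ a b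
  have h1 : (-(1 / 2) : ℝ) + 1 = 1 / 2 := by norm_num
  rw [h1]
  exact h_int

theorem h_shift (φ : ℝ) : ∫ y in (0 : ℝ)..1, h (y - φ) ≤ Real.sqrt 2 := by
  rw [intervalIntegral.integral_comp_sub_right]
  have h1 := h_per.intervalIntegral_add_eq (0 - φ) (-(1 / 2))
  have h2 : (0 : ℝ) - φ + 1 = 1 - φ := by ring
  have h3 : (-(1 / 2) : ℝ) + 1 = 1 / 2 := by norm_num
  rw [h2, h3] at h1
  rw [h1]
  exact h_val

theorem h_shift_int (φ : ℝ) : IntervalIntegrable (fun y => h (y - φ)) volume 0 1 := by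
  have h1 := (h_int_any (0 - φ) (1 - φ)).comp_sub_right φ
  simpa using h1

theorem exists_phi (ρ : ℂ) : ∃ φ : ℝ, ∀ y, ‖e (y - φ) - 1‖ ≤ 2 * ‖e y - ρ‖ := by
  refine ⟨Complex.arg ρ / (2 * Real.pi), fun y => ?_⟩
  obtain ⟨φ, hφ⟩ : ∃ φ, φ = Complex.arg ρ / (2 * Real.pi) := ⟨_, rfl⟩
  rw [← hφ]
  have h1 : ρ = (‖ρ‖ : ℂ) * e φ := by
    rw [e_eq]
    have h2 : 2 * Real.pi * φ = Complex.arg ρ := by
      rw [hφ]
      field_simp
    rw [h2, mul_comm Complex.I]
    exact (Complex.norm_mul_exp_arg_mul_I ρ).symm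
  have h2 : (e (y - φ) - 1) * e φ = e y - e φ := by
    rw [sub_mul, ← e_add, sub_add_cancel, one_mul]
  have h3 : ‖e (y - φ) - 1‖ = ‖e y - e φ‖ := by
    rw [← h2, norm_mul, norm_e, mul_one]
  have h4 : ‖ρ - e φ‖ ≤ ‖e y - ρ‖ := by
    have h5 : ρ - e φ = ((‖ρ‖ - 1 : ℝ) : ℂ) * e φ := by
      have h51 : ρ - e φ = (‖ρ‖ : ℂ) * e φ - e φ := congrArg (fun z => z - e φ) h1
      rw [h51]
      push_cast
      ring
    rw [h5, norm_mul, norm_e, mul_one, Complex.norm_real, Real.norm_eq_abs]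
    have h6 := abs_norm_sub_norm_le (e y) ρ
    rw [norm_e, abs_sub_comm] at h6
    exact h6
  rw [h3]
  have h7 : e y - e φ = (e y - ρ) + (ρ - e φ) := by ring
  rw [h7]
  linarith [norm_add_le (e y - ρ) (ρ - e φ)]

/-- the function `‖e(y) - ρ‖ ^ (-1/2)` -/
noncomputable def s (ρ : ℂ) (y : ℝ) : ℝ := ‖e y - ρ‖ ^ (-(1 / 2) : ℝ)

theorem s_nonneg (ρ : ℂ) (y : ℝ) : 0 ≤ s ρ y := Real.rpow_nonneg (norm_nonneg _) _

theorem s_meas (ρ : ℂ) : Measurable (s ρ) := by
  unfold s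
  have : Continuous fun u : ℝ => ‖e u - ρ‖ := (e_cont.sub continuous_const).norm
  exact this.measurable.pow_const _

theorem s_sq (ρ : ℂ) (y : ℝ) : s ρ y ^ 2 = ‖e y - ρ‖⁻¹ := by
  unfold s
  rw [← Real.rpow_natCast, ← Real.rpow_mul (norm_nonneg _)]
  norm_num
  exact Real.rpow_neg_one _

theorem sqrt_two_mul : Real.sqrt 2 * (2 : ℝ) ^ (-(1 / 2) : ℝ) = 1 := by
  rw [Real.rpow_neg (by norm_num), ← Real.sqrt_eq_rpow]
  exact mul_inv_cancel₀ (Real.sqrt_ne_zero'.2 (by norm_num))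

theorem s_le (ρ : ℂ) : ∃ φ : ℝ, ∀ᵐ y : ℝ, s ρ y ≤ Real.sqrt 2 * h (y - φ) := by
  obtain ⟨φ, hφ⟩ := exists_phi ρ
  refine ⟨φ, ?_⟩
  filter_upwards [ae_ne (e φ)] with y hy
  have h1 := hφ y
  have h2 : 0 < ‖e (y - φ) - 1‖ := by
    rw [norm_pos_iff]
    intro h0
    apply hy
    have h3 : e (y - φ) = 1 := sub_eq_zero.1 h0
    have h4 : e y = e (y - φ) * e φ := by rw [← e_add, sub_add_cancel]
    rw [h4, h3, one_mul]
  have h3 := Real.rpow_le_rpow_of_nonpos h2 h1 (by norm_num : (-(1 / 2) : ℝ) ≤ 0)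
  rw [Real.mul_rpow (by norm_num) (norm_nonneg _)] at h3
  have h4 := mul_le_mul_of_nonneg_left h3 (Real.sqrt_nonneg 2)
  rw [← mul_assoc, sqrt_two_mul, one_mul] at h4
  exact h4

theorem s_int (ρ : ℂ) : IntegrableOn (s ρ) (Set.Icc 0 1) ∧
    ∫ y in Set.Icc (0 : ℝ) 1, s ρ y ≤ 2 := by
  obtain ⟨φ, hφ⟩ := s_le ρ
  have h1 : IntegrableOn (fun y => Real.sqrt 2 * h (y - φ)) (Set.Icc (0 : ℝ) 1) :=
    (intervalIntegrable_iff_integrableOn_Icc_of_le (by norm_num)).1
      ((h_shift_int φ).const_mul _)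
  have h2 : ∀ᵐ y ∂(volume.restrict (Set.Icc (0 : ℝ) 1)), s ρ y ≤ Real.sqrt 2 * h (y - φ) :=
    ae_restrict_of_ae hφ
  have h3 : IntegrableOn (s ρ) (Set.Icc 0 1) := by
    refine Integrable.mono' h1 (s_meas ρ).aestronglyMeasurable ?_
    filter_upwards [h2] with y hy
    rw [Real.norm_of_nonneg (s_nonneg ρ y)]
    exact hy
  refine ⟨h3, (integral_mono_ae h3 h1 h2).trans ?_⟩
  rw [integral_const_mul, integral_Icc_eq_integral_Ioc,
    ← intervalIntegral.integral_of_le (by norm_num)]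
  have h4 := mul_le_mul_of_nonneg_left (h_shift φ) (Real.sqrt_nonneg 2)
  rw [Real.mul_self_sqrt (by norm_num)] at h4
  exact h4

theorem S_int (R : Multiset ℂ) :
    IntegrableOn (fun y => (R.map fun ρ => s ρ y).sum) (Set.Icc (0 : ℝ) 1) ∧
    ∫ y in Set.Icc (0 : ℝ) 1, (R.map fun ρ => s ρ y).sum ≤ 2 * (Multiset.card R : ℝ) := by
  induction R using Multiset.induction_on with
  | empty => simp
  | cons a R ih =>
    simp only [Multiset.map_cons, Multiset.sum_cons, Multiset.card_cons]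
    obtain ⟨i1, i2⟩ := ih
    obtain ⟨j1, j2⟩ := s_int a
    refine ⟨j1.add i1, ?_⟩
    rw [integral_add j1 i1]
    push_cast
    linarith

theorem S_nonneg (R : Multiset ℂ) (y : ℝ) : 0 ≤ (R.map fun ρ => s ρ y).sum := by
  refine Multiset.sum_nonneg ?_
  intro x hx
  obtain ⟨ρ, -, rfl⟩ := Multiset.mem_map.1 hx
  exact s_nonneg ρ y

theorem sum_le (R : Multiset ℂ) (y : ℝ) :
    ‖(R.map fun ρ => 1 / (e y - ρ)).sum‖ ≤ (R.map fun ρ => s ρ y).sum ^ 2 := by
  induction R using Multiset.induction_on with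
  | empty => simp
  | cons a R ih =>
    simp only [Multiset.map_cons, Multiset.sum_cons]
    have h1 : ‖1 / (e y - a)‖ = s a y ^ 2 := by
      rw [s_sq, norm_div, norm_one, one_div]
    have h2 := norm_add_le (1 / (e y - a)) (R.map fun ρ => 1 / (e y - ρ)).sum
    have h3 := mul_nonneg (s_nonneg a y) (S_nonneg R y)
    nlinarith

theorem log_int {f : Polynomial ℂ} :
    IntegrableOn (fun y => Real.log ‖f.eval (e y)‖) (Set.Icc (0 : ℝ) 1) := by
  have h1 := (Polynomial.intervalIntegrable_mahlerMeasure f).comp_mul_left (c := 2 * Real.pi)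
  have h2 : (2 * Real.pi) / (2 * Real.pi) = 1 := div_self (by positivity)
  rw [zero_div, h2] at h1
  have h3 := (intervalIntegrable_iff_integrableOn_Icc_of_le (by norm_num)).1 h1
  refine h3.congr_fun ?_ measurableSet_Icc
  intro y _
  simp only [circleMap, zero_add, Complex.ofReal_one, one_mul]
  rw [e_eq, mul_comm Complex.I]

end jenC_

open jenC_ in
theorem jenC : S_JenC := by
  intro f d hf hd δ hδ
  change (∫ y in Set.Icc (0 : ℝ) 1,
      Real.log (‖f.eval (e y)‖ ^ 2 + ‖f.derivative.eval (e y)‖ ^ 2)) -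
      4 * Real.log (1 + 2 * d) ≤
    ∫ y in Set.Icc (0 : ℝ) 1, Real.log (‖f.eval (e y)‖ ^ 2 + δ)
  have cf : Continuous fun y => f.eval (e y) := f.continuous.comp e_cont
  have cf' : Continuous fun y => f.derivative.eval (e y) := f.derivative.continuous.comp e_cont
  obtain ⟨S1, S2⟩ := S_int f.roots
  have hne : ∀ᵐ y : ℝ, f.eval (e y) ≠ 0 := by
    have h1 : {y : ℝ | f.eval (e y) = 0}.Countable := by
      have h2 : {y : ℝ | f.eval (e y) = 0} ⊆ ⋃ ρ ∈ f.roots.toFinset, {y : ℝ | e y = ρ} := by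
        intro y hy
        simp only [Set.mem_iUnion]
        refine ⟨e y, ?_, rfl⟩
        rw [Multiset.mem_toFinset, Polynomial.mem_roots hf]
        exact hy
      refine Set.Countable.mono h2 ?_
      exact Set.Countable.biUnion (Finset.countable_toSet _) fun ρ _ => e_countable ρ
    exact h1.ae_notMem volume
  have hG : IntegrableOn (fun y => Real.log (‖f.eval (e y)‖ ^ 2 + δ)) (Set.Icc (0 : ℝ) 1) := by
    refine Continuous.integrableOn_Icc ?_
    refine Continuous.log ((cf.norm.pow 2).add continuous_const) ?_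
    intro y
    positivity
  have hd1 : (0 : ℝ) < 1 + 2 * (d : ℝ) := by positivity
  have hU : IntegrableOn (fun y => Real.log (‖f.eval (e y)‖ ^ 2 + δ) +
      (4 * Real.log (1 + 2 * (d : ℝ)) + 4 / (1 + 2 * (d : ℝ)) *
        ((f.roots.map fun ρ => s ρ y).sum - 2 * (d : ℝ)))) (Set.Icc (0 : ℝ) 1) := by
    refine hG.add ?_
    refine Integrable.add (integrable_const _) ?_
    refine Integrable.const_mul ?_ _
    exact Integrable.sub S1 (integrable_const _)
  have key : ∀ᵐ y ∂(volume.restrict (Set.Icc (0 : ℝ) 1)),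
      Real.log (‖f.eval (e y)‖ ^ 2 + ‖f.derivative.eval (e y)‖ ^ 2) ≤
      Real.log (‖f.eval (e y)‖ ^ 2 + δ) +
      (4 * Real.log (1 + 2 * (d : ℝ)) + 4 / (1 + 2 * (d : ℝ)) *
        ((f.roots.map fun ρ => s ρ y).sum - 2 * (d : ℝ))) := by
    refine ae_restrict_of_ae ?_
    filter_upwards [hne] with y hy
    have h1 := (IsAlgClosed.splits f).eval_derivative_div_eval_of_ne_zero hy
    have h2 := sum_le f.roots y
    obtain ⟨S, hS⟩ : ∃ S, S = (f.roots.map fun ρ => s ρ y).sum := ⟨_, rfl⟩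
    have hS0 : 0 ≤ S := hS ▸ S_nonneg f.roots y
    rw [← h1, norm_div, ← hS] at h2
    rw [← hS]
    have h3 : 0 < ‖f.eval (e y)‖ := norm_pos_iff.2 hy
    rw [div_le_iff₀ h3] at h2
    obtain ⟨a, ha⟩ : ∃ a, a = ‖f.eval (e y)‖ := ⟨_, rfl⟩
    obtain ⟨b, hb⟩ : ∃ b, b = ‖f.derivative.eval (e y)‖ := ⟨_, rfl⟩
    have hb0 : 0 ≤ b := hb ▸ norm_nonneg _
    rw [← ha] at h3
    rw [← ha, ← hb] at h2
    rw [← ha, ← hb]
    have h4 : b ^ 2 ≤ (S ^ 2 * a) ^ 2 := pow_le_pow_left₀ hb0 h2 2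
    have h5 : a ^ 2 + b ^ 2 ≤ (a ^ 2 + δ) * (1 + S) ^ 4 := by
      have h6 : a ^ 2 + b ^ 2 ≤ a ^ 2 * (1 + S ^ 4) := by nlinarith
      have h7 : 1 + S ^ 4 ≤ (1 + S) ^ 4 := by
        have : (1 + S) ^ 4 = 1 + S ^ 4 + (4 * S + 6 * S ^ 2 + 4 * S ^ 3) := by ring
        rw [this]
        have : 0 ≤ 4 * S + 6 * S ^ 2 + 4 * S ^ 3 := by positivity
        linarith
      calc a ^ 2 + b ^ 2 ≤ a ^ 2 * (1 + S ^ 4) := h6
        _ ≤ a ^ 2 * (1 + S) ^ 4 := by gcongr
        _ ≤ (a ^ 2 + δ) * (1 + S) ^ 4 := by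
          have : a ^ 2 ≤ a ^ 2 + δ := by linarith
          gcongr
    have h8 : Real.log (a ^ 2 + b ^ 2) ≤ Real.log (a ^ 2 + δ) + 4 * Real.log (1 + S) := by
      have h9 := Real.log_le_log (by positivity) h5
      rw [Real.log_mul (by positivity) (by positivity), Real.log_pow] at h9
      exact_mod_cast h9
    have h10 : Real.log (1 + S) ≤ Real.log (1 + 2 * (d : ℝ)) +
        (S - 2 * (d : ℝ)) / (1 + 2 * (d : ℝ)) := by
      have h11 := Real.log_le_sub_one_of_pos (x := (1 + S) / (1 + 2 * (d : ℝ))) (by positivity)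
      rw [Real.log_div (by positivity) (by positivity)] at h11
      have h12 : (1 + S) / (1 + 2 * (d : ℝ)) - 1 = (S - 2 * (d : ℝ)) / (1 + 2 * (d : ℝ)) := by
        field_simp
        ring
      linarith
    have h13 : 4 / (1 + 2 * (d : ℝ)) * (S - 2 * (d : ℝ)) =
        4 * ((S - 2 * (d : ℝ)) / (1 + 2 * (d : ℝ))) := by
      ring
    rw [h13]
    linarith
  have hF : IntegrableOn (fun y =>
      Real.log (‖f.eval (e y)‖ ^ 2 + ‖f.derivative.eval (e y)‖ ^ 2)) (Set.Icc (0 : ℝ) 1) := by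
    have hm : Measurable (fun y =>
        Real.log (‖f.eval (e y)‖ ^ 2 + ‖f.derivative.eval (e y)‖ ^ 2)) :=
      Real.measurable_log.comp ((cf.norm.pow 2).add (cf'.norm.pow 2)).measurable
    have hL : IntegrableOn (fun y => 2 * Real.log ‖f.eval (e y)‖) (Set.Icc (0 : ℝ) 1) :=
      Integrable.const_mul log_int _
    refine Integrable.mono' (Integrable.add hL.norm hU.norm) hm.aestronglyMeasurable ?_
    filter_upwards [key, ae_restrict_of_ae hne] with y h1 h2
    have h3 : 0 < ‖f.eval (e y)‖ := norm_pos_iff.2 h2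
    have h4 : 2 * Real.log ‖f.eval (e y)‖ ≤
        Real.log (‖f.eval (e y)‖ ^ 2 + ‖f.derivative.eval (e y)‖ ^ 2) := by
      have h5 : 2 * Real.log ‖f.eval (e y)‖ = Real.log (‖f.eval (e y)‖ ^ 2) := by
        rw [Real.log_pow]
        norm_num
      rw [h5]
      refine Real.log_le_log (by positivity) ?_
      have := sq_nonneg ‖f.derivative.eval (e y)‖
      linarith
    simp only [Pi.add_apply, Real.norm_eq_abs]
    rw [abs_le]
    constructor
    · have h6 := neg_abs_le (2 * Real.log ‖f.eval (e y)‖)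
      have h7 := abs_nonneg (Real.log (‖f.eval (e y)‖ ^ 2 + δ) +
        (4 * Real.log (1 + 2 * (d : ℝ)) + 4 / (1 + 2 * (d : ℝ)) *
          ((f.roots.map fun ρ => s ρ y).sum - 2 * (d : ℝ))))
      linarith
    · have h6 := abs_nonneg (2 * Real.log ‖f.eval (e y)‖)
      have h7 := le_abs_self (Real.log (‖f.eval (e y)‖ ^ 2 + δ) +
        (4 * Real.log (1 + 2 * (d : ℝ)) + 4 / (1 + 2 * (d : ℝ)) *
          ((f.roots.map fun ρ => s ρ y).sum - 2 * (d : ℝ))))
      linarith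
  have hfin := integral_mono_ae hF hU key
  have hvol : (volume.restrict (Set.Icc (0 : ℝ) 1)).real Set.univ = 1 := by
    simp [Measure.real]
  have hsub : Integrable (fun y => (f.roots.map fun ρ => s ρ y).sum - 2 * (d : ℝ))
      (volume.restrict (Set.Icc (0 : ℝ) 1)) := Integrable.sub S1 (integrable_const _)
  have hk : Integrable (fun y => 4 / (1 + 2 * (d : ℝ)) *
      ((f.roots.map fun ρ => s ρ y).sum - 2 * (d : ℝ)))
      (volume.restrict (Set.Icc (0 : ℝ) 1)) := Integrable.const_mul hsub _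
  have hk2 : Integrable (fun y => 4 * Real.log (1 + 2 * (d : ℝ)) + 4 / (1 + 2 * (d : ℝ)) *
      ((f.roots.map fun ρ => s ρ y).sum - 2 * (d : ℝ)))
      (volume.restrict (Set.Icc (0 : ℝ) 1)) := Integrable.add (integrable_const _) hk
  rw [integral_add hG hk2, integral_add (integrable_const _) hk, integral_const,
    integral_const_mul, integral_sub S1 (integrable_const _), integral_const, hvol,
    one_smul, one_smul] at hfin
  have hcard : (Multiset.card f.roots : ℝ) ≤ d := by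
    exact_mod_cast (Polynomial.card_roots' f).trans hd
  have h14 : 4 / (1 + 2 * (d : ℝ)) *
      ((∫ y in Set.Icc (0 : ℝ) 1, (f.roots.map fun ρ => s ρ y).sum) - 2 * (d : ℝ)) ≤ 0 := by
    refine mul_nonpos_of_nonneg_of_nonpos (by positivity) ?_
    linarith
  linarith

end Pool.Agent.H589.Boyd
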