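import Pool.Agent.H589.Boyd.Spec

/-! NDB: the coefficients of `P` as a polynomial in the variable `0` (helper782 for helper589). -/

set_option autoImplicit false

open MeasureTheory

namespace Pool.Agent.H589.Boyd

namespace ndb_

open Classical

variable {n : ℕ}

/-- the exponent without the entry `0` -/
noncomputable def tl (e : Fin (n + 1) →₀ ℕ) : G n := toLex (fun i => (e i.succ : ℤ))

theorem tl_inj {e e' : Fin (n + 1) →₀ ℕ} (h : tl e = tl e') (h0 : e 0 = e' 0) : e = e' := by
  ext i
  refine Fin.cases h0 (fun i => ?_) i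
  have h1 := congrArg (fun u : G n => (ofLex u) i) h
  have h2 : ((e i.succ : ℕ) : ℤ) = ((e' i.succ : ℕ) : ℤ) := h1
  exact_mod_cast h2

/-- sums of monomials, shifted by `a0` -/
noncomputable def L (P : MvPolynomial (Fin (n + 1)) ℤ) (a0 : G n)
    (s : Finset (Fin (n + 1) →₀ ℕ)) : AddMonoidAlgebra ℤ (G n) :=
  ∑ e ∈ s, AddMonoidAlgebra.single (tl e - a0) (P.coeff e)

theorem L_coeff (P : MvPolynomial (Fin (n + 1)) ℤ) (a0 : G n) (s : Finset (Fin (n + 1) →₀ ℕ))
    (u : G n) : (L P a0 s).coeff u = ∑ e ∈ s, if tl e - a0 = u then P.coeff e else 0 := by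
  unfold L
  rw [AddMonoidAlgebra.coeff_sum, Finsupp.finsetSum_apply]
  refine Finset.sum_congr rfl fun e _ => ?_
  rw [AddMonoidAlgebra.coeff_single, Finsupp.single_apply]

theorem part_coeff {Γ : Type} [AddCommGroup Γ] {R : Type} [Semiring R] (W : AddSubgroup Γ)
    (A : AddMonoidAlgebra R Γ) (u : Γ) :
    (part W A).coeff u = if u ∈ W then A.coeff u else 0 := by
  unfold part
  rw [AddMonoidAlgebra.coeff_sum, Finsupp.finsetSum_apply]
  simp only [AddMonoidAlgebra.coeff_single, Finsupp.single_apply]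
  rw [Finset.sum_ite_eq']
  by_cases h : u ∈ W
  · rw [if_pos h]
    by_cases h2 : A.coeff u = 0
    · rw [h2]
      simp
    · rw [if_pos]
      rw [Finset.mem_filter, Finsupp.mem_support_iff]
      exact ⟨h2, h⟩
  · rw [if_neg h, if_neg]
    rw [Finset.mem_filter]
    exact fun h2 => h h2.2

theorem part_L (P : MvPolynomial (Fin (n + 1)) ℤ) (a0 : G n) (s : Finset (Fin (n + 1) →₀ ℕ))
    (W : AddSubgroup (G n)) : part W (L P a0 s) = L P a0 (s.filter fun e => tl e - a0 ∈ W) := by
  apply AddMonoidAlgebra.ext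
  ext u
  rw [part_coeff, L_coeff, L_coeff, Finset.sum_filter]
  by_cases h : u ∈ W
  · rw [if_pos h]
    refine Finset.sum_congr rfl fun e _ => ?_
    by_cases h2 : tl e - a0 = u
    · rw [if_pos h2, if_pos (by rw [h2]; exact h)]
    · rw [if_neg h2]
      split_ifs <;> rfl
  · rw [if_neg h]
    symm
    refine Finset.sum_eq_zero fun e _ => ?_
    by_cases h2 : tl e - a0 ∈ W
    · rw [if_pos h2, if_neg]
      intro h3
      rw [h3] at h2
      exact h h2
    · rw [if_neg h2]

/-- the embedding -/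
noncomputable def Psi : MvPolynomial (Fin (n + 1)) ℤ →+* Polynomial (AddMonoidAlgebra ℤ (G n)) :=
  MvPolynomial.eval₂Hom (Int.castRingHom _)
    (Fin.cases Polynomial.X fun i => Polynomial.C (AddMonoidAlgebra.single
      (toLex (Pi.single i 1)) 1))

theorem tl_eq (e : Fin (n + 1) →₀ ℕ) :
    tl e = ∑ i : Fin n, (e i.succ) • (toLex (Pi.single i (1 : ℤ)) : G n) := by
  apply ofLex.injective
  funext j
  have h1 : ofLex (∑ i : Fin n, (e i.succ) • (toLex (Pi.single i (1 : ℤ)) : G n)) =
      ∑ i : Fin n, (e i.succ) • (Pi.single i (1 : ℤ) : Fin n → ℤ) := rfl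
  rw [h1, Finset.sum_apply]
  simp only [Pi.smul_apply, Pi.single_apply, smul_ite, smul_zero, nsmul_eq_mul, mul_one]
  rw [Finset.sum_ite_eq Finset.univ j, if_pos (Finset.mem_univ _)]
  rfl

theorem prod_single (s : Finset (Fin n)) (f : Fin n → G n) :
    ∏ i ∈ s, (AddMonoidAlgebra.single (f i) (1 : ℤ)) =
      AddMonoidAlgebra.single (∑ i ∈ s, f i) 1 := by
  induction s using Finset.induction_on with
  | empty => rfl
  | insert a s ha ih =>
    rw [Finset.prod_insert ha, Finset.sum_insert ha, ih, AddMonoidAlgebra.single_mul_single,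
      mul_one]

theorem Psi_monomial (e : Fin (n + 1) →₀ ℕ) (c : ℤ) :
    Psi (MvPolynomial.monomial e c) =
      Polynomial.C (AddMonoidAlgebra.single (tl e) c) * Polynomial.X ^ (e 0) := by
  unfold Psi
  rw [MvPolynomial.eval₂Hom_monomial, Finsupp.prod_fintype _ _ (fun i => pow_zero _),
    Fin.prod_univ_succ]
  simp only [Fin.cases_zero, Fin.cases_succ]
  have h1 : ∏ i : Fin n, (Polynomial.C (AddMonoidAlgebra.single
      (toLex (Pi.single i 1) : G n) (1 : ℤ)) ^ (e i.succ)) =
      Polynomial.C (AddMonoidAlgebra.single (tl e) 1) := by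
    rw [tl_eq, ← prod_single, map_prod]
    refine Finset.prod_congr rfl fun i _ => ?_
    rw [← map_pow, AddMonoidAlgebra.single_pow, one_pow]
  rw [h1]
  have h2 : (Int.castRingHom (Polynomial (AddMonoidAlgebra ℤ (G n)))) c =
      Polynomial.C (AddMonoidAlgebra.single 0 c) := by
    have h3 : (AddMonoidAlgebra.single (0 : G n) c : AddMonoidAlgebra ℤ (G n)) = (c : ℤ) := by
      rw [AddMonoidAlgebra.intCast_def]
      simp
    rw [h3]
    simp
  rw [h2, mul_comm (Polynomial.X ^ e 0), ← mul_assoc, ← map_mul,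
    AddMonoidAlgebra.single_mul_single, zero_add, mul_one]

theorem Psi_coeff (s : Finset (Fin (n + 1) →₀ ℕ)) (w : (Fin (n + 1) →₀ ℕ) → ℤ) (j : ℕ) :
    (Psi (∑ e ∈ s, MvPolynomial.monomial e (w e))).coeff j =
      ∑ e ∈ s.filter (fun e => e 0 = j), AddMonoidAlgebra.single (tl e) (w e) := by
  rw [map_sum, Polynomial.finsetSum_coeff, Finset.sum_filter]
  refine Finset.sum_congr rfl fun e _ => ?_
  rw [Psi_monomial, Polynomial.coeff_C_mul_X_pow]
  by_cases h : e 0 = j
  · rw [if_pos h, if_pos h.symm]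
  · rw [if_neg h, if_neg (fun h2 => h h2.symm)]

theorem Psi_inj {Q : MvPolynomial (Fin (n + 1)) ℤ} (h : Psi Q = 0) : Q = 0 := by
  apply MvPolynomial.ext
  intro e0
  have h1 : ((Psi Q).coeff (e0 0)).coeff (tl e0) = Q.coeff e0 := by
    conv_lhs => rw [Q.as_sum]
    rw [Psi_coeff, AddMonoidAlgebra.coeff_sum, Finsupp.finsetSum_apply, Finset.sum_filter]
    have h2 : ∀ e ∈ Q.support, (if e 0 = e0 0 then
        (AddMonoidAlgebra.single (tl e) (Q.coeff e)).coeff (tl e0) else 0) =
        if e = e0 then Q.coeff e else 0 := by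
      intro e _
      by_cases h3 : e = e0
      · subst h3
        rw [if_pos rfl, if_pos rfl, AddMonoidAlgebra.coeff_single, Finsupp.single_apply,
          if_pos rfl]
      · rw [if_neg h3]
        by_cases h4 : e 0 = e0 0
        · rw [if_pos h4, AddMonoidAlgebra.coeff_single, Finsupp.single_apply, if_neg]
          exact fun h5 => h3 (tl_inj h5 h4)
        · rw [if_neg h4]
    rw [Finset.sum_congr rfl h2, Finset.sum_ite_eq']
    by_cases h3 : e0 ∈ Q.support
    · rw [if_pos h3]
    · rw [if_neg h3, MvPolynomial.notMem_support_iff.mp h3]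
  rw [h] at h1
  rw [MvPolynomial.coeff_zero]
  rw [← h1]
  rfl

theorem shift (P : MvPolynomial (Fin (n + 1)) ℤ) (a0 : G n) (s : Finset (Fin (n + 1) →₀ ℕ)) :
    AddMonoidAlgebra.single a0 1 * L P a0 s =
      ∑ e ∈ s, AddMonoidAlgebra.single (tl e) (P.coeff e) := by
  unfold L
  rw [Finset.mul_sum]
  refine Finset.sum_congr rfl fun e _ => ?_
  rw [AddMonoidAlgebra.single_mul_single, one_mul, add_sub_cancel]

theorem Psi_erase (P : MvPolynomial (Fin (n + 1)) ℤ) (a0 : G n)
    (s : Finset (Fin (n + 1) →₀ ℕ)) :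
    Psi (∑ e ∈ s, MvPolynomial.monomial (e.erase 0) (P.coeff e)) =
      Polynomial.C (AddMonoidAlgebra.single a0 1 * L P a0 s) := by
  rw [shift, map_sum, map_sum]
  refine Finset.sum_congr rfl fun e _ => ?_
  rw [Psi_monomial, Finsupp.erase_same, pow_zero, mul_one]
  have h : tl (e.erase 0) = tl e := by
    unfold tl
    congr 1
    funext i
    rw [Finsupp.erase_ne (Fin.succ_ne_zero i)]
  rw [h]

theorem ident (P : MvPolynomial (Fin (n + 1)) ℤ) (a0 : G n) (j0 : ℕ) (W : AddSubgroup (G n))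
    (hyp : ∀ j : ℕ, part W (L P a0 (P.support.filter fun e => e 0 = j0)) *
      L P a0 (P.support.filter fun e => e 0 = j) =
      part W (L P a0 (P.support.filter fun e => e 0 = j)) *
        L P a0 (P.support.filter fun e => e 0 = j0)) :
    (∑ e ∈ (P.support.filter fun e => e 0 = j0).filter (fun e => tl e - a0 ∈ W),
        MvPolynomial.monomial (e.erase 0) (P.coeff e)) * P =
      (∑ e ∈ (P.support.filter fun e => e 0 = j0),
        MvPolynomial.monomial (e.erase 0) (P.coeff e)) *
      ∑ e ∈ P.support.filter (fun e => tl e - a0 ∈ W), MvPolynomial.monomial e (P.coeff e) := by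
  apply sub_eq_zero.mp
  apply Psi_inj
  rw [map_sub, map_mul, map_mul, sub_eq_zero, Psi_erase P a0, Psi_erase P a0]
  apply Polynomial.ext
  intro j
  rw [Polynomial.coeff_C_mul, Polynomial.coeff_C_mul]
  have h1 : (Psi P).coeff j = AddMonoidAlgebra.single a0 1 *
      L P a0 (P.support.filter fun e => e 0 = j) := by
    conv_lhs => rw [P.as_sum]
    rw [Psi_coeff, shift]
  have h2 : (Psi (∑ e ∈ P.support.filter (fun e => tl e - a0 ∈ W),
      MvPolynomial.monomial e (P.coeff e))).coeff j = AddMonoidAlgebra.single a0 1 *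
      L P a0 ((P.support.filter fun e => e 0 = j).filter (fun e => tl e - a0 ∈ W)) := by
    rw [Psi_coeff, shift, Finset.filter_filter, Finset.filter_filter]
    refine Finset.sum_congr ?_ fun _ _ => rfl
    refine Finset.filter_congr fun e _ => ?_
    exact and_comm
  rw [h1, h2]
  have h3 := hyp j
  rw [part_L, part_L] at h3
  calc _ = (AddMonoidAlgebra.single a0 1 * AddMonoidAlgebra.single a0 1) *
      (L P a0 ((P.support.filter fun e => e 0 = j0).filter (fun e => tl e - a0 ∈ W)) *
        L P a0 (P.support.filter fun e => e 0 = j)) := by ring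
    _ = _ := by rw [h3]; ring

theorem part_all {P : MvPolynomial (Fin (n + 1)) ℤ} (hP : Irreducible P)
    (hdeg : 1 ≤ P.degreeOf 0) {e0 : Fin (n + 1) →₀ ℕ} (he0 : e0 ∈ P.support)
    (W : AddSubgroup (G n))
    (hid : (∑ e ∈ (P.support.filter fun e => e 0 = e0 0).filter (fun e => tl e - tl e0 ∈ W),
        MvPolynomial.monomial (e.erase 0) (P.coeff e)) * P =
      (∑ e ∈ (P.support.filter fun e => e 0 = e0 0),
        MvPolynomial.monomial (e.erase 0) (P.coeff e)) *
      ∑ e ∈ P.support.filter (fun e => tl e - tl e0 ∈ W),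
        MvPolynomial.monomial e (P.coeff e)) :
    ∀ e ∈ P.support, tl e - tl e0 ∈ W := by
  set A : MvPolynomial (Fin (n + 1)) ℤ := ∑ e ∈ (P.support.filter fun e => e 0 = e0 0),
    MvPolynomial.monomial (e.erase 0) (P.coeff e) with hA
  set PW : MvPolynomial (Fin (n + 1)) ℤ := ∑ e ∈ P.support.filter (fun e => tl e - tl e0 ∈ W),
    MvPolynomial.monomial e (P.coeff e) with hPW
  have hP0 : P ≠ 0 := hP.ne_zero
  have hc0 : P.coeff e0 ≠ 0 := MvPolynomial.mem_support_iff.mp he0
  have hAc : A.coeff (e0.erase 0) = P.coeff e0 := by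
    rw [hA, MvPolynomial.coeff_sum]
    simp only [MvPolynomial.coeff_monomial]
    rw [Finset.sum_eq_single e0]
    · rw [if_pos rfl]
    · intro e he hne
      rw [Finset.mem_filter] at he
      rw [if_neg]
      intro h
      refine hne ?_
      ext i
      by_cases hi : i = 0
      · rw [hi]
        exact he.2
      · have h2 := DFunLike.congr_fun h i
        rwa [Finsupp.erase_ne hi, Finsupp.erase_ne hi] at h2
    · intro h
      exact absurd (Finset.mem_filter.mpr ⟨he0, rfl⟩ :
        e0 ∈ P.support.filter (fun e => e 0 = e0 0)) h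
  have hA0 : A ≠ 0 := by
    intro h
    rw [h, MvPolynomial.coeff_zero] at hAc
    exact hc0 hAc.symm
  have hAd : A.degreeOf 0 = 0 := by
    rw [← Nat.le_zero, MvPolynomial.degreeOf_le_iff]
    intro m hm
    rw [MvPolynomial.mem_support_iff] at hm
    by_contra h
    apply hm
    rw [hA, MvPolynomial.coeff_sum]
    refine Finset.sum_eq_zero fun e _ => ?_
    rw [MvPolynomial.coeff_monomial, if_neg]
    rintro rfl
    rw [Finsupp.erase_same] at h
    exact h le_rfl
  have hnd : ¬ P ∣ A := by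
    rintro ⟨B, hB⟩
    have hB0 : B ≠ 0 := by
      rintro rfl
      rw [mul_zero] at hB
      exact hA0 hB
    have h := MvPolynomial.degreeOf_mul_eq (n := 0) hP0 hB0
    rw [← hB, hAd] at h
    omega
  have hdvd : P ∣ PW := by
    have h : P ∣ A * PW := ⟨_, by rw [← hid, mul_comm]⟩
    exact (hP.prime.dvd_or_dvd h).resolve_left hnd
  obtain ⟨K, hK⟩ := hdvd
  have hPWc : ∀ e, PW.coeff e = if e ∈ P.support.filter (fun e => tl e - tl e0 ∈ W) then
      P.coeff e else 0 := by
    intro e
    rw [hPW, MvPolynomial.coeff_sum]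
    simp only [MvPolynomial.coeff_monomial]
    rw [Finset.sum_ite_eq']
  have he0m : e0 ∈ P.support.filter (fun e => tl e - tl e0 ∈ W) := by
    rw [Finset.mem_filter, sub_self]
    exact ⟨he0, W.zero_mem⟩
  have hPW0 : PW ≠ 0 := by
    intro h
    have h1 := hPWc e0
    rw [h, MvPolynomial.coeff_zero, if_pos he0m] at h1
    exact hc0 h1.symm
  have hK0 : K ≠ 0 := by
    rintro rfl
    rw [mul_zero] at hK
    exact hPW0 hK
  have htd : PW.totalDegree ≤ P.totalDegree := by
    apply MvPolynomial.totalDegree_le_of_support_subset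
    intro e he
    rw [MvPolynomial.mem_support_iff, hPWc] at he
    by_contra h
    rw [if_neg] at he
    · exact he rfl
    · rw [Finset.mem_filter]
      exact fun h2 => h h2.1
  have htd2 := MvPolynomial.totalDegree_mul_of_isDomain hP0 hK0
  rw [← hK] at htd2
  have hKd : K.totalDegree = 0 := by omega
  have hKC := MvPolynomial.totalDegree_eq_zero_iff_eq_C.mp hKd
  have hk : K.coeff 0 = 1 := by
    have h1 := hPWc e0
    rw [if_pos he0m, hK, hKC, mul_comm, MvPolynomial.coeff_C_mul, mul_comm] at h1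
    have h2 : P.coeff e0 * (K.coeff 0) = P.coeff e0 * 1 := by rw [mul_one]; exact h1
    exact mul_left_cancel₀ hc0 h2
  have hPP : PW = P := by rw [hK, hKC, hk, map_one, mul_one]
  intro e he
  have h1 := hPWc e
  rw [hPP] at h1
  by_contra h
  rw [if_neg] at h1
  · exact (MvPolynomial.mem_support_iff.mp he) h1
  · rw [Finset.mem_filter]
    exact fun h2 => h h2.2

/-- the real vector of an exponent, with entry `0` equal to zero -/
noncomputable def io : G n →+ (Fin (n + 1) → ℝ) where
  toFun u := Fin.cons 0 (fun i => ((ofLex u i : ℤ) : ℝ))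
  map_zero' := by
    funext i
    refine Fin.cases rfl (fun i => ?_) i
    show (((0 : ℤ)) : ℝ) = 0
    exact Int.cast_zero
  map_add' u v := by
    funext i
    refine Fin.cases ?_ (fun i => ?_) i
    · show (0 : ℝ) = 0 + 0
      rw [add_zero]
    · show (((ofLex u i + ofLex v i : ℤ)) : ℝ) = ((ofLex u i : ℤ) : ℝ) + ((ofLex v i : ℤ) : ℝ)
      exact Int.cast_add _ _

theorem dim_le (P : MvPolynomial (Fin (n + 1)) ℤ) (T : Finset (G n)) (a0 : G n)
    (h : ∀ e ∈ P.support, tl e - a0 ∈ AddSubgroup.closure (T : Set (G n))) :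
    dim P ≤ T.card + 1 := by
  set B : Finset (Fin (n + 1) → ℝ) := insert (Pi.single 0 1) (T.image io) with hB
  set V : Submodule ℝ (Fin (n + 1) → ℝ) := Submodule.span ℝ (B : Set (Fin (n + 1) → ℝ)) with hV
  have hcl : ∀ u ∈ AddSubgroup.closure (T : Set (G n)), io u ∈ V := by
    intro u hu
    have h1 : AddSubgroup.closure (T : Set (G n)) ≤ V.toAddSubgroup.comap io := by
      rw [AddSubgroup.closure_le]
      intro t ht
      refine Submodule.subset_span ?_
      rw [hB, Finset.coe_insert]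
      exact Set.mem_insert_of_mem _ (Finset.mem_coe.mpr (Finset.mem_image_of_mem _ ht))
    exact h1 hu
  have hle : vectorSpan ℝ ((fun e : Fin (n + 1) →₀ ℕ => fun i : Fin (n + 1) => (e i : ℝ)) ''
      (P.support : Set (Fin (n + 1) →₀ ℕ))) ≤ V := by
    rw [vectorSpan_def, Submodule.span_le]
    rintro _ ⟨_, ⟨e, he, rfl⟩, _, ⟨e', he', rfl⟩, rfl⟩
    have h2 : tl e - tl e' ∈ AddSubgroup.closure (T : Set (G n)) := by
      have h3 := AddSubgroup.sub_mem _ (h e he) (h e' he')
      rwa [sub_sub_sub_cancel_right] at h3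
    have h4 : ((fun i : Fin (n + 1) => (e i : ℝ)) -ᵥ (fun i : Fin (n + 1) => (e' i : ℝ)) :
        Fin (n + 1) → ℝ) = ((e 0 : ℝ) - e' 0) • (Pi.single 0 1 : Fin (n + 1) → ℝ) +
          io (tl e - tl e') := by
      funext i
      refine Fin.cases ?_ (fun i => ?_) i
      · simp [io]
      · have h5 : io (tl e - tl e') i.succ =
            (((e i.succ : ℤ) - (e' i.succ : ℤ) : ℤ) : ℝ) := rfl
        rw [Pi.add_apply, h5]
        simp
    change ((fun i : Fin (n + 1) => (e i : ℝ)) -ᵥ (fun i : Fin (n + 1) => (e' i : ℝ)) :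
        Fin (n + 1) → ℝ) ∈ V
    rw [h4]
    refine V.add_mem (V.smul_mem _ (Submodule.subset_span ?_)) (hcl _ h2)
    rw [hB, Finset.coe_insert]
    exact Set.mem_insert _ _
  unfold dim
  refine (Submodule.finrank_mono hle).trans ((finrank_span_finset_le_card B).trans ?_)
  refine (Finset.card_insert_le _ _).trans ?_
  have := Finset.card_image_le (s := T) (f := io)
  omega

/-- the character -/
noncomputable def ch (θ : Fin n → ℝ) (u : G n) : ℂ :=
  Complex.exp (2 * (Real.pi : ℂ) * Complex.I * ((∑ i, ((ofLex u i : ℤ) : ℝ) * θ i : ℝ) : ℂ))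

theorem ch_add (θ : Fin n → ℝ) (u v : G n) : ch θ (u + v) = ch θ u * ch θ v := by
  unfold ch
  rw [← Complex.exp_add]
  congr 1
  have h : (∑ i, ((ofLex (u + v) i : ℤ) : ℝ) * θ i : ℝ) =
      (∑ i, ((ofLex u i : ℤ) : ℝ) * θ i) + ∑ i, ((ofLex v i : ℤ) : ℝ) * θ i := by
    rw [← Finset.sum_add_distrib]
    refine Finset.sum_congr rfl fun i _ => ?_
    have h2 : ((ofLex (u + v) i : ℤ) : ℝ) = ((ofLex u i : ℤ) : ℝ) + ((ofLex v i : ℤ) : ℝ) :=
      Int.cast_add _ _
    rw [h2]
    ring
  rw [h]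
  push_cast
  ring

theorem ch_norm (θ : Fin n → ℝ) (u : G n) : ‖ch θ u‖ = 1 := by
  unfold ch
  have h : (2 * (Real.pi : ℂ) * Complex.I * ((∑ i, ((ofLex u i : ℤ) : ℝ) * θ i : ℝ) : ℂ)) =
      ((2 * Real.pi * (∑ i, ((ofLex u i : ℤ) : ℝ) * θ i : ℝ) : ℝ) : ℂ) * Complex.I := by
    push_cast
    ring
  rw [h]
  exact Complex.norm_exp_ofReal_mul_I _

theorem ev_eq (X : AddMonoidAlgebra ℂ (G n)) (θ : Fin n → ℝ) :
    ev X θ = X.coeff.sum (fun u c => c * ch θ u) := rfl

theorem ev_sum {ι : Type} (s : Finset ι) (f : ι → AddMonoidAlgebra ℂ (G n)) (θ : Fin n → ℝ) :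
    ev (∑ i ∈ s, f i) θ = ∑ i ∈ s, ev (f i) θ := by
  rw [ev_eq, AddMonoidAlgebra.coeff_sum, ← Finsupp.sum_finsetSum_index]
  · rfl
  · intro u
    exact zero_mul _
  · intro u b c
    exact add_mul _ _ _

theorem ev_single (u : G n) (c : ℂ) (θ : Fin n → ℝ) :
    ev (AddMonoidAlgebra.single u c) θ = c * ch θ u := by
  rw [ev_eq, AddMonoidAlgebra.coeff_single, Finsupp.sum_single_index]
  exact zero_mul _

theorem ev_L (P : MvPolynomial (Fin (n + 1)) ℤ) (a0 : G n) (s : Finset (Fin (n + 1) →₀ ℕ))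
    (θ : Fin n → ℝ) :
    ev (cst (L P a0 s)) θ = ∑ e ∈ s, ((P.coeff e : ℤ) : ℂ) * ch θ (tl e - a0) := by
  unfold L cst
  rw [map_sum, ev_sum]
  refine Finset.sum_congr rfl fun e _ => ?_
  rw [AddMonoidAlgebra.mapRingHom_single, ev_single]
  rfl

theorem ch_tl (θ : Fin n → ℝ) (e : Fin (n + 1) →₀ ℕ) :
    ch θ (tl e) = ∏ i : Fin n, Complex.exp (2 * (Real.pi : ℂ) * Complex.I * ((θ i : ℝ) : ℂ)) ^
      (e i.succ) := by
  unfold ch
  simp only [← Complex.exp_nat_mul]
  rw [← Complex.exp_sum]
  congr 1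
  push_cast
  rw [Finset.mul_sum]
  refine Finset.sum_congr rfl fun i _ => ?_
  have h : ((ofLex (tl e) i : ℤ) : ℂ) = ((e i.succ : ℕ) : ℂ) := by
    have h2 : ofLex (tl e) i = ((e i.succ : ℕ) : ℤ) := rfl
    rw [h2]
    push_cast
    rfl
  rw [h]
  ring

theorem val_eq (P : MvPolynomial (Fin (n + 1)) ℤ) (θ : Fin n → ℝ) (y : ℝ) :
    val P (Fin.cons y θ) = ∑ e ∈ P.support, ((P.coeff e : ℤ) : ℂ) *
      (Complex.exp (2 * (Real.pi : ℂ) * Complex.I * (y : ℂ)) ^ (e 0) * ch θ (tl e)) := by
  unfold val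
  rw [MvPolynomial.eval₂_eq']
  refine Finset.sum_congr rfl fun e _ => ?_
  rw [Fin.prod_univ_succ, ch_tl]
  rfl

end ndb_

open ndb_ Classical in
/-- NDB -/
theorem ndb : S_NDB := by
  intro n P hP hdeg
  have hP0 : P ≠ 0 := hP.ne_zero
  obtain ⟨e0, he0, hmin⟩ := Finset.exists_min_image P.support tl
    (MvPolynomial.support_nonempty.mpr hP0)
  have hdeg_le : ∀ e ∈ P.support, e 0 ≤ P.degreeOf 0 :=
    fun e he => (MvPolynomial.degreeOf_le_iff.mp le_rfl) e he
  set S : ℕ → Finset (Fin (n + 1) →₀ ℕ) := fun j => P.support.filter fun e => e 0 = j with hS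
  refine ⟨fun j => L P (tl e0) (S j), ⟨e0 0, Nat.lt_succ_of_le (hdeg_le e0 he0)⟩,
    ⟨?_, ?_, ?_⟩, ?_⟩
  · intro j u hu
    rw [Finsupp.mem_support_iff, L_coeff] at hu
    obtain ⟨e, he, hne⟩ := Finset.exists_ne_zero_of_sum_ne_zero hu
    rw [hS, Finset.mem_filter] at he
    have h1 : tl e - tl e0 = u := by
      by_contra h
      rw [if_neg h] at hne
      exact hne rfl
    rw [← h1, sub_nonneg]
    exact hmin e he.1
  · show (L P (tl e0) (S (e0 0))).coeff 0 ≠ 0
    rw [L_coeff, Finset.sum_eq_single e0]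
    · rw [sub_self, if_pos rfl]
      exact MvPolynomial.mem_support_iff.mp he0
    · intro e he hne
      rw [hS, Finset.mem_filter] at he
      rw [if_neg]
      intro h
      exact hne (tl_inj (sub_eq_zero.mp h) he.2)
    · intro h
      exact absurd (Finset.mem_filter.mpr ⟨he0, rfl⟩ : e0 ∈ S (e0 0)) h
  · intro T hT
    by_contra hcon
    push Not at hcon
    have hyp : ∀ j : ℕ, part (AddSubgroup.closure (T : Set (G n))) (L P (tl e0) (S (e0 0))) *
        L P (tl e0) (S j) =
        part (AddSubgroup.closure (T : Set (G n))) (L P (tl e0) (S j)) *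
          L P (tl e0) (S (e0 0)) := by
      intro j
      by_cases hj : j < P.degreeOf 0 + 1
      · exact hcon ⟨j, hj⟩
      · have hSj : S j = ∅ := by
          rw [hS]
          refine Finset.filter_eq_empty_iff.mpr fun e he h => ?_
          have := hdeg_le e he
          omega
        have hL : L P (tl e0) (S j) = 0 := by
          rw [hSj]
          rfl
        rw [part_L, part_L, hL, hSj, mul_zero, Finset.filter_empty]
        have hL2 : L P (tl e0) ∅ = 0 := rfl
        rw [hL2, zero_mul]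
    have hall := part_all hP hdeg he0 _ (ident P (tl e0) (e0 0) _ hyp)
    have h1 := dim_le P T (tl e0) hall
    omega
  · intro θ
    refine ⟨∑ j : Fin (P.degreeOf 0 + 1), Polynomial.monomial (j : ℕ)
      (ev (cst (L P (tl e0) (S j))) θ), ?_, ?_, ?_⟩
    · refine Polynomial.natDegree_sum_le_of_forall_le _ _ fun j _ => ?_
      exact (Polynomial.natDegree_monomial_le _).trans (Nat.lt_succ_iff.mp j.2)
    · intro y
      set z : ℂ := Complex.exp (2 * (Real.pi : ℂ) * Complex.I * (y : ℂ)) with hz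
      have h1 : val P (Fin.cons y θ) = ch θ (tl e0) *
          (∑ j : Fin (P.degreeOf 0 + 1), Polynomial.monomial (j : ℕ)
            (ev (cst (L P (tl e0) (S j))) θ)).eval z := by
        rw [Polynomial.eval_finsetSum]
        simp only [Polynomial.eval_monomial]
        rw [Finset.sum_range (n := P.degreeOf 0 + 1)
          (f := fun j => ev (cst (L P (tl e0) (S j))) θ * z ^ j) |>.symm, Finset.mul_sum, val_eq,
          ← Finset.sum_fiberwise_of_maps_to (s := P.support)
            (t := Finset.range (P.degreeOf 0 + 1)) (g := fun e => e 0)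
            (fun e he => Finset.mem_range.mpr (Nat.lt_succ_of_le (hdeg_le e he)))]
        refine Finset.sum_congr rfl fun j _ => ?_
        rw [ev_L, Finset.sum_mul, Finset.mul_sum]
        refine Finset.sum_congr rfl fun e he => ?_
        rw [Finset.mem_filter] at he
        have h2 : ch θ (tl e) = ch θ (tl e0) * ch θ (tl e - tl e0) := by
          rw [← ch_add, add_sub_cancel]
        rw [h2, he.2]
        ring
      rw [h1, norm_mul, ch_norm, one_mul]
    · intro j
      congr 1
      rw [Polynomial.finsetSum_coeff, Finset.sum_eq_single j]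
      · rw [Polynomial.coeff_monomial, if_pos rfl]
      · intro i _ hij
        rw [Polynomial.coeff_monomial, if_neg]
        exact fun h => hij (Fin.ext h)
      · intro h
        exact absurd (Finset.mem_univ j) h

end Pool.Agent.H589.Boyd
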