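import Pool.Agent.H589.Boyd.Spec2

/-!
# NDC: the pair `P, x_0 ∂P/∂x_0`
-/

set_option autoImplicit false

open MeasureTheory

namespace Pool.Agent.H589.Boyd

namespace ndc_

open MvPolynomial

variable {n : ℕ}

/-- exponents of polynomials as exponents of Laurent polynomials -/
def em : (Fin n →₀ ℕ) →+ G n where
  toFun e := toLex (fun i => (e i : ℤ))
  map_zero' := by
    apply ofLex.injective
    funext i
    show (((0 : Fin n →₀ ℕ) i : ℕ) : ℤ) = 0
    simp
  map_add' e f := by
    apply ofLex.injective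
    funext i
    show (((e + f : Fin n →₀ ℕ) i : ℕ) : ℤ) = (e i : ℤ) + (f i : ℤ)
    simp

lemma em_apply (e : Fin n →₀ ℕ) (i : Fin n) : ofLex (em e) i = (e i : ℤ) := rfl

lemma em_inj : Function.Injective (em (n := n)) := by
  intro e f h
  ext i
  have h1 : ofLex (em e) i = ofLex (em f) i := by rw [h]
  rw [em_apply, em_apply] at h1
  exact_mod_cast h1

/-- inclusion of the polynomials in the Laurent polynomials -/
noncomputable def tr : MvPolynomial (Fin n) ℤ →+* AddMonoidAlgebra ℤ (G n) :=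
  AddMonoidAlgebra.mapDomainRingHom ℤ em

lemma tr_inj : Function.Injective (tr (n := n)) :=
  AddMonoidAlgebra.mapDomain_injective em_inj

lemma coeff_tr (X : MvPolynomial (Fin n) ℤ) (e : Fin n →₀ ℕ) :
    (tr X).coeff (em e) = MvPolynomial.coeff e X :=
  Finsupp.mapDomain_apply em_inj _ _

lemma coeff_tr_not (X : MvPolynomial (Fin n) ℤ) (u : G n) (h : ∀ e, em e ≠ u) :
    (tr X).coeff u = 0 := by
  refine Finsupp.mapDomain_of_notMem_range _ _ ?_
  rintro ⟨e, he⟩
  exact h e he

/-- shifted inclusion -/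
noncomputable def sh (a : G n) (X : MvPolynomial (Fin n) ℤ) : AddMonoidAlgebra ℤ (G n) :=
  AddMonoidAlgebra.single (-a) 1 * tr X

lemma coeff_sh (a : G n) (X : MvPolynomial (Fin n) ℤ) (u : G n) :
    (sh a X).coeff u = (tr X).coeff (u + a) := by
  unfold sh
  have h := AddMonoidAlgebra.coeff_single_mul_add (tr X) (1 : ℤ) (-a) (u + a)
  rw [one_mul, show -a + (u + a) = u by abel] at h
  exact h

lemma mem_sh {a : G n} {X : MvPolynomial (Fin n) ℤ} {u : G n}
    (h : (sh a X).coeff u ≠ 0) : ∃ e ∈ X.support, em e = u + a := by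
  rw [coeff_sh] at h
  by_cases h1 : ∃ e, em e = u + a
  · obtain ⟨e, he⟩ := h1
    refine ⟨e, ?_, he⟩
    rw [← he, coeff_tr] at h
    exact MvPolynomial.mem_support_iff.2 h
  · push Not at h1
    exact absurd (coeff_tr_not X _ h1) h

lemma coeff_part {Γ : Type} [AddCommGroup Γ] (W : AddSubgroup Γ) (A : AddMonoidAlgebra ℤ Γ)
    (u : Γ) [Decidable (u ∈ W)] : (part W A).coeff u = if u ∈ W then A.coeff u else 0 := by
  classical
  unfold part
  rw [AddMonoidAlgebra.coeff_sum, Finsupp.finsetSum_apply]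
  simp only [AddMonoidAlgebra.coeff_single, Finsupp.single_apply]
  rw [Finset.sum_ite_eq']
  by_cases hu : u ∈ W
  · by_cases h2 : u ∈ A.coeff.support
    · rw [if_pos (Finset.mem_filter.2 ⟨h2, hu⟩), if_pos hu]
    · rw [if_neg (fun h => h2 (Finset.mem_filter.1 h).1), if_pos hu,
        Finsupp.notMem_support_iff.1 h2]
  · rw [if_neg (fun h => hu (Finset.mem_filter.1 h).2), if_neg hu]

open Classical in
/-- the part of a polynomial with exponents in `a + W` -/
noncomputable def pt (W : AddSubgroup (G n)) (a : G n) (X : MvPolynomial (Fin n) ℤ) :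
    MvPolynomial (Fin n) ℤ :=
  ∑ e ∈ X.support.filter (fun e => em e - a ∈ W), monomial e (MvPolynomial.coeff e X)

lemma coeff_pt (W : AddSubgroup (G n)) (a : G n) (X : MvPolynomial (Fin n) ℤ)
    (e : Fin n →₀ ℕ) [Decidable (em e - a ∈ W)] :
    MvPolynomial.coeff e (pt W a X) = if em e - a ∈ W then MvPolynomial.coeff e X else 0 := by
  classical
  unfold pt
  rw [MvPolynomial.coeff_sum]
  simp only [MvPolynomial.coeff_monomial]
  rw [Finset.sum_ite_eq']
  by_cases hu : em e - a ∈ W
  · by_cases h2 : e ∈ X.support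
    · rw [if_pos (Finset.mem_filter.2 ⟨h2, hu⟩), if_pos hu]
    · rw [if_neg (fun h => h2 (Finset.mem_filter.1 h).1), if_pos hu,
        MvPolynomial.notMem_support_iff.1 h2]
  · rw [if_neg hu]
    refine if_neg ?_
    intro h
    exact hu (Finset.mem_filter.1 h).2

lemma part_sh (W : AddSubgroup (G n)) (a : G n) (X : MvPolynomial (Fin n) ℤ) :
    part W (sh a X) = sh a (pt W a X) := by
  classical
  refine AddMonoidAlgebra.ext ?_
  ext u
  rw [coeff_part, coeff_sh, coeff_sh]
  by_cases h1 : ∃ e, em e = u + a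
  · obtain ⟨e, he⟩ := h1
    rw [← he, coeff_tr, coeff_tr, coeff_pt]
    have h2 : em e - a = u := by rw [he]; abel
    rw [h2]
  · push Not at h1
    rw [coeff_tr_not X _ h1, coeff_tr_not _ _ h1]
    split <;> rfl

lemma sh_mul_inj {a : G n} {X Y Z V : MvPolynomial (Fin n) ℤ}
    (h : sh a X * sh a Y = sh a Z * sh a V) : X * Y = Z * V := by
  unfold sh at h
  apply tr_inj
  rw [map_mul, map_mul]
  have h1 : AddMonoidAlgebra.single a (1 : ℤ) * AddMonoidAlgebra.single (-a) 1 =
      (1 : AddMonoidAlgebra ℤ (G n)) := by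
    rw [AddMonoidAlgebra.single_mul_single, add_neg_cancel, one_mul]
    rfl
  calc tr X * tr Y
      = (AddMonoidAlgebra.single a (1 : ℤ) * AddMonoidAlgebra.single (-a) 1) *
        (AddMonoidAlgebra.single a (1 : ℤ) * AddMonoidAlgebra.single (-a) 1) * (tr X * tr Y) := by
        rw [h1, one_mul, one_mul]
    _ = AddMonoidAlgebra.single a (1 : ℤ) * AddMonoidAlgebra.single a (1 : ℤ) *
        (AddMonoidAlgebra.single (-a) 1 * tr X * (AddMonoidAlgebra.single (-a) 1 * tr Y)) := by
        ring
    _ = AddMonoidAlgebra.single a (1 : ℤ) * AddMonoidAlgebra.single a (1 : ℤ) *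
        (AddMonoidAlgebra.single (-a) 1 * tr Z * (AddMonoidAlgebra.single (-a) 1 * tr V)) := by
        rw [h]
    _ = (AddMonoidAlgebra.single a (1 : ℤ) * AddMonoidAlgebra.single (-a) 1) *
        (AddMonoidAlgebra.single a (1 : ℤ) * AddMonoidAlgebra.single (-a) 1) * (tr Z * tr V) := by
        ring
    _ = tr Z * tr V := by rw [h1, one_mul, one_mul]

lemma coeff_euler (P : MvPolynomial (Fin (n + 1)) ℤ) (e : Fin (n + 1) →₀ ℕ) :
    MvPolynomial.coeff e (euler P) = (e 0 : ℤ) * MvPolynomial.coeff e P := by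
  classical
  unfold euler
  induction P using MvPolynomial.induction_on' with
  | monomial m r =>
    rw [MvPolynomial.X_mul_pderiv_monomial, MvPolynomial.coeff_smul,
      MvPolynomial.coeff_monomial]
    split
    · next h =>
      subst h
      simp
    · simp
  | add p q hp hq =>
    rw [map_add, mul_add, MvPolynomial.coeff_add, hp, hq, MvPolynomial.coeff_add]
    ring

lemma dvd_const {P R : MvPolynomial (Fin n) ℤ} (hR : R ≠ 0)
    (hs : R.support ⊆ P.support) (h : P ∣ R) : ∃ c : ℤ, c ≠ 0 ∧ R = C c * P := by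
  obtain ⟨k, hk⟩ := h
  have hP : P ≠ 0 := by
    rintro rfl
    apply hR
    rw [hk, zero_mul]
  have hk0 : k ≠ 0 := by
    rintro rfl
    apply hR
    rw [hk, mul_zero]
  have hd : ∀ i, MvPolynomial.degreeOf i k = 0 := by
    intro i
    have h1 := MvPolynomial.degreeOf_mul_eq (n := i) hP hk0
    rw [← hk] at h1
    have h2 : MvPolynomial.degreeOf i R ≤ MvPolynomial.degreeOf i P := by
      rw [MvPolynomial.degreeOf_eq_sup, MvPolynomial.degreeOf_eq_sup]
      exact Finset.sup_mono hs
    omega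
  have hk1 : k = C (MvPolynomial.coeff 0 k) := by
    classical
    ext e
    rw [MvPolynomial.coeff_C]
    split
    · next h => rw [← h]
    · next h =>
      by_contra h3
      apply h
      ext i
      have h4 := MvPolynomial.monomial_le_degreeOf i (MvPolynomial.mem_support_iff.2 h3)
      rw [hd i] at h4
      simp only [Finsupp.coe_zero, Pi.zero_apply]
      omega
  refine ⟨MvPolynomial.coeff 0 k, ?_, ?_⟩
  · intro h0
    rw [h0, map_zero] at hk1
    exact hk0 hk1
  · rw [← hk1, hk, mul_comm]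

/-- real coordinates -/
noncomputable def rl : G n →+ (Fin n → ℝ) where
  toFun u := fun i => ((ofLex u i : ℤ) : ℝ)
  map_zero' := by
    funext i
    show (((0 : ℤ)) : ℝ) = 0
    simp
  map_add' u v := by
    funext i
    show (((ofLex u i + ofLex v i : ℤ)) : ℝ) = ((ofLex u i : ℤ) : ℝ) + ((ofLex v i : ℤ) : ℝ)
    push_cast
    ring

lemma dim_le (P : MvPolynomial (Fin n) ℤ) (a : G n) (T : Finset (G n))
    (h : ∀ e ∈ P.support, em e - a ∈ AddSubgroup.closure (T : Set (G n))) :
    dim P ≤ T.card := by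
  classical
  have h1 : ∀ u ∈ AddSubgroup.closure (T : Set (G n)),
      rl u ∈ Submodule.span ℝ ((T.image (fun u => rl u) : Finset (Fin n → ℝ)) :
        Set (Fin n → ℝ)) := by
    intro u hu
    have h2 : AddSubgroup.closure (T : Set (G n)) ≤
        (Submodule.span ℝ ((T.image (fun u => rl u) : Finset (Fin n → ℝ)) :
          Set (Fin n → ℝ))).toAddSubgroup.comap rl := by
      rw [AddSubgroup.closure_le]
      intro v hv
      show rl v ∈ Submodule.span ℝ _
      refine Submodule.subset_span ?_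
      exact Finset.mem_coe.2 (Finset.mem_image_of_mem _ hv)
    exact h2 hu
  have h3 : vectorSpan ℝ ((fun e : Fin n →₀ ℕ => fun i : Fin n => (e i : ℝ)) ''
      (P.support : Set (Fin n →₀ ℕ))) ≤
      Submodule.span ℝ ((T.image (fun u => rl u) : Finset (Fin n → ℝ)) :
        Set (Fin n → ℝ)) := by
    rw [vectorSpan_def, Submodule.span_le]
    intro x hx
    obtain ⟨y, ⟨e, he, rfl⟩, z, ⟨f, hf, rfl⟩, rfl⟩ := Set.mem_vsub.1 hx
    have h4 : ((fun i : Fin n => (e i : ℝ)) -ᵥ (fun i : Fin n => (f i : ℝ)) : Fin n → ℝ) =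
        rl (em e - a) - rl (em f - a) := by
      rw [← map_sub]
      funext i
      show (e i : ℝ) - (f i : ℝ) = ((ofLex (em e - a - (em f - a)) i : ℤ) : ℝ)
      have h5 : ofLex (em e - a - (em f - a)) i = (e i : ℤ) - (f i : ℤ) := by
        have h6 : em e - a - (em f - a) = em e - em f := by abel
        rw [h6]
        rfl
      rw [h5]
      push_cast
      ring
    show ((fun i : Fin n => (e i : ℝ)) -ᵥ (fun i : Fin n => (f i : ℝ)) : Fin n → ℝ) ∈ _
    rw [h4]
    exact Submodule.sub_mem _ (h1 _ (h e he)) (h1 _ (h f hf))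
  unfold dim
  refine (Submodule.finrank_mono h3).trans ?_
  refine (finrank_span_finset_le_card _).trans ?_
  exact Finset.card_image_le

lemma dim_zero (P : MvPolynomial (Fin n) ℤ) (s : Fin n →₀ ℕ) (h : P.support ⊆ {s}) :
    dim P = 0 := by
  unfold dim
  rw [vectorSpan_of_subsingleton]
  · exact finrank_bot ℝ _
  · refine Set.Subsingleton.image ?_ _
    intro x hx y hy
    have h1 := Finset.mem_singleton.1 (h hx)
    have h2 := Finset.mem_singleton.1 (h hy)
    rw [h1, h2]

lemma key (P : MvPolynomial (Fin (n + 1)) ℤ) (hirr : Irreducible P) (h0 : 1 ≤ P.degreeOf 0)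
    (e0 : Fin (n + 1) →₀ ℕ) (he0 : e0 ∈ P.support) (T : Finset (G (n + 1)))
    (hT : T.card < dim P) :
    pt (AddSubgroup.closure (T : Set (G (n + 1)))) (em e0) P * euler P ≠
      pt (AddSubgroup.closure (T : Set (G (n + 1)))) (em e0) (euler P) * P := by
  classical
  intro h
  set W := AddSubgroup.closure (T : Set (G (n + 1))) with hW
  have hP : P ≠ 0 := hirr.ne_zero
  have hdvd : P ∣ pt W (em e0) P * euler P := ⟨pt W (em e0) (euler P), by rw [h, mul_comm]⟩
  rcases hirr.prime.dvd_or_dvd hdvd with h1 | h1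
  · have hR : pt W (em e0) P ≠ 0 := by
      intro h2
      have h3 := coeff_pt W (em e0) P e0
      rw [h2, if_pos (by rw [sub_self]; exact W.zero_mem), MvPolynomial.coeff_zero] at h3
      exact (MvPolynomial.mem_support_iff.1 he0) h3.symm
    have hs : (pt W (em e0) P).support ⊆ P.support := by
      intro e he
      rw [MvPolynomial.mem_support_iff] at he ⊢
      intro h2
      apply he
      rw [coeff_pt, h2]
      split <;> rfl
    obtain ⟨c, hc, hk⟩ := dvd_const hR hs h1
    have h2 : ∀ e ∈ P.support, em e - em e0 ∈ W := by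
      intro e he
      by_contra h3
      have h4 := coeff_pt W (em e0) P e
      rw [if_neg h3, hk, MvPolynomial.coeff_C_mul] at h4
      rcases mul_eq_zero.1 h4 with h5 | h5
      · exact hc h5
      · exact (MvPolynomial.mem_support_iff.1 he) h5
    have h3 := dim_le P (em e0) T h2
    omega
  · have hE : euler P ≠ 0 := by
      intro h2
      have h3 : MvPolynomial.degreeOf 0 P ≤ 0 := by
        rw [MvPolynomial.degreeOf_le_iff]
        intro e he
        have h4 := coeff_euler P e
        rw [h2, MvPolynomial.coeff_zero] at h4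
        rcases mul_eq_zero.1 h4.symm with h5 | h5
        · have : e 0 = 0 := by exact_mod_cast h5
          omega
        · exact absurd h5 (MvPolynomial.mem_support_iff.1 he)
      omega
    have hs : (euler P).support ⊆ P.support := by
      intro e he
      rw [MvPolynomial.mem_support_iff] at he ⊢
      intro h2
      apply he
      rw [coeff_euler, h2, mul_zero]
    obtain ⟨c, hc, hk⟩ := dvd_const hE hs h1
    have h2 : ∀ e ∈ P.support, 1 ≤ e 0 := by
      intro e he
      have h3 := coeff_euler P e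
      rw [hk, MvPolynomial.coeff_C_mul] at h3
      have h4 := mul_right_cancel₀ (MvPolynomial.mem_support_iff.1 he) h3
      by_contra h5
      have h6 : e 0 = 0 := by omega
      rw [h6] at h4
      exact hc (by exact_mod_cast h4)
    have h3 : (X 0 : MvPolynomial (Fin (n + 1)) ℤ) ∣ P := by
      rw [MvPolynomial.X_dvd_iff_modMonomial_eq_zero]
      ext e
      rw [MvPolynomial.coeff_zero]
      by_cases h4 : Finsupp.single 0 1 ≤ e
      · exact MvPolynomial.coeff_modMonomial_of_le _ h4
      · rw [MvPolynomial.coeff_modMonomial_of_not_le _ h4]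
        by_contra h5
        apply h4
        rw [Finsupp.single_le_iff]
        exact h2 e (MvPolynomial.mem_support_iff.2 h5)
    obtain ⟨R, hR⟩ := h3
    have h4 : IsUnit R := by
      rcases hirr.isUnit_or_isUnit hR with h5 | h5
      · rw [MvPolynomial.isUnit_iff_totalDegree_of_isReduced] at h5
        have h6 := h5.2
        rw [MvPolynomial.totalDegree_X] at h6
        exact absurd h6 one_ne_zero
      · exact h5
    rw [MvPolynomial.isUnit_iff_eq_C_of_isReduced] at h4
    obtain ⟨r, -, hr⟩ := h4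
    have h5 : P.support ⊆ {Finsupp.single 0 1} := by
      intro e he
      rw [Finset.mem_singleton]
      by_contra h6
      apply MvPolynomial.mem_support_iff.1 he
      rw [hR, hr, mul_comm, MvPolynomial.coeff_C_mul, MvPolynomial.coeff_X,
        if_neg (fun h => h6 h.symm), mul_zero]
    have h6 := dim_zero P _ h5
    omega

/-- the characters -/
noncomputable def ch {n : ℕ} (u : G n) (θ : Fin n → ℝ) : ℂ :=
  Complex.exp (2 * (Real.pi : ℂ) * Complex.I * ((∑ i, ((ofLex u i : ℤ) : ℝ) * θ i : ℝ) : ℂ))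

lemma ch_zero {n : ℕ} (θ : Fin n → ℝ) : ch (0 : G n) θ = 1 := by
  unfold ch
  have h : (∑ i, ((ofLex (0 : G n) i : ℤ) : ℝ) * θ i) = 0 := by
    refine Finset.sum_eq_zero fun i _ => ?_
    have h1 : ofLex (0 : G n) i = 0 := rfl
    rw [h1, Int.cast_zero, zero_mul]
  rw [h, Complex.ofReal_zero, mul_zero, Complex.exp_zero]

lemma ch_add {n : ℕ} (u v : G n) (θ : Fin n → ℝ) : ch (u + v) θ = ch u θ * ch v θ := by
  unfold ch
  rw [← Complex.exp_add]
  congr 1
  have h : (∑ i, ((ofLex (u + v) i : ℤ) : ℝ) * θ i) =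
      (∑ i, ((ofLex u i : ℤ) : ℝ) * θ i) + ∑ i, ((ofLex v i : ℤ) : ℝ) * θ i := by
    rw [← Finset.sum_add_distrib]
    refine Finset.sum_congr rfl fun i _ => ?_
    have h1 : ofLex (u + v) i = ofLex u i + ofLex v i := rfl
    rw [h1]
    push_cast
    ring
  rw [h]
  push_cast
  ring

lemma ch_norm {n : ℕ} (u : G n) (θ : Fin n → ℝ) : ‖ch u θ‖ = 1 := by
  unfold ch
  have h : 2 * (Real.pi : ℂ) * Complex.I * ((∑ i, ((ofLex u i : ℤ) : ℝ) * θ i : ℝ) : ℂ) =
      ((2 * Real.pi * (∑ i, ((ofLex u i : ℤ) : ℝ) * θ i) : ℝ) : ℂ) * Complex.I := by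
    push_cast
    ring
  rw [h, Complex.norm_exp_ofReal_mul_I]

/-- the character as a monoid homomorphism -/
noncomputable def chM {n : ℕ} (θ : Fin n → ℝ) : Multiplicative (G n) →* ℂ where
  toFun u := ch u.toAdd θ
  map_one' := ch_zero θ
  map_mul' u v := ch_add u.toAdd v.toAdd θ

lemma ev_lift {n : ℕ} (X : AddMonoidAlgebra ℂ (G n)) (θ : Fin n → ℝ) :
    ev X θ = AddMonoidAlgebra.lift ℂ ℂ (G n) (chM θ) X := by
  rw [AddMonoidAlgebra.lift_apply]
  rfl

lemma ev_single {n : ℕ} (u : G n) (c : ℂ) (θ : Fin n → ℝ) :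
    ev (AddMonoidAlgebra.single u c) θ = c * ch u θ := by
  rw [ev_lift, AddMonoidAlgebra.lift_single]
  rfl

lemma ch_em_single {n : ℕ} (i : Fin n) (θ : Fin n → ℝ) : ch (em (Finsupp.single i 1)) θ =
    Complex.exp (2 * (Real.pi : ℂ) * Complex.I * ((θ i : ℝ) : ℂ)) := by
  classical
  unfold ch
  congr 3
  rw [Finset.sum_eq_single i]
  · rw [em_apply, Finsupp.single_eq_same]
    simp
  · intro j _ hj
    rw [em_apply, Finsupp.single_eq_of_ne hj]
    simp
  · intro h
    exact absurd (Finset.mem_univ i) h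

lemma ev_tr {n : ℕ} (X : MvPolynomial (Fin n) ℤ) (θ : Fin n → ℝ) :
    ev (cst (tr X)) θ = val X θ := by
  have h : (((AddMonoidAlgebra.lift ℂ ℂ (G n) (chM θ)).toRingHom.comp
      (cst (Γ := G n))).comp tr : MvPolynomial (Fin n) ℤ →+* ℂ) =
      MvPolynomial.eval₂Hom (Int.castRingHom ℂ)
        (fun i : Fin n => Complex.exp (2 * (Real.pi : ℂ) * Complex.I * ((θ i : ℝ) : ℂ))) := by
    refine MvPolynomial.ringHom_ext' (RingHom.ext_int _ _) (fun i => ?_)
    · rw [MvPolynomial.coe_eval₂Hom, MvPolynomial.eval₂_X, ← ch_em_single]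
      have h1 : tr (MvPolynomial.X i : MvPolynomial (Fin n) ℤ) =
          AddMonoidAlgebra.single (em (Finsupp.single i 1)) 1 :=
        AddMonoidAlgebra.mapDomain_single
      have h2 : cst (AddMonoidAlgebra.single (em (Finsupp.single i 1)) (1 : ℤ)) =
          AddMonoidAlgebra.single (em (Finsupp.single i 1)) (1 : ℂ) := by
        unfold cst
        rw [AddMonoidAlgebra.mapRingHom_single]
        simp
      rw [RingHom.comp_apply, RingHom.comp_apply, h1, h2]
      have h3 := ev_single (em (Finsupp.single i 1)) (1 : ℂ) θ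
      rw [ev_lift, one_mul] at h3
      exact h3
  have h4 := congrArg (fun f => f X) h
  rw [ev_lift]
  exact h4

lemma norm_ev_sh {n : ℕ} (a : G n) (X : MvPolynomial (Fin n) ℤ) (θ : Fin n → ℝ) :
    ‖ev (cst (sh a X)) θ‖ = ‖val X θ‖ := by
  unfold sh
  rw [map_mul, ev_lift, map_mul, ← ev_lift, ← ev_lift, ev_tr, norm_mul]
  have h2 : cst (AddMonoidAlgebra.single (-a) (1 : ℤ)) =
      AddMonoidAlgebra.single (-a) (1 : ℂ) := by
    unfold cst
    rw [AddMonoidAlgebra.mapRingHom_single]
    simp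
  rw [h2, ev_single, one_mul, ch_norm, one_mul]

end ndc_

open ndc_ in
theorem ndc : S_NDC := by
  intro n P hirr h0
  have hP : P ≠ 0 := hirr.ne_zero
  have hne : P.support.Nonempty := by
    rw [Finset.nonempty_iff_ne_empty]
    intro h
    exact hP (MvPolynomial.support_eq_empty.1 h)
  obtain ⟨e0, he0, hmin⟩ := Finset.exists_min_image P.support (fun e => em e) hne
  have hsub : ∀ e ∈ (euler P).support, e ∈ P.support := by
    intro e he
    rw [MvPolynomial.mem_support_iff] at he ⊢
    intro h2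
    apply he
    rw [coeff_euler, h2, mul_zero]
  refine ⟨![sh (em e0) P, sh (em e0) (euler P)], 0, ⟨?_, ?_, ?_⟩, ?_⟩
  · intro j u hu
    rw [Finsupp.mem_support_iff] at hu
    have h1 : ∃ e ∈ P.support, em e = u + em e0 := by
      fin_cases j
      · exact mem_sh hu
      · obtain ⟨e, he, h⟩ := mem_sh (X := euler P) hu
        exact ⟨e, hsub e he, h⟩
    obtain ⟨e, he, h2⟩ := h1
    have h3 := hmin e he
    rw [h2] at h3
    exact le_add_iff_nonneg_left _ |>.1 h3
  · show (sh (em e0) P).coeff 0 ≠ 0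
    rw [coeff_sh, zero_add, coeff_tr]
    exact MvPolynomial.mem_support_iff.1 he0
  · intro T hT
    refine ⟨1, ?_⟩
    show part _ (sh (em e0) P) * sh (em e0) (euler P) ≠
      part _ (sh (em e0) (euler P)) * sh (em e0) P
    rw [part_sh, part_sh]
    intro h
    exact key P hirr h0 e0 he0 T hT (sh_mul_inj h)
  · intro θ
    rw [Fin.sum_univ_two]
    show ‖ev (cst (sh (em e0) P)) θ‖ ^ 2 + ‖ev (cst (sh (em e0) (euler P))) θ‖ ^ 2 = _
    rw [norm_ev_sh, norm_ev_sh]

end Pool.Agent.H589.Boyd
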