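import Pool.Agent.H589.Boyd.Spec2

/-! Exchanging two variables. -/

set_option autoImplicit false

open MeasureTheory

namespace Pool.Agent.H589.Boyd

namespace swap_

variable {n : ℕ}

theorem dim_rename (P : MvPolynomial (Fin n) ℤ) (σ : Equiv.Perm (Fin n)) :
    dim (MvPolynomial.rename σ P) = dim P := by
  classical
  let T : (Fin n → ℝ) ≃ₗ[ℝ] (Fin n → ℝ) := LinearEquiv.funCongrLeft ℝ ℝ σ.symm
  have hT : ∀ x j, T x j = x (σ.symm j) := fun x j => rfl
  have h1 : ((fun e : Fin n →₀ ℕ => fun i : Fin n => (e i : ℝ)) ''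
      ((MvPolynomial.rename σ P).support : Set (Fin n →₀ ℕ))) =
      T.toLinearMap.toAffineMap '' ((fun e : Fin n →₀ ℕ => fun i : Fin n => (e i : ℝ)) ''
        (P.support : Set (Fin n →₀ ℕ))) := by
    rw [MvPolynomial.support_rename_of_injective σ.injective, Finset.coe_image, Set.image_image,
      Set.image_image]
    refine Set.image_congr fun e _ => ?_
    funext j
    have h2 : (Finsupp.mapDomain σ e) j = e (σ.symm j) := by
      have h3 := Finsupp.mapDomain_apply σ.injective e (σ.symm j)
      rwa [Equiv.apply_symm_apply] at h3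
    change ((Finsupp.mapDomain σ e j : ℕ) : ℝ) = _
    rw [h2]
    rfl
  unfold dim
  rw [h1, ← AffineMap.map_vectorSpan]
  exact LinearEquiv.finrank_map_eq T _

theorem val_rename (P : MvPolynomial (Fin n) ℤ) (σ : Equiv.Perm (Fin n)) (θ : Fin n → ℝ) :
    val (MvPolynomial.rename σ P) θ = val P (fun j => θ (σ j)) := by
  unfold val
  rw [MvPolynomial.eval₂_rename]
  rfl

theorem int_rename (P : MvPolynomial (Fin n) ℤ) (σ : Equiv.Perm (Fin n)) :
    ∫ θ in cube n, Real.log ‖val (MvPolynomial.rename σ P) θ‖ =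
      ∫ θ in cube n, Real.log ‖val P θ‖ := by
  let f : (Fin n → ℝ) ≃ᵐ (Fin n → ℝ) := MeasurableEquiv.piCongrLeft (fun _ : Fin n => ℝ) σ.symm
  have hf : ∀ θ, f θ = fun j => θ (σ j) := by
    intro θ
    funext j
    have h1 := Equiv.piCongrLeft_apply_apply (fun _ : Fin n => ℝ) σ.symm θ (σ j)
    rw [Equiv.symm_apply_apply] at h1
    exact h1
  have hm : MeasurePreserving f := volume_measurePreserving_piCongrLeft (fun _ : Fin n => ℝ) σ.symm
  have h1 := hm.setIntegral_preimage_emb f.measurableEmbedding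
    (fun θ => Real.log ‖val P θ‖) (cube n)
  have h2 : f ⁻¹' (cube n) = cube n := by
    ext θ
    simp only [Set.mem_preimage, Set.mem_Icc, Pi.le_def, hf, Pi.zero_apply, Pi.one_apply]
    constructor
    · rintro ⟨h3, h4⟩
      refine ⟨fun j => ?_, fun j => ?_⟩
      · have := h3 (σ.symm j)
        rwa [Equiv.apply_symm_apply] at this
      · have := h4 (σ.symm j)
        rwa [Equiv.apply_symm_apply] at this
    · rintro ⟨h3, h4⟩
      exact ⟨fun j => h3 _, fun j => h4 _⟩
  rw [h2] at h1
  rw [← h1]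
  refine integral_congr_ae (Filter.Eventually.of_forall fun θ => ?_)
  simp only
  rw [val_rename, hf]

end swap_

theorem swap : S_Swap := by
  intro n P i
  refine ⟨MvPolynomial.rename (Equiv.swap 0 i) P, ?_, ?_, swap_.dim_rename P _,
    swap_.int_rename P _⟩
  · intro h
    exact (MulEquiv.irreducible_iff (MvPolynomial.renameEquiv ℤ (Equiv.swap 0 i))).2 h
  · have h := MvPolynomial.degreeOf_rename_of_injective (p := P) (Equiv.swap 0 i).injective i
    rwa [Equiv.swap_apply_right] at h

end Pool.Agent.H589.Boyd
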