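import Pool.Agent.H589.Boyd.FinalA
import Pool.Agent.H589.Boyd.Jen
import Pool.Agent.H589.Boyd.FinB
import Pool.Agent.H589.Boyd.NDB
import Pool.Agent.H589.Boyd.NDC
import Pool.Agent.H589.Boyd.JenC
import Pool.Agent.H589.Boyd.FinC
import Pool.Agent.H589.Boyd.Swap

set_option autoImplicit false

open MeasureTheory

namespace Pool.Agent.H589.Boyd

theorem finBT : S_FinB := finB genT ndb jen lim pars

theorem finCT : S_FinC := finC genT ndc jenC lim pars

theorem bound_degree {n : ℕ} (P : MvPolynomial (Fin n) ℤ) (hP : Irreducible P) (i : Fin n)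
    (hi : 1 ≤ P.degreeOf i) :
    ((dim P : ℝ) - 1) / (Nat.centralBinom (P.degreeOf i) : ℝ) ^ 2 ≤
      Real.exp (∫ θ in cube n, Real.log ‖val P θ‖) ^ 4 ∧
    (dim P : ℝ) / (1 + 2 * (P.degreeOf i : ℝ)) ^ 8 ≤
      Real.exp (∫ θ in cube n, Real.log ‖val P θ‖) ^ 4 := by
  obtain _ | n := n
  · exact i.elim0
  obtain ⟨P', h1, h2, h3, h4⟩ := swap n P i
  have hP' := h1 hP
  have hi' : 1 ≤ P'.degreeOf 0 := by rw [h2]; exact hi
  have hB := finBT n P' hP' hi'
  have hC := finCT n P' hP' hi'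
  rw [h2, h3, h4] at hB hC
  exact ⟨hB, hC⟩

end Pool.Agent.H589.Boyd
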