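import Pool.Agent.H589.Boyd.Spec3
import Pool.Agent.H589.Boyd.JenC

set_option autoImplicit false

open MeasureTheory

namespace Pool.Agent.H589.Boyd

namespace jenD_

open jenC_ Polynomial

open Classical in
/-- the reflected root -/
noncomputable def τ (ρ : ℂ) : ℂ := if ‖ρ‖ ≤ 1 then ρ else ((starRingEnd ℂ) ρ)⁻¹

open Classical in
/-- the factor -/
noncomputable def c (ρ : ℂ) : ℂ := if ‖ρ‖ ≤ 1 then 1 else (starRingEnd ℂ) ρ

theorem norm_c (ρ : ℂ) : ‖c ρ‖ = max 1 ‖ρ‖ := by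
  unfold c
  split_ifs with h
  · rw [norm_one, max_eq_left h]
  · rw [RCLike.norm_conj, max_eq_right (not_le.1 h).le]

theorem c_ne (ρ : ℂ) : c ρ ≠ 0 := by
  rw [← norm_pos_iff, norm_c]
  exact lt_of_lt_of_le one_pos (le_max_left _ _)

theorem norm_τ (ρ : ℂ) : ‖τ ρ‖ ≤ 1 := by
  unfold τ
  split_ifs with h
  · exact h
  · rw [norm_inv, RCLike.norm_conj]
    exact inv_le_one_of_one_le₀ (not_le.1 h).le

theorem zz {z : ℂ} (hz : ‖z‖ = 1) : z * (starRingEnd ℂ) z = 1 := by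
  rw [Complex.mul_conj, Complex.normSq_eq_norm_sq, hz]
  norm_num

theorem norm_fac (ρ z : ℂ) (hz : ‖z‖ = 1) : ‖c ρ‖ * ‖z - τ ρ‖ = ‖z - ρ‖ := by
  unfold c τ
  split_ifs with h
  · rw [norm_one, one_mul]
  · have hρ : ρ ≠ 0 := by
      rintro rfl
      simp at h
    have hc : (starRingEnd ℂ) ρ ≠ 0 := by simpa using hρ
    rw [← norm_mul, mul_sub, mul_inv_cancel₀ hc]
    have h1 : (starRingEnd ℂ) ρ * z - 1 = -z * (starRingEnd ℂ) (z - ρ) := by
      rw [map_sub]
      linear_combination zz hz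
    rw [h1, norm_mul, norm_neg, hz, one_mul, RCLike.norm_conj]

theorem half {z σ : ℂ} (hz : ‖z‖ = 1) (hσ : ‖σ‖ ≤ 1) (hne : z ≠ σ) :
    1 / 2 ≤ (z / (z - σ)).re := by
  rw [Complex.div_re, ← add_div, le_div_iff₀ (Complex.normSq_pos.2 (sub_ne_zero.2 hne)),
    Complex.normSq_apply]
  have h1 : z.re * z.re + z.im * z.im = 1 := by
    rw [← Complex.normSq_apply, Complex.normSq_eq_norm_sq, hz]
    norm_num
  have h2 : σ.re * σ.re + σ.im * σ.im ≤ 1 := by
    rw [← Complex.normSq_apply, Complex.normSq_eq_norm_sq]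
    have := norm_nonneg σ
    nlinarith
  rw [Complex.sub_re, Complex.sub_im]
  nlinarith

theorem ne_τ {z ρ : ℂ} (hz : ‖z‖ = 1) (hne : z ≠ ρ) : z ≠ τ ρ := by
  intro h
  have h1 := norm_fac ρ z hz
  rw [sub_eq_zero.2 h, norm_zero, mul_zero] at h1
  exact hne (sub_eq_zero.1 (norm_eq_zero.1 h1.symm))

theorem term {z ρ : ℂ} (hz : ‖z‖ = 1) (hne : z ≠ ρ) :
    (z / (z - ρ)).im = (z / (z - τ ρ)).im ∧ |(z / (z - ρ)).re| ≤ (z / (z - τ ρ)).re ∧
      1 / 2 ≤ (z / (z - τ ρ)).re := by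
  have h3 := half hz (norm_τ ρ) (ne_τ hz hne)
  by_cases h : ‖ρ‖ ≤ 1
  · have h4 : τ ρ = ρ := by
      unfold τ
      rw [if_pos h]
    rw [h4] at h3 ⊢
    exact ⟨rfl, (abs_of_nonneg (by linarith)).le, h3⟩
  · have hρ : ρ ≠ 0 := by
      rintro rfl
      simp at h
    have hz0 : z ≠ 0 := by
      rintro rfl
      simp at hz
    have hcz : (starRingEnd ℂ) z = z⁻¹ := eq_inv_of_mul_eq_one_right (zz hz)
    have hs : z⁻¹ - ρ⁻¹ ≠ 0 := sub_ne_zero.2 fun h => hne (inv_injective h)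
    have hs2 : ρ - z ≠ 0 := sub_ne_zero.2 (Ne.symm hne)
    have hs3 : z - ρ ≠ 0 := sub_ne_zero.2 hne
    have hw : z / (z - ρ) + (starRingEnd ℂ) (z / (z - τ ρ)) = 1 := by
      have h4 : τ ρ = ((starRingEnd ℂ) ρ)⁻¹ := by
        unfold τ
        rw [if_neg h]
      rw [h4, map_div₀, map_sub, map_inv₀, Complex.conj_conj, hcz]
      have e1 : z⁻¹ / (z⁻¹ - ρ⁻¹) = ρ / (ρ - z) := by
        rw [div_eq_div_iff hs hs2, mul_sub, mul_sub, inv_mul_cancel₀ hz0, mul_inv_cancel₀ hρ]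
        ring
      rw [e1, div_add_div _ _ hs3 hs2, div_eq_one_iff_eq (mul_ne_zero hs3 hs2)]
      ring
    have hre := congrArg Complex.re hw
    have him := congrArg Complex.im hw
    rw [Complex.add_re, Complex.conj_re, Complex.one_re] at hre
    rw [Complex.add_im, Complex.conj_im, Complex.one_im] at him
    refine ⟨by linarith, ?_, h3⟩
    rw [abs_le]
    constructor <;> linarith

theorem sums {z : ℂ} (hz : ‖z‖ = 1) (R : Multiset ℂ) (hR : ∀ ρ ∈ R, z ≠ ρ) :
    ((R.map fun ρ => z / (z - ρ)).sum).im = ((R.map fun ρ => z / (z - τ ρ)).sum).im ∧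
    |((R.map fun ρ => z / (z - ρ)).sum).re| ≤ ((R.map fun ρ => z / (z - τ ρ)).sum).re ∧
      (Multiset.card R : ℝ) / 2 ≤ ((R.map fun ρ => z / (z - τ ρ)).sum).re := by
  induction R using Multiset.induction_on with
  | empty => simp
  | cons a R ih =>
    obtain ⟨i1, i2, i3⟩ := ih fun ρ hρ => hR ρ (Multiset.mem_cons_of_mem hρ)
    obtain ⟨t1, t2, t3⟩ := term hz (hR a (Multiset.mem_cons_self a R))
    simp only [Multiset.map_cons, Multiset.sum_cons, Multiset.card_cons, Complex.add_re,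
      Complex.add_im]
    push_cast
    refine ⟨by rw [i1, t1], (abs_add_le _ _).trans (add_le_add t2 i2), by linarith⟩

theorem sums_norm {z : ℂ} (hz : ‖z‖ = 1) (R : Multiset ℂ) (hR : ∀ ρ ∈ R, z ≠ ρ) :
    ‖(R.map fun ρ => 1 / (z - ρ)).sum‖ ≤ ‖(R.map fun ρ => 1 / (z - τ ρ)).sum‖ ∧
      (Multiset.card R : ℝ) / 2 ≤ ‖(R.map fun ρ => 1 / (z - τ ρ)).sum‖ := by
  obtain ⟨h1, h2, h3⟩ := sums hz R hR
  have e1 : ‖(R.map fun ρ => 1 / (z - ρ)).sum‖ = ‖(R.map fun ρ => z / (z - ρ)).sum‖ := by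
    have : (R.map fun ρ => z / (z - ρ)).sum = z * (R.map fun ρ => 1 / (z - ρ)).sum := by
      rw [← Multiset.sum_map_mul_left]
      congr 1
      refine Multiset.map_congr rfl fun ρ _ => ?_
      ring
    rw [this, norm_mul, hz, one_mul]
  have e2 : ‖(R.map fun ρ => 1 / (z - τ ρ)).sum‖ = ‖(R.map fun ρ => z / (z - τ ρ)).sum‖ := by
    have : (R.map fun ρ => z / (z - τ ρ)).sum = z * (R.map fun ρ => 1 / (z - τ ρ)).sum := by
      rw [← Multiset.sum_map_mul_left]
      congr 1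
      refine Multiset.map_congr rfl fun ρ _ => ?_
      ring
    rw [this, norm_mul, hz, one_mul]
  rw [e1, e2]
  obtain ⟨A, hA⟩ : ∃ A, A = (R.map fun ρ => z / (z - ρ)).sum := ⟨_, rfl⟩
  obtain ⟨B, hB⟩ : ∃ B, B = (R.map fun ρ => z / (z - τ ρ)).sum := ⟨_, rfl⟩
  rw [← hA, ← hB] at h1
  rw [← hA, ← hB] at h2
  rw [← hB] at h3
  rw [← hA, ← hB]
  constructor
  · rw [← sq_le_sq₀ (norm_nonneg _) (norm_nonneg _), Complex.sq_norm, Complex.sq_norm,
      Complex.normSq_apply, Complex.normSq_apply, h1]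
    have h5 : A.re ^ 2 ≤ B.re ^ 2 := sq_le_sq.2 (h2.trans (le_abs_self _))
    nlinarith
  · exact h3.trans ((le_abs_self _).trans (Complex.abs_re_le_norm B))

/-- the polynomial with the reflected roots -/
noncomputable def f1 (f : ℂ[X]) : ℂ[X] :=
  C (f.leadingCoeff * (f.roots.map c).prod) * ((f.roots.map τ).map (fun a => X - C a)).prod

theorem b_ne {f : ℂ[X]} (hf : f ≠ 0) : f.leadingCoeff * (f.roots.map c).prod ≠ 0 := by
  refine mul_ne_zero (leadingCoeff_ne_zero.2 hf) ?_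
  refine Multiset.prod_ne_zero ?_
  intro h
  obtain ⟨ρ, -, hρ⟩ := Multiset.mem_map.1 h
  exact c_ne ρ hρ

theorem roots_f1 {f : ℂ[X]} (hf : f ≠ 0) : (f1 f).roots = f.roots.map τ := by
  unfold f1
  rw [roots_C_mul _ (b_ne hf), roots_multiset_prod_X_sub_C]

theorem f1_ne {f : ℂ[X]} (hf : f ≠ 0) : f1 f ≠ 0 :=
  mul_ne_zero (C_ne_zero.2 (b_ne hf)) (monic_multisetProd_X_sub_C _).ne_zero

theorem lead_f1 {f : ℂ[X]} :
    (f1 f).leadingCoeff = f.leadingCoeff * (f.roots.map c).prod := by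
  unfold f1
  rw [leadingCoeff_mul, leadingCoeff_C, (monic_multisetProd_X_sub_C _).leadingCoeff, mul_one]

theorem deg_f1 {f : ℂ[X]} (hf : f ≠ 0) : (f1 f).natDegree = f.natDegree := by
  rw [(IsAlgClosed.splits (f1 f)).natDegree_eq_card_roots, roots_f1 hf, Multiset.card_map,
    ← (IsAlgClosed.splits f).natDegree_eq_card_roots]

theorem norm_lead {f : ℂ[X]} : ‖(f1 f).leadingCoeff‖ = f.mahlerMeasure := by
  rw [lead_f1, mahlerMeasure_eq_leadingCoeff_mul_prod_roots, norm_mul]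
  congr 1
  have h : ∀ R : Multiset ℂ, ‖(R.map c).prod‖ = (R.map fun a => max 1 ‖a‖).prod := by
    intro R
    induction R using Multiset.induction_on with
    | empty => simp
    | cons a R ih =>
      rw [Multiset.map_cons, Multiset.prod_cons, norm_mul, ih, norm_c, Multiset.map_cons,
        Multiset.prod_cons]
  exact h _

theorem norm_eval {f : ℂ[X]} {z : ℂ} (hz : ‖z‖ = 1) :
    ‖(f1 f).eval z‖ = ‖f.eval z‖ := by
  rw [(IsAlgClosed.splits f).eval_eq_prod_roots z]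
  unfold f1
  rw [eval_mul, eval_C, eval_multiset_prod, norm_mul, norm_mul, norm_mul, mul_assoc]
  congr 1
  have h : ∀ R : Multiset ℂ, ‖(R.map c).prod‖ *
      ‖(((R.map τ).map (fun a => X - C a)).map (eval z)).prod‖ =
      ‖(R.map fun a => z - a).prod‖ := by
    intro R
    induction R using Multiset.induction_on with
    | empty => simp
    | cons a R ih =>
      simp only [Multiset.map_cons, Multiset.prod_cons, norm_mul]
      rw [← ih, ← norm_fac a z hz, eval_sub, eval_X, eval_C]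
      ring
  exact h _

theorem mahler_deriv {f : ℂ[X]} (hf : f ≠ 0) (hd : 0 < f.natDegree) :
    (f1 f).derivative.mahlerMeasure = f.natDegree * f.mahlerMeasure := by
  rw [mahlerMeasure_eq_leadingCoeff_mul_prod_roots, leadingCoeff_derivative, deg_f1 hf, norm_mul,
    norm_lead]
  have hone : ((f1 f).derivative.roots.map fun a => max 1 ‖a‖).prod = 1 := by
    refine Multiset.prod_eq_one ?_
    intro x hx
    obtain ⟨a, ha, rfl⟩ := Multiset.mem_map.1 hx
    refine max_eq_left ?_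
    have h0 : 0 < (f1 f).degree := natDegree_pos_iff_degree_pos.1 (by rw [deg_f1 hf]; exact hd)
    have h1 := rootSet_derivative_subset_convexHull_rootSet h0
    have h2 : a ∈ (f1 f).derivative.rootSet ℂ := by
      rw [mem_rootSet]
      refine ⟨ne_zero_of_mem_roots ha, ?_⟩
      rw [coe_aeval_eq_eval]
      exact (mem_roots'.1 ha).2
    have h3 : (f1 f).rootSet ℂ ⊆ Metric.closedBall (0 : ℂ) 1 := by
      intro w hw
      rw [mem_rootSet, coe_aeval_eq_eval] at hw
      have h4 : w ∈ (f1 f).roots := (mem_roots hw.1).2 hw.2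
      rw [roots_f1 hf] at h4
      obtain ⟨ρ, -, rfl⟩ := Multiset.mem_map.1 h4
      rw [mem_closedBall_zero_iff]
      exact norm_τ ρ
    have h5 := convexHull_min h3 (convex_closedBall (0 : ℂ) 1) (h1 h2)
    rwa [mem_closedBall_zero_iff] at h5
  rw [hone, mul_one, mul_comm, Complex.norm_natCast]

theorem int_log (p : ℂ[X]) :
    ∫ y in Set.Icc (0 : ℝ) 1, Real.log ‖p.eval (e y)‖ = Real.log p.mahlerMeasure := by
  rw [← logMahlerMeasure_eq_log_MahlerMeasure, logMahlerMeasure_def, Real.circleAverage_def,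
    integral_Icc_eq_integral_Ioc, ← intervalIntegral.integral_of_le (by norm_num)]
  have h1 := intervalIntegral.integral_comp_mul_left (a := 0) (b := 1)
    (fun θ : ℝ => Real.log ‖p.eval (circleMap 0 1 θ)‖) (c := 2 * Real.pi) (by positivity)
  rw [mul_zero, mul_one] at h1
  rw [← h1]
  refine intervalIntegral.integral_congr fun y _ => ?_
  simp only [circleMap, zero_add, Complex.ofReal_one, one_mul]
  rw [e_eq, mul_comm Complex.I]

theorem point {f : ℂ[X]} (hf : f ≠ 0) (hd : 0 < f.natDegree) {z : ℂ} (hz : ‖z‖ = 1)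
    (hfz : f.eval z ≠ 0) :
    0 < ‖(f1 f).derivative.eval z‖ ∧
    ‖f.eval z‖ ^ 2 + ‖f.derivative.eval z‖ ^ 2 ≤
      (1 + 4 / (f.natDegree : ℝ) ^ 2) * ‖(f1 f).derivative.eval z‖ ^ 2 := by
  have hk : (0 : ℝ) < f.natDegree := by exact_mod_cast hd
  have hR : ∀ ρ ∈ f.roots, z ≠ ρ := by
    intro ρ hρ h
    exact hfz (h ▸ (mem_roots'.1 hρ).2)
  have ha : 0 < ‖f.eval z‖ := norm_pos_iff.2 hfz
  have hf1z : (f1 f).eval z ≠ 0 := by
    rw [← norm_pos_iff, norm_eval hz]
    exact ha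
  have h1 := (IsAlgClosed.splits f).eval_derivative_div_eval_of_ne_zero hfz
  have h2 := (IsAlgClosed.splits (f1 f)).eval_derivative_div_eval_of_ne_zero hf1z
  rw [roots_f1 hf, Multiset.map_map] at h2
  obtain ⟨h3, h4⟩ := sums_norm hz f.roots hR
  have h5 : ((f.roots.map ((fun ρ => 1 / (z - ρ)) ∘ τ)).sum) =
      (f.roots.map fun ρ => 1 / (z - τ ρ)).sum := rfl
  rw [h5] at h2
  rw [← h1, ← h2, norm_div, norm_div, norm_eval hz, div_le_div_iff_of_pos_right ha] at h3
  rw [← h2, norm_div, norm_eval hz, le_div_iff₀ ha,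
    ← (IsAlgClosed.splits f).natDegree_eq_card_roots] at h4
  obtain ⟨a, ha'⟩ : ∃ a, a = ‖f.eval z‖ := ⟨_, rfl⟩
  obtain ⟨b, hb'⟩ : ∃ b, b = ‖f.derivative.eval z‖ := ⟨_, rfl⟩
  obtain ⟨B, hB'⟩ : ∃ B, B = ‖(f1 f).derivative.eval z‖ := ⟨_, rfl⟩
  obtain ⟨k, hk'⟩ : ∃ k : ℝ, k = f.natDegree := ⟨_, rfl⟩
  have hb0 : 0 ≤ b := hb' ▸ norm_nonneg _
  rw [← ha'] at ha h4 ⊢
  rw [← hb'] at h3 ⊢
  rw [← hB'] at h3 h4 ⊢
  rw [← hk'] at hk h4 ⊢
  have hB0 : 0 < B := lt_of_lt_of_le (by positivity) h4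
  refine ⟨hB0, ?_⟩
  have h6 : b ^ 2 ≤ B ^ 2 := pow_le_pow_left₀ hb0 h3 2
  have h7 : a ≤ 2 / k * B := by
    rw [div_mul_eq_mul_div, le_div_iff₀ hk]
    linarith
  have h8 : a ^ 2 ≤ (2 / k * B) ^ 2 := pow_le_pow_left₀ ha.le h7 2
  have h9 : (2 / k * B) ^ 2 = 4 / k ^ 2 * B ^ 2 := by
    rw [mul_pow, div_pow]
    norm_num
  rw [h9] at h8
  linarith

end jenD_

open jenC_ jenD_ in
theorem jenD : S_JenD := by
  intro f d hf hd δ hδ
  change (∫ y in Set.Icc (0 : ℝ) 1,
      Real.log (‖f.eval (e y)‖ ^ 2 + ‖f.derivative.eval (e y)‖ ^ 2)) -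
      Real.log ((d : ℝ) ^ 2 + 4) ≤
    ∫ y in Set.Icc (0 : ℝ) 1, Real.log (‖f.eval (e y)‖ ^ 2 + δ)
  have hvol : (volume.restrict (Set.Icc (0 : ℝ) 1)).real Set.univ = 1 := by
    simp [Measure.real]
  have hlogd : 0 ≤ Real.log ((d : ℝ) ^ 2 + 4) := by
    refine Real.log_nonneg ?_
    have := sq_nonneg (d : ℝ)
    linarith
  rcases Nat.eq_zero_or_pos f.natDegree with h0 | h0
  · have hC := Polynomial.eq_C_of_natDegree_eq_zero h0
    have ha : f.coeff 0 ≠ 0 := by
      intro h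
      rw [h, Polynomial.C_0] at hC
      exact hf hC
    rw [hC]
    simp only [Polynomial.eval_C, Polynomial.derivative_C, Polynomial.eval_zero, norm_zero,
      integral_const, hvol, one_smul]
    have h1 : 0 < ‖f.coeff 0‖ := norm_pos_iff.2 ha
    have h2 : Real.log (‖f.coeff 0‖ ^ 2 + 0 ^ 2) ≤ Real.log (‖f.coeff 0‖ ^ 2 + δ) :=
      Real.log_le_log (by positivity) (by linarith)
    linarith
  have hk : (0 : ℝ) < f.natDegree := by exact_mod_cast h0
  have hkd : (f.natDegree : ℝ) ≤ d := by exact_mod_cast hd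
  have cf : Continuous fun y => f.eval (e y) := f.continuous.comp e_cont
  have cf' : Continuous fun y => f.derivative.eval (e y) := f.derivative.continuous.comp e_cont
  have hne : ∀ᵐ y : ℝ, f.eval (e y) ≠ 0 := by
    have h1 : {y : ℝ | f.eval (e y) = 0}.Countable := by
      have h2 : {y : ℝ | f.eval (e y) = 0} ⊆ ⋃ ρ ∈ f.roots.toFinset, {y : ℝ | e y = ρ} := by
        intro y hy
        simp only [Set.mem_iUnion]
        refine ⟨e y, ?_, rfl⟩
        rw [Multiset.mem_toFinset, Polynomial.mem_roots hf]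
        exact hy
      refine Set.Countable.mono h2 ?_
      exact Set.Countable.biUnion (Finset.countable_toSet _) fun ρ _ => e_countable ρ
    exact h1.ae_notMem volume
  have hG : IntegrableOn (fun y => Real.log (‖f.eval (e y)‖ ^ 2 + δ)) (Set.Icc (0 : ℝ) 1) := by
    refine Continuous.integrableOn_Icc ?_
    refine Continuous.log ((cf.norm.pow 2).add continuous_const) ?_
    intro y
    positivity
  have hL : IntegrableOn (fun y => 2 * Real.log ‖f.eval (e y)‖) (Set.Icc (0 : ℝ) 1) :=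
    Integrable.const_mul log_int _
  have hL1 : IntegrableOn (fun y => 2 * Real.log ‖(f1 f).derivative.eval (e y)‖)
      (Set.Icc (0 : ℝ) 1) := Integrable.const_mul log_int _
  have hU : IntegrableOn (fun y => Real.log (1 + 4 / (f.natDegree : ℝ) ^ 2) +
      2 * Real.log ‖(f1 f).derivative.eval (e y)‖) (Set.Icc (0 : ℝ) 1) :=
    Integrable.add (integrable_const _) hL1
  have key : ∀ᵐ y ∂(volume.restrict (Set.Icc (0 : ℝ) 1)),
      Real.log (‖f.eval (e y)‖ ^ 2 + ‖f.derivative.eval (e y)‖ ^ 2) ≤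
      Real.log (1 + 4 / (f.natDegree : ℝ) ^ 2) +
      2 * Real.log ‖(f1 f).derivative.eval (e y)‖ := by
    refine ae_restrict_of_ae ?_
    filter_upwards [hne] with y hy
    obtain ⟨p1, p2⟩ := point hf h0 (norm_e y) hy
    have h3 : 0 < ‖f.eval (e y)‖ := norm_pos_iff.2 hy
    have h9 := Real.log_le_log (by positivity) p2
    rw [Real.log_mul (by positivity) (by positivity), Real.log_pow] at h9
    exact_mod_cast h9
  have hF : IntegrableOn (fun y =>
      Real.log (‖f.eval (e y)‖ ^ 2 + ‖f.derivative.eval (e y)‖ ^ 2)) (Set.Icc (0 : ℝ) 1) := by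
    have hm : Measurable (fun y =>
        Real.log (‖f.eval (e y)‖ ^ 2 + ‖f.derivative.eval (e y)‖ ^ 2)) :=
      Real.measurable_log.comp ((cf.norm.pow 2).add (cf'.norm.pow 2)).measurable
    refine Integrable.mono' (Integrable.add hL.norm hU.norm) hm.aestronglyMeasurable ?_
    filter_upwards [key, ae_restrict_of_ae hne] with y h1 h2
    have h3 : 0 < ‖f.eval (e y)‖ := norm_pos_iff.2 h2
    have h4 : 2 * Real.log ‖f.eval (e y)‖ ≤
        Real.log (‖f.eval (e y)‖ ^ 2 + ‖f.derivative.eval (e y)‖ ^ 2) := by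
      have h5 : 2 * Real.log ‖f.eval (e y)‖ = Real.log (‖f.eval (e y)‖ ^ 2) := by
        rw [Real.log_pow]
        norm_num
      rw [h5]
      refine Real.log_le_log (by positivity) ?_
      have := sq_nonneg ‖f.derivative.eval (e y)‖
      linarith
    simp only [Pi.add_apply, Real.norm_eq_abs]
    rw [abs_le]
    constructor
    · have h6 := neg_abs_le (2 * Real.log ‖f.eval (e y)‖)
      have h7 := abs_nonneg (Real.log (1 + 4 / (f.natDegree : ℝ) ^ 2) +
        2 * Real.log ‖(f1 f).derivative.eval (e y)‖)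
      linarith
    · have h6 := abs_nonneg (2 * Real.log ‖f.eval (e y)‖)
      have h7 := le_abs_self (Real.log (1 + 4 / (f.natDegree : ℝ) ^ 2) +
        2 * Real.log ‖(f1 f).derivative.eval (e y)‖)
      linarith
  have hfin := integral_mono_ae hF hU key
  rw [integral_add (integrable_const _) hL1, integral_const, hvol, one_smul,
    integral_const_mul, int_log, mahler_deriv hf h0,
    Real.log_mul hk.ne' (Polynomial.mahlerMeasure_pos_of_ne_zero hf).ne', ← int_log] at hfin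
  have hfl : ∫ y in Set.Icc (0 : ℝ) 1, 2 * Real.log ‖f.eval (e y)‖ ≤
      ∫ y in Set.Icc (0 : ℝ) 1, Real.log (‖f.eval (e y)‖ ^ 2 + δ) := by
    refine integral_mono_ae hL hG ?_
    refine ae_restrict_of_ae ?_
    filter_upwards [hne] with y hy
    have h3 : 0 < ‖f.eval (e y)‖ := norm_pos_iff.2 hy
    have h5 : 2 * Real.log ‖f.eval (e y)‖ = Real.log (‖f.eval (e y)‖ ^ 2) := by
      rw [Real.log_pow]
      norm_num
    rw [h5]
    exact Real.log_le_log (by positivity) (by linarith)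
  rw [integral_const_mul] at hfl
  have hlog : Real.log (1 + 4 / (f.natDegree : ℝ) ^ 2) + 2 * Real.log (f.natDegree : ℝ) ≤
      Real.log ((d : ℝ) ^ 2 + 4) := by
    have h5 : 2 * Real.log (f.natDegree : ℝ) = Real.log ((f.natDegree : ℝ) ^ 2) := by
      rw [Real.log_pow]
      norm_num
    rw [h5, ← Real.log_mul (by positivity) (by positivity)]
    refine Real.log_le_log (by positivity) ?_
    rw [add_mul, one_mul, div_mul_cancel₀ _ (by positivity)]
    have := pow_le_pow_left₀ hk.le hkd 2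
    linarith
  linarith

end Pool.Agent.H589.Boyd
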