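import Pool.Agent.H589.Boyd.FinalA
import Pool.Agent.H589.Boyd.NDC
import Pool.Agent.H589.Boyd.JenD
import Pool.Agent.H589.Boyd.FinD
import Pool.Agent.H589.Boyd.Swap

set_option autoImplicit false

open MeasureTheory

namespace Pool.Agent.H589.Boyd

theorem finDT : S_FinD := finD genT ndc jenD lim pars

theorem bound_degree2 {n : ℕ} (P : MvPolynomial (Fin n) ℤ) (hP : Irreducible P) (i : Fin n)
    (hi : 1 ≤ P.degreeOf i) :
    (dim P : ℝ) / ((P.degreeOf i : ℝ) ^ 2 + 4) ^ 2 ≤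
      Real.exp (∫ θ in cube n, Real.log ‖val P θ‖) ^ 4 := by
  obtain _ | n := n
  · exact i.elim0
  obtain ⟨P', h1, h2, h3, h4⟩ := swap n P i
  have hD := finDT n P' (h1 hP) (by rw [h2]; exact hi)
  rw [h2, h3, h4] at hD
  exact hD

end Pool.Agent.H589.Boyd
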