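import Pool.Agent.H589.Boyd.Spec

set_option autoImplicit false
set_option linter.unusedSectionVars false

/-!
# The coefficient identity
-/

namespace Pool.Agent.H589.Boyd

namespace ident_

section ring
variable {Γ : Type} [AddCommGroup Γ] {R : Type} [CommRing R]

theorem coeff_part_mem {W : AddSubgroup Γ} (A : AddMonoidAlgebra R Γ) {u : Γ} (hu : u ∈ W) :
    (part W A).coeff u = A.coeff u := by
  classical
  unfold part
  rw [AddMonoidAlgebra.coeff_sum, Finsupp.finsetSum_apply]
  have h : ∀ v : Γ, (AddMonoidAlgebra.single v (A.coeff v)).coeff u =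
      if v = u then A.coeff v else 0 := by
    intro v
    rw [AddMonoidAlgebra.coeff_single, Finsupp.single_apply]
  rw [Finset.sum_congr rfl fun v _ => h v, Finset.sum_ite_eq']
  by_cases hA : A.coeff u = 0
  · rw [hA, ite_self]
  · rw [if_pos]
    rw [Finset.mem_filter]
    exact ⟨Finsupp.mem_support_iff.2 hA, hu⟩

theorem coeff_part_not {W : AddSubgroup Γ} (A : AddMonoidAlgebra R Γ) {u : Γ} (hu : u ∉ W) :
    (part W A).coeff u = 0 := by
  classical
  unfold part
  rw [AddMonoidAlgebra.coeff_sum, Finsupp.finsetSum_apply]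
  refine Finset.sum_eq_zero fun v hv => ?_
  rw [Finset.mem_filter] at hv
  rw [AddMonoidAlgebra.coeff_single, Finsupp.single_apply, if_neg]
  intro h
  exact hu (h ▸ hv.2)

theorem part_add (W : AddSubgroup Γ) (X Y : AddMonoidAlgebra R Γ) :
    part W (X + Y) = part W X + part W Y := by
  apply AddMonoidAlgebra.ext
  ext u
  rw [AddMonoidAlgebra.coeff_add, Finsupp.add_apply]
  by_cases hu : u ∈ W
  · rw [coeff_part_mem _ hu, coeff_part_mem _ hu, coeff_part_mem _ hu, AddMonoidAlgebra.coeff_add,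
      Finsupp.add_apply]
  · rw [coeff_part_not _ hu, coeff_part_not _ hu, coeff_part_not _ hu, add_zero]

theorem part_self {W : AddSubgroup Γ} {X : AddMonoidAlgebra R Γ}
    (h : ∀ u, X.coeff u ≠ 0 → u ∈ W) : part W X = X := by
  apply AddMonoidAlgebra.ext
  ext u
  by_cases hu : u ∈ W
  · exact coeff_part_mem _ hu
  · rw [coeff_part_not _ hu]
    by_contra h0
    exact hu (h u (Ne.symm h0))

theorem part_zero {W : AddSubgroup Γ} {X : AddMonoidAlgebra R Γ}
    (h : ∀ u, X.coeff u ≠ 0 → u ∉ W) : part W X = 0 := by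
  apply AddMonoidAlgebra.ext
  ext u
  rw [AddMonoidAlgebra.coeff_zero, Finsupp.zero_apply]
  by_cases hu : u ∈ W
  · rw [coeff_part_mem _ hu]
    by_contra h0
    exact h u h0 hu
  · exact coeff_part_not _ hu

theorem part_supp {W : AddSubgroup Γ} {X : AddMonoidAlgebra R Γ} {u : Γ}
    (h : (part W X).coeff u ≠ 0) : u ∈ W ∧ X.coeff u ≠ 0 := by
  by_cases hu : u ∈ W
  · rw [coeff_part_mem _ hu] at h
    exact ⟨hu, h⟩
  · exact absurd (coeff_part_not _ hu) h

theorem nz_mul {X Y : AddMonoidAlgebra R Γ} {u : Γ} (h : (X * Y).coeff u ≠ 0) :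
    ∃ a b, X.coeff a ≠ 0 ∧ Y.coeff b ≠ 0 ∧ a + b = u := by
  classical
  by_contra hcon
  push Not at hcon
  apply h
  rw [AddMonoidAlgebra.coeff_mul]
  unfold Finsupp.sum
  refine Finset.sum_eq_zero fun a ha => Finset.sum_eq_zero fun b hb => ?_
  exact if_neg (hcon a b (Finsupp.mem_support_iff.1 ha) (Finsupp.mem_support_iff.1 hb))

theorem part_mul {W : AddSubgroup Γ} (X : AddMonoidAlgebra R Γ) {Y : AddMonoidAlgebra R Γ}
    (hY : ∀ u, Y.coeff u ≠ 0 → u ∈ W) : part W (X * Y) = part W X * Y := by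
  have h1 : X * Y = part W X * Y + (X - part W X) * Y := by ring
  have h2 : part W (part W X * Y) = part W X * Y := by
    refine part_self fun u hu => ?_
    obtain ⟨a, b, ha, hb, rfl⟩ := nz_mul hu
    exact W.add_mem (part_supp ha).1 (hY b hb)
  have h3 : part W ((X - part W X) * Y) = 0 := by
    refine part_zero fun u hu huW => ?_
    obtain ⟨a, b, ha, hb, rfl⟩ := nz_mul hu
    have haW : a ∈ W := by
      have := W.sub_mem huW (hY b hb)
      rwa [add_sub_cancel_right] at this
    apply ha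
    rw [AddMonoidAlgebra.coeff_sub, Finsupp.sub_apply, coeff_part_mem _ haW, sub_self]
  rw [h1, part_add, h2, h3, add_zero]

theorem part_mul' {W : AddSubgroup Γ} {X : AddMonoidAlgebra R Γ} (Y : AddMonoidAlgebra R Γ)
    (hX : ∀ u, X.coeff u ≠ 0 → u ∈ W) : part W (X * Y) = X * part W Y := by
  rw [mul_comm, part_mul Y hX, mul_comm]

theorem part_part {W : AddSubgroup Γ} (X : AddMonoidAlgebra R Γ) :
    ∀ u, (part W X).coeff u ≠ 0 → u ∈ W := fun _ h => (part_supp h).1

end ring

section order
variable {Γ : Type} [AddCommGroup Γ] [LinearOrder Γ] [IsOrderedAddMonoid Γ] {R : Type} [CommRing R]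

/-- all exponents are at least `a` -/
def Ge (X : AddMonoidAlgebra R Γ) (a : Γ) : Prop := ∀ u, X.coeff u ≠ 0 → a ≤ u

theorem Ge.mul {X Y : AddMonoidAlgebra R Γ} {a b : Γ} (hX : Ge X a) (hY : Ge Y b) :
    Ge (X * Y) (a + b) := by
  intro u hu
  obtain ⟨x, y, hx, hy, rfl⟩ := nz_mul hu
  exact add_le_add (hX x hx) (hY y hy)

theorem Ge.lead {X Y : AddMonoidAlgebra R Γ} {a b : Γ} (hX : Ge X a) (hY : Ge Y b) :
    (X * Y).coeff (a + b) = X.coeff a * Y.coeff b := by
  refine AddMonoidAlgebra.coeff_mul_add_of_uniqueAdd ?_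
  intro x y hx hy h
  have h1 := hX x (Finsupp.mem_support_iff.1 hx)
  have h2 := hY y (Finsupp.mem_support_iff.1 hy)
  have h3 : x = a := by
    by_contra hne
    have h4 : a < x := lt_of_le_of_ne h1 (Ne.symm hne)
    exact absurd h (add_lt_add_of_lt_of_le h4 h2).ne'
  refine ⟨h3, ?_⟩
  rw [h3] at h
  exact add_left_cancel h

theorem Ge.part {X : AddMonoidAlgebra R Γ} {a : Γ} (hX : Ge X a) (W : AddSubgroup Γ) :
    Ge (Pool.Agent.H589.Boyd.part W X) a := fun u hu => hX u (part_supp hu).2

theorem Ge.lt {X : AddMonoidAlgebra R Γ} {a u : Γ} (hX : Ge X a) (hu : u < a) :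
    X.coeff u = 0 := by
  by_contra h
  exact absurd (hX u h) (not_le.2 hu)

/-- the coefficient identity over a commutative domain -/
theorem core [NoZeroDivisors R] {A B g : AddMonoidAlgebra R Γ} {W : AddSubgroup Γ} {s : Γ}
    (hA : Ge A 0) (hg : Ge g 0) (hg0 : g.coeff 0 = 1) (hA0 : A.coeff 0 ≠ 0)
    (hD : Ge (part W A * B - part W B * A) s)
    (hd : (part W A * B - part W B * A).coeff s ≠ 0) (hs : s ∉ W) :
    (part W (A * g) * (B * g) - part W (B * g) * (A * g)).coeff s =
      (part W A * B - part W B * A).coeff s := by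
  obtain ⟨D, hDd⟩ : ∃ D, D = part W A * B - part W B * A := ⟨_, rfl⟩
  obtain ⟨F, hF⟩ : ∃ F, F = A * g := ⟨_, rfl⟩
  obtain ⟨F', hF'⟩ : ∃ F', F' = B * g := ⟨_, rfl⟩
  obtain ⟨Q, hQ⟩ : ∃ Q, Q = part W F * F' - part W F' * F := ⟨_, rfl⟩
  rw [← hDd] at hD hd ⊢
  rw [← hF, ← hF', ← hQ]
  have e1 : part W A * F' = part W B * F + D * g := by
    rw [hDd, hF, hF']
    ring
  have e2 : part W A * part W F' = part W B * part W F + part W (D * g) := by
    have h1 := congrArg (part W) e1
    rw [part_mul' F' (part_part A), part_add, part_mul' F (part_part B)] at h1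
    exact h1
  have e3 : part W A * Q = part W F * (D * g) - part W (D * g) * F := by
    rw [hQ]
    linear_combination (part W F) * e1 - F * e2
  have gF : Ge F 0 := by
    have := hA.mul hg
    rwa [add_zero, ← hF] at this
  have gDg : Ge (D * g) s := by
    have := hD.mul hg
    rwa [add_zero] at this
  have cF : F.coeff 0 = A.coeff 0 := by
    have := hA.lead hg
    rw [add_zero, ← hF, hg0, mul_one] at this
    exact this
  have cDg : (D * g).coeff s = D.coeff s := by
    have := hD.lead hg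
    rw [add_zero, hg0, mul_one] at this
    exact this
  have g1 : Ge (part W F * (D * g)) s := by
    have := (gF.part W).mul gDg
    rwa [zero_add] at this
  have c1 : (part W F * (D * g)).coeff s = A.coeff 0 * D.coeff s := by
    have := (gF.part W).lead gDg
    rw [zero_add, coeff_part_mem _ W.zero_mem, cF, cDg] at this
    exact this
  have g2 : Ge (part W (D * g) * F) s := by
    have := (gDg.part W).mul gF
    rwa [add_zero] at this
  have c2 : (part W (D * g) * F).coeff s = 0 := by
    have := (gDg.part W).lead gF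
    rw [add_zero, coeff_part_not _ hs, zero_mul] at this
    exact this
  have c3 : (part W A * Q).coeff s = A.coeff 0 * D.coeff s := by
    rw [e3, AddMonoidAlgebra.coeff_sub, Finsupp.sub_apply, c1, c2, sub_zero]
  have c4 : ∀ u, u < s → (part W A * Q).coeff u = 0 := by
    intro u hu
    rw [e3, AddMonoidAlgebra.coeff_sub, Finsupp.sub_apply, g1.lt hu, g2.lt hu, sub_zero]
  have pA : (part W A).coeff 0 = A.coeff 0 := coeff_part_mem _ W.zero_mem
  have hQ0 : Q ≠ 0 := by
    intro h
    rw [h, mul_zero, AddMonoidAlgebra.coeff_zero, Finsupp.zero_apply] at c3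
    exact mul_ne_zero hA0 hd c3.symm
  have hne : Q.coeff.support.Nonempty := by
    rw [Finset.nonempty_iff_ne_empty]
    intro h
    rw [Finsupp.support_eq_empty, AddMonoidAlgebra.coeff_eq_zero] at h
    exact hQ0 h
  obtain ⟨u, hu⟩ : ∃ u, u = Q.coeff.support.min' hne := ⟨_, rfl⟩
  have gQ : Ge Q u := by
    intro v hv
    rw [hu]
    exact Finset.min'_le _ _ (Finsupp.mem_support_iff.2 hv)
  have hQu : Q.coeff u ≠ 0 := by
    have := Finset.min'_mem _ hne
    rw [← hu] at this
    exact Finsupp.mem_support_iff.1 this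
  have c5 := (hA.part W).lead gQ
  rw [zero_add, pA] at c5
  have hsu : s ≤ u := by
    by_contra h
    rw [c4 u (not_le.1 h)] at c5
    exact mul_ne_zero hA0 hQu c5.symm
  have gQs : Ge Q s := fun v hv => hsu.trans (gQ v hv)
  have c6 := (hA.part W).lead gQs
  rw [zero_add, pA, c3] at c6
  exact (mul_left_cancel₀ hA0 c6).symm

end order

section cast
variable {Γ : Type} [AddCommGroup Γ]

theorem coeff_cst (A : AddMonoidAlgebra ℤ Γ) (u : Γ) :
    (cst A).coeff u = ((A.coeff u : ℤ) : ℂ) := by
  unfold cst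
  simp

theorem part_cst (W : AddSubgroup Γ) (A : AddMonoidAlgebra ℤ Γ) :
    part W (cst A) = cst (part W A) := by
  apply AddMonoidAlgebra.ext
  ext u
  rw [coeff_cst]
  by_cases hu : u ∈ W
  · rw [coeff_part_mem _ hu, coeff_part_mem _ hu, coeff_cst]
  · rw [coeff_part_not _ hu, coeff_part_not _ hu, Int.cast_zero]

end cast

end ident_

open ident_ in
theorem ident : S_Ident := by
  intro Γ _ _ _ A B W hA _ hA0 hne
  obtain ⟨D, hD⟩ : ∃ D, D = part W A * B - part W B * A := ⟨_, rfl⟩
  have hD0 : D ≠ 0 := by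
    rw [hD]
    exact sub_ne_zero.2 hne
  have hDne : D.coeff.support.Nonempty := by
    rw [Finset.nonempty_iff_ne_empty]
    intro h
    rw [Finsupp.support_eq_empty, AddMonoidAlgebra.coeff_eq_zero] at h
    exact hD0 h
  obtain ⟨s, hs⟩ : ∃ s, s = D.coeff.support.min' hDne := ⟨_, rfl⟩
  have gD : ∀ v, D.coeff v ≠ 0 → s ≤ v := by
    intro v hv
    rw [hs]
    exact Finset.min'_le _ _ (Finsupp.mem_support_iff.2 hv)
  have hDs : D.coeff s ≠ 0 := by
    have := Finset.min'_mem _ hDne
    rw [← hs] at this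
    exact Finsupp.mem_support_iff.1 this
  have hpD : part W D = 0 := by
    have h1 : part W A * B = part W B * A + D := by
      rw [hD]
      ring
    have h2 := congrArg (part W) h1
    rw [part_mul' B (part_part A), part_add, part_mul' A (part_part B), mul_comm] at h2
    exact left_eq_add.1 h2
  have hsW : s ∉ W := by
    intro h
    apply hDs
    rw [← coeff_part_mem D h, hpD, AddMonoidAlgebra.coeff_zero, Finsupp.zero_apply]
  refine ⟨s, hsW, fun g hg hg0 => ?_⟩
  have hcD : part W (cst A) * cst B - part W (cst B) * cst A = cst D := by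
    rw [part_cst, part_cst, hD, map_sub, map_mul, map_mul]
  have nz : ∀ z : ℤ, ((z : ℤ) : ℂ) ≠ 0 → z ≠ 0 := by
    intro z hz h
    rw [h, Int.cast_zero] at hz
    exact hz rfl
  have h := core (A := cst A) (B := cst B) (g := g) (W := W) (s := s)
    (fun u hu => hA u (Finsupp.mem_support_iff.2 (nz _ (by rwa [coeff_cst] at hu))))
    (fun u hu => hg u (Finsupp.mem_support_iff.2 hu)) hg0
    (by rw [coeff_cst]; exact_mod_cast hA0)
    (by
      rw [hcD]
      intro u hu
      exact gD u (nz _ (by rwa [coeff_cst] at hu)))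
    (by rw [hcD, coeff_cst]; exact_mod_cast hDs) hsW
  rw [h, hcD, coeff_cst, Complex.norm_intCast]
  exact_mod_cast Int.one_le_abs hDs

end Pool.Agent.H589.Boyd
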