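import Pool.Agent.H589.Boyd.Spec

/-! Monotone convergence: removing `δ` in `log (w + δ)`. -/

set_option autoImplicit false

namespace Pool.Agent.H589.Boyd

open MeasureTheory Filter Topology

namespace lim_

/-- the sequence `1 / (k + 2)` -/
noncomputable def d (k : ℕ) : ℝ := 1 / ((k : ℝ) + 2)

lemma d_pos (k : ℕ) : 0 < d k := by unfold d; positivity

lemma d_lt (k : ℕ) : d k < 1 := by
  unfold d
  rw [div_lt_one (by positivity)]
  have : (0 : ℝ) ≤ k := Nat.cast_nonneg k
  linarith

lemma d_anti : Antitone d := by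
  intro a b hab
  unfold d
  have h1 : (a : ℝ) ≤ b := by exact_mod_cast hab
  have h2 : (0 : ℝ) ≤ a := Nat.cast_nonneg a
  exact one_div_le_one_div_of_le (by linarith) (by linarith)

lemma d_tendsto : Tendsto d atTop (𝓝 0) := by
  have h1 : Tendsto (fun k : ℕ => (k : ℝ) + 2) atTop atTop :=
    tendsto_atTop_add_const_right _ _ tendsto_natCast_atTop_atTop
  exact Tendsto.div_atTop tendsto_const_nhds h1

end lim_

open lim_ in
theorem lim : S_Lim := by
  intro n w c hw h0 hc
  have hfc : ∀ k, Continuous fun θ => Real.log (w θ + d k) := fun k =>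
    (hw.add continuous_const).log fun θ => by
      have h1 := h0 θ
      have h2 := d_pos k
      have h3 : 0 < w θ + d k := by linarith
      exact h3.ne'
  have hfi : ∀ k, Integrable (fun θ => Real.log (w θ + d k)) (volume.restrict (cube n)) := fun k =>
    (hfc k).continuousOn.integrableOn_compact isCompact_Icc
  have hmono : ∀ (θ : Fin n → ℝ) (a b : ℕ), a ≤ b →
      Real.log (w θ + d b) ≤ Real.log (w θ + d a) := fun θ a b hab =>
    Real.log_le_log (by have := h0 θ; have := d_pos b; linarith)
      (by have := d_anti hab; linarith)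
  have hgm : ∀ k, Measurable fun θ => ENNReal.ofReal
      (Real.log (w θ + d 0) - Real.log (w θ + d k)) := fun k =>
    ((hfc 0).sub (hfc k)).measurable.ennreal_ofReal
  have hgmono : Monotone fun (k : ℕ) (θ : Fin n → ℝ) => ENNReal.ofReal
      (Real.log (w θ + d 0) - Real.log (w θ + d k)) := by
    intro a b hab θ
    exact ENNReal.ofReal_le_ofReal (by have := hmono θ a b hab; linarith)
  have hint : ∀ k, ∫⁻ θ in cube n, ENNReal.ofReal
      (Real.log (w θ + d 0) - Real.log (w θ + d k)) ≤
        ENNReal.ofReal ((∫ θ in cube n, Real.log (w θ + d 0)) - c) := by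
    intro k
    have h3 : Integrable (fun θ => Real.log (w θ + d 0) - Real.log (w θ + d k))
        (volume.restrict (cube n)) := (hfi 0).sub (hfi k)
    rw [← ofReal_integral_eq_lintegral_ofReal h3
      (Eventually.of_forall fun θ => by
        have := hmono θ 0 k (Nat.zero_le k)
        simp only [Pi.zero_apply]
        linarith)]
    refine ENNReal.ofReal_le_ofReal ?_
    have h1 := integral_sub (hfi 0) (hfi k)
    have h2 := hc (d k) (d_pos k) (d_lt k)
    rw [h1]
    linarith
  have hsup : ∫⁻ θ in cube n, ⨆ k, ENNReal.ofReal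
      (Real.log (w θ + d 0) - Real.log (w θ + d k)) ≤
        ENNReal.ofReal ((∫ θ in cube n, Real.log (w θ + d 0)) - c) := by
    rw [lintegral_iSup hgm hgmono]
    exact iSup_le hint
  have hfin : ∀ᵐ θ ∂(volume.restrict (cube n)), ⨆ k, ENNReal.ofReal
      (Real.log (w θ + d 0) - Real.log (w θ + d k)) < ⊤ :=
    ae_lt_top (Measurable.iSup hgm) (lt_of_le_of_lt hsup ENNReal.ofReal_lt_top).ne
  have hne : ∀ᵐ θ ∂(volume.restrict (cube n)), w θ ≠ 0 := by
    filter_upwards [hfin] with θ hθ hw0
    have h1 : Tendsto (fun k => Real.log (w θ + d 0) - Real.log (w θ + d k)) atTop atTop := by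
      have h2 : Tendsto (fun k => Real.log (w θ + d k)) atTop atBot := by
        simp only [hw0, zero_add]
        exact Real.tendsto_log_nhdsGT_zero.comp
          (tendsto_nhdsWithin_iff.2 ⟨d_tendsto, Eventually.of_forall d_pos⟩)
      have h3 := tendsto_neg_atBot_atTop.comp h2
      have h4 := tendsto_atTop_add_const_left atTop (Real.log (w θ + d 0)) h3
      refine h4.congr fun k => ?_
      simp only [Function.comp]
      ring
    have h2 : ∀ k, ENNReal.ofReal (Real.log (w θ + d 0) - Real.log (w θ + d k)) ≤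
        ⨆ k, ENNReal.ofReal (Real.log (w θ + d 0) - Real.log (w θ + d k)) := fun k =>
      le_iSup (fun k => ENNReal.ofReal (Real.log (w θ + d 0) - Real.log (w θ + d k))) k
    obtain ⟨k, hk⟩ := (h1.eventually_gt_atTop
      (⨆ k, ENNReal.ofReal (Real.log (w θ + d 0) - Real.log (w θ + d k))).toReal).exists
    have h3 := h2 k
    rw [ENNReal.ofReal_le_iff_le_toReal hθ.ne] at h3
    exact absurd hk (not_lt.2 h3)
  have hle : ∀ᵐ θ ∂(volume.restrict (cube n)),
      ENNReal.ofReal (Real.log (w θ + d 0) - Real.log (w θ)) ≤ ⨆ k, ENNReal.ofReal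
        (Real.log (w θ + d 0) - Real.log (w θ + d k)) := by
    filter_upwards [hne] with θ hθ
    have h1 : Tendsto (fun k => w θ + d k) atTop (𝓝 (w θ)) := by
      simpa using (tendsto_const_nhds (x := w θ)).add d_tendsto
    have h2 : Tendsto (fun k => ENNReal.ofReal (Real.log (w θ + d 0) - Real.log (w θ + d k)))
        atTop (𝓝 (ENNReal.ofReal (Real.log (w θ + d 0) - Real.log (w θ)))) :=
      ENNReal.tendsto_ofReal (tendsto_const_nhds.sub ((Real.continuousAt_log hθ).tendsto.comp h1))
    exact le_of_tendsto' h2 fun k =>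
      le_iSup (fun k => ENNReal.ofReal (Real.log (w θ + d 0) - Real.log (w θ + d k))) k
  have hh : ∫⁻ θ in cube n, ENNReal.ofReal (Real.log (w θ + d 0) - Real.log (w θ)) ≤
      ENNReal.ofReal ((∫ θ in cube n, Real.log (w θ + d 0)) - c) :=
    (lintegral_mono_ae hle).trans hsup
  have hnn : 0 ≤ᵐ[volume.restrict (cube n)] fun θ =>
      Real.log (w θ + d 0) - Real.log (w θ) := by
    filter_upwards [hne] with θ hθ
    have h1 : 0 < w θ := lt_of_le_of_ne (h0 θ) (Ne.symm hθ)
    have h2 : Real.log (w θ) ≤ Real.log (w θ + d 0) :=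
      Real.log_le_log h1 (by have := d_pos 0; linarith)
    simp only [Pi.zero_apply]
    linarith
  have hmeas : AEStronglyMeasurable (fun θ => Real.log (w θ + d 0) - Real.log (w θ))
      (volume.restrict (cube n)) :=
    ((hfc 0).measurable.sub (Real.measurable_log.comp hw.measurable)).aestronglyMeasurable
  have hhi : Integrable (fun θ => Real.log (w θ + d 0) - Real.log (w θ))
      (volume.restrict (cube n)) := by
    refine ⟨hmeas, ?_⟩
    rw [hasFiniteIntegral_iff_ofReal hnn]
    exact lt_of_le_of_lt hh ENNReal.ofReal_lt_top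
  have hK : 0 ≤ (∫ θ in cube n, Real.log (w θ + d 0)) - c := by
    have := hc (d 0) (d_pos 0) (d_lt 0)
    linarith
  have hhle : ∫ θ in cube n, (Real.log (w θ + d 0) - Real.log (w θ)) ≤
      (∫ θ in cube n, Real.log (w θ + d 0)) - c := by
    rw [integral_eq_lintegral_of_nonneg_ae hnn hmeas]
    have h1 := ENNReal.toReal_mono ENNReal.ofReal_ne_top hh
    rwa [ENNReal.toReal_ofReal hK] at h1
  have hlog : Integrable (fun θ => Real.log (w θ)) (volume.restrict (cube n)) := by
    have h1 := (hfi 0).sub hhi
    refine h1.congr (Eventually.of_forall fun θ => ?_)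
    simp only [Pi.sub_apply]
    ring
  refine ⟨hlog, hne, ?_⟩
  have h1 := integral_sub (hfi 0) hlog
  rw [h1] at hhle
  linarith

end Pool.Agent.H589.Boyd
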