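import Pool.Agent.H589.Boyd.Spec

/-!
# Boyd NDA: the pair `P`, `P*` (helper789)
-/

set_option autoImplicit false

open MeasureTheory

namespace Pool.Agent.H589.Boyd

namespace nda_

variable {n : ℕ}

/-- exponents of polynomials as exponents of Laurent polynomials -/
noncomputable def io (n : ℕ) : (Fin n →₀ ℕ) →+ G n where
  toFun e := toLex fun i => (e i : ℤ)
  map_zero' := by
    apply ofLex.injective
    ext i
    simp
    rfl
  map_add' a b := by
    apply ofLex.injective
    ext i
    simp
    rfl

theorem io_apply (e : Fin n →₀ ℕ) (i : Fin n) : ofLex (io n e) i = (e i : ℤ) := rfl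

theorem io_inj : Function.Injective (io n) := by
  intro a b h
  ext i
  have h1 := congrFun (congrArg ofLex h) i
  rw [io_apply, io_apply] at h1
  exact_mod_cast h1

theorem io_sub {c e : Fin n →₀ ℕ} (h : e ≤ c) : io n (c - e) = io n c - io n e := by
  rw [eq_sub_iff_add_eq, ← map_add, tsub_add_cancel_of_le h]

/-- a sum of monomials -/
noncomputable def sm (j : (Fin n →₀ ℕ) → G n) (S : Finset (Fin n →₀ ℕ)) (a : (Fin n →₀ ℕ) → ℤ) :
    AddMonoidAlgebra ℤ (G n) := ∑ e ∈ S, AddMonoidAlgebra.single (j e) (a e)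

open Classical in
theorem coeff_sm (j : (Fin n →₀ ℕ) → G n) (S : Finset (Fin n →₀ ℕ)) (a : (Fin n →₀ ℕ) → ℤ) (u : G n) :
    (sm j S a).coeff u = ∑ e ∈ S, if j e = u then a e else 0 := by
  unfold sm
  rw [AddMonoidAlgebra.coeff_sum, Finsupp.finsetSum_apply]
  refine Finset.sum_congr rfl fun e _ => ?_
  rw [AddMonoidAlgebra.coeff_single, Finsupp.single_apply]

open Classical in
theorem coeff_part (W : AddSubgroup (G n)) (X : AddMonoidAlgebra ℤ (G n)) (u : G n) :
    (part W X).coeff u = if u ∈ W then X.coeff u else 0 := by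
  unfold part
  rw [AddMonoidAlgebra.coeff_sum, Finsupp.finsetSum_apply]
  simp only [AddMonoidAlgebra.coeff_single, Finsupp.single_apply]
  rw [Finset.sum_ite_eq']
  by_cases h1 : u ∈ W
  · by_cases h2 : X.coeff u = 0
    · simp [h1, h2]
    · simp [h1, h2]
  · simp [h1]

open Classical in
theorem part_sm (W : AddSubgroup (G n)) (j : (Fin n →₀ ℕ) → G n) (S : Finset (Fin n →₀ ℕ))
    (a : (Fin n →₀ ℕ) → ℤ) : part W (sm j S a) = sm j (S.filter fun e => j e ∈ W) a := by
  apply AddMonoidAlgebra.ext
  ext u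
  rw [coeff_part, coeff_sm, coeff_sm, Finset.sum_filter]
  by_cases h : u ∈ W
  · rw [if_pos h]
    refine Finset.sum_congr rfl fun e _ => ?_
    by_cases h1 : j e = u
    · rw [if_pos h1, if_pos (by rw [h1]; exact h)]
    · rw [if_neg h1]
      simp
  · rw [if_neg h]
    symm
    apply Finset.sum_eq_zero
    intro e _
    by_cases h1 : j e = u
    · rw [if_neg (by rw [h1]; exact h)]
    · rw [if_neg h1]
      simp

theorem shift (b : G n) (j : (Fin n →₀ ℕ) → G n) (S : Finset (Fin n →₀ ℕ))
    (a : (Fin n →₀ ℕ) → ℤ) :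
    AddMonoidAlgebra.single b (1 : ℤ) * sm j S a = sm (fun e => b + j e) S a := by
  unfold sm
  rw [Finset.mul_sum]
  refine Finset.sum_congr rfl fun e _ => ?_
  rw [AddMonoidAlgebra.single_mul_single, one_mul]

theorem sm_congr (j j' : (Fin n →₀ ℕ) → G n) (S : Finset (Fin n →₀ ℕ))
    (a : (Fin n →₀ ℕ) → ℤ) (h : ∀ e ∈ S, j e = j' e) : sm j S a = sm j' S a := by
  unfold sm
  exact Finset.sum_congr rfl fun e he => by rw [h e he]

/-- polynomials as Laurent polynomials -/
noncomputable def EE (n : ℕ) : MvPolynomial (Fin n) ℤ →+* AddMonoidAlgebra ℤ (G n) :=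
  AddMonoidAlgebra.mapDomainRingHom ℤ (io n)

theorem EE_inj : Function.Injective (EE n) := AddMonoidAlgebra.mapDomain_injective io_inj

theorem EE_monomial (e : Fin n →₀ ℕ) (a : ℤ) :
    EE n (MvPolynomial.monomial e a) = AddMonoidAlgebra.single (io n e) a :=
  AddMonoidAlgebra.mapDomain_single

/-- a sum of monomials -/
noncomputable def mo (f : (Fin n →₀ ℕ) → (Fin n →₀ ℕ)) (S : Finset (Fin n →₀ ℕ))
    (a : (Fin n →₀ ℕ) → ℤ) : MvPolynomial (Fin n) ℤ := ∑ e ∈ S, MvPolynomial.monomial (f e) (a e)

theorem EE_mo (f : (Fin n →₀ ℕ) → (Fin n →₀ ℕ)) (S : Finset (Fin n →₀ ℕ))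
    (a : (Fin n →₀ ℕ) → ℤ) : EE n (mo f S a) = sm (fun e => io n (f e)) S a := by
  unfold mo sm
  rw [map_sum]
  exact Finset.sum_congr rfl fun e _ => EE_monomial _ _

open Classical in
theorem coeff_mo (f : (Fin n →₀ ℕ) → (Fin n →₀ ℕ)) (S : Finset (Fin n →₀ ℕ))
    (a : (Fin n →₀ ℕ) → ℤ) (m : Fin n →₀ ℕ) :
    (mo f S a).coeff m = ∑ e ∈ S, if f e = m then a e else 0 := by
  unfold mo
  rw [MvPolynomial.coeff_sum]
  exact Finset.sum_congr rfl fun e _ => MvPolynomial.coeff_monomial _ _ _

/-- the character -/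
noncomputable def ch (θ : Fin n → ℝ) (u : G n) : ℂ :=
  Complex.exp (2 * (Real.pi : ℂ) * Complex.I * ((∑ i, ((ofLex u i : ℤ) : ℝ) * θ i : ℝ) : ℂ))

theorem ch_add (θ : Fin n → ℝ) (u v : G n) : ch θ (u + v) = ch θ u * ch θ v := by
  unfold ch
  rw [← Complex.exp_add, ← mul_add, ← Complex.ofReal_add, ← Finset.sum_add_distrib]
  congr 3
  refine Finset.sum_congr rfl fun i _ => ?_
  have h : ofLex (u + v) i = ofLex u i + ofLex v i := rfl
  rw [h]
  push_cast
  ring

theorem ch_norm (θ : Fin n → ℝ) (u : G n) : ‖ch θ u‖ = 1 := by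
  unfold ch
  have h : 2 * (Real.pi : ℂ) * Complex.I * ((∑ i, ((ofLex u i : ℤ) : ℝ) * θ i : ℝ) : ℂ) =
      ((2 * Real.pi * (∑ i, ((ofLex u i : ℤ) : ℝ) * θ i) : ℝ) : ℂ) * Complex.I := by
    push_cast
    ring
  rw [h, Complex.norm_exp_ofReal_mul_I]

theorem ch_neg (θ : Fin n → ℝ) (u : G n) : ch θ (-u) = (starRingEnd ℂ) (ch θ u) := by
  unfold ch
  rw [← Complex.exp_conj]
  congr 1
  rw [map_mul, map_mul, map_mul, Complex.conj_I, Complex.conj_ofReal, Complex.conj_ofReal]
  have h : ∀ i, ofLex (-u) i = - ofLex u i := fun i => rfl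
  simp only [h]
  have h2 : (starRingEnd ℂ) 2 = 2 := Complex.conj_ofReal 2
  rw [h2]
  push_cast
  simp only [neg_mul, Finset.sum_neg_distrib]
  ring

/-- evaluation as a ring homomorphism -/
noncomputable def evH (θ : Fin n → ℝ) : AddMonoidAlgebra ℂ (G n) →ₐ[ℂ] ℂ :=
  AddMonoidAlgebra.lift ℂ ℂ (G n)
    { toFun := fun u => ch θ u.toAdd
      map_one' := by
        show ch θ 0 = 1
        unfold ch
        have h : ∀ i, ofLex (0 : G n) i = 0 := fun i => rfl
        simp [h]
      map_mul' := fun u v => ch_add θ _ _ }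

theorem ev_eq (X : AddMonoidAlgebra ℂ (G n)) (θ : Fin n → ℝ) : ev X θ = evH θ X := by
  unfold evH
  rw [AddMonoidAlgebra.lift_apply']
  rfl

theorem evH_single (θ : Fin n → ℝ) (u : G n) (z : ℂ) :
    evH θ (AddMonoidAlgebra.single u z) = z * ch θ u := by
  unfold evH
  rw [AddMonoidAlgebra.lift_single]
  rfl

theorem ev_sm (θ : Fin n → ℝ) (j : (Fin n →₀ ℕ) → G n) (S : Finset (Fin n →₀ ℕ))
    (a : (Fin n →₀ ℕ) → ℤ) :
    ev (cst (sm j S a)) θ = ∑ e ∈ S, (a e : ℂ) * ch θ (j e) := by
  rw [ev_eq]
  unfold sm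
  rw [map_sum, map_sum]
  refine Finset.sum_congr rfl fun e _ => ?_
  have h : cst (AddMonoidAlgebra.single (j e) (a e)) =
      AddMonoidAlgebra.single (j e) ((a e : ℤ) : ℂ) := by
    unfold cst
    rw [AddMonoidAlgebra.mapRingHom_single]
    rfl
  rw [h, evH_single]

theorem val_eq (P : MvPolynomial (Fin n) ℤ) (θ : Fin n → ℝ) :
    val P θ = ∑ e ∈ P.support, ((P.coeff e : ℤ) : ℂ) * ch θ (io n e) := by
  unfold val
  rw [MvPolynomial.eval₂_eq']
  refine Finset.sum_congr rfl fun e _ => ?_
  congr 1
  unfold ch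
  simp only [io_apply]
  simp only [← Complex.exp_nat_mul]
  rw [← Complex.exp_sum]
  congr 1
  push_cast
  rw [Finset.mul_sum]
  refine Finset.sum_congr rfl fun i _ => ?_
  ring

/-- a divisor with the same degrees is constant -/
theorem const_quot {A P K : MvPolynomial (Fin n) ℤ} (hA : A ≠ 0) (h : A = P * K)
    (hd : ∀ i, A.degreeOf i ≤ P.degreeOf i) : ∃ k : ℤ, A = MvPolynomial.C k * P := by
  have hP : P ≠ 0 := by rintro rfl; exact hA (by rw [h, zero_mul])
  have hK : K ≠ 0 := by rintro rfl; exact hA (by rw [h, mul_zero])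
  have h0 : ∀ i, K.degreeOf i = 0 := by
    intro i
    have h1 := hd i
    rw [h, MvPolynomial.degreeOf_mul_eq hP hK] at h1
    omega
  refine ⟨K.coeff 0, ?_⟩
  have h2 : K = MvPolynomial.C (K.coeff 0) := by
    apply MvPolynomial.ext
    intro m
    rw [MvPolynomial.coeff_C]
    by_cases hm : (0 : Fin n →₀ ℕ) = m
    · rw [if_pos hm, ← hm]
    · rw [if_neg hm]
      by_contra hc
      apply hm
      have h3 : m ∈ K.support := MvPolynomial.mem_support_iff.2 hc
      ext i
      have h4 := MvPolynomial.monomial_le_degreeOf i h3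
      rw [h0 i] at h4
      show 0 = m i
      omega
  rw [h, ← h2, mul_comm]

/-- real vectors of the exponents -/
noncomputable def ps (n : ℕ) : G n →+ (Fin n → ℝ) where
  toFun u := fun i => ((ofLex u i : ℤ) : ℝ)
  map_zero' := by
    ext i
    have h : ofLex (0 : G n) i = 0 := rfl
    rw [h]
    simp
  map_add' a b := by
    ext i
    have h : ofLex (a + b) i = ofLex a i + ofLex b i := rfl
    rw [h]
    simp

theorem span_closure (T : Finset (G n)) {u : G n} (hu : u ∈ AddSubgroup.closure (T : Set (G n))) :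
    ps n u ∈ Submodule.span ℝ (ps n '' (T : Set (G n))) := by
  have h : AddSubgroup.closure (T : Set (G n)) ≤
      ((Submodule.span ℝ (ps n '' (T : Set (G n)))).toAddSubgroup).comap (ps n) := by
    rw [AddSubgroup.closure_le]
    intro x hx
    exact Submodule.subset_span ⟨x, hx, rfl⟩
  exact h hu

theorem dim_le (P : MvPolynomial (Fin n) ℤ) (T : Finset (G n)) (e0 : Fin n →₀ ℕ)
    (he0 : e0 ∈ P.support)
    (h : ∀ e ∈ P.support, io n e - io n e0 ∈ AddSubgroup.closure (T : Set (G n))) :
    dim P ≤ T.card := by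
  classical
  unfold dim
  have h1 : vectorSpan ℝ ((fun e : Fin n →₀ ℕ => fun i : Fin n => (e i : ℝ)) ''
      (P.support : Set (Fin n →₀ ℕ))) ≤ Submodule.span ℝ (ps n '' (T : Set (G n))) := by
    rw [vectorSpan_eq_span_vsub_set_right ℝ (Set.mem_image_of_mem _ (Finset.mem_coe.2 he0)),
      Submodule.span_le]
    rintro _ ⟨_, ⟨e, he, rfl⟩, rfl⟩
    have h2 := span_closure T (h e he)
    have h3 : ps n (io n e - io n e0) =
        (fun i : Fin n => (e i : ℝ)) -ᵥ (fun i : Fin n => (e0 i : ℝ)) := by
      rw [map_sub, vsub_eq_sub]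
      ext i
      show ((ofLex (io n e) i : ℤ) : ℝ) - ((ofLex (io n e0) i : ℤ) : ℝ) = (e i : ℝ) - (e0 i : ℝ)
      rw [io_apply, io_apply]
      push_cast
      rfl
    rw [h3] at h2
    exact h2
  refine (Submodule.finrank_mono h1).trans ?_
  rw [← Finset.coe_image]
  exact (finrank_span_finset_le_card _).trans Finset.card_image_le

end nda_

open nda_ in
theorem nda : S_NDA := by
  classical
  intro n P hP hrec
  have hP0 : P ≠ 0 := hP.ne_zero
  have hne : P.support.Nonempty := MvPolynomial.support_nonempty.2 hP0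
  obtain ⟨e0, he0, hmin⟩ := Finset.exists_min_image P.support (io n) hne
  obtain ⟨e1, he1, hmax⟩ := Finset.exists_max_image P.support (io n) hne
  set a : (Fin n →₀ ℕ) → ℤ := fun e => P.coeff e with ha
  set q0 : AddMonoidAlgebra ℤ (G n) := sm (fun e => io n e - io n e0) P.support a with hq0
  set q1 : AddMonoidAlgebra ℤ (G n) := sm (fun e => io n e1 - io n e) P.support a with hq1
  have hsupp : ∀ (j : (Fin n →₀ ℕ) → G n) (u : G n), (sm j P.support a).coeff u ≠ 0 →
      ∃ e ∈ P.support, j e = u := by
    intro j u hu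
    by_contra hcon
    push Not at hcon
    apply hu
    rw [coeff_sm]
    exact Finset.sum_eq_zero fun e he => if_neg (hcon e he)
  refine ⟨![q0, q1], 0, ⟨?_, ?_, ?_⟩, ?_⟩
  · intro j u hu
    rw [Finsupp.mem_support_iff] at hu
    fin_cases j
    · obtain ⟨e, he, h⟩ := hsupp _ u hu
      rw [← h, sub_nonneg]
      exact hmin e he
    · obtain ⟨e, he, h⟩ := hsupp _ u hu
      rw [← h, sub_nonneg]
      exact hmax e he
  · show q0.coeff 0 ≠ 0
    rw [hq0, coeff_sm, Finset.sum_eq_single e0]
    · rw [if_pos (sub_self _)]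
      exact MvPolynomial.mem_support_iff.1 he0
    · intro e _ hee
      rw [if_neg]
      intro h
      exact hee (io_inj (sub_eq_zero.1 h))
    · intro h
      exact absurd he0 h
  · intro T hT
    refine ⟨1, ?_⟩
    show part (AddSubgroup.closure (T : Set (G n))) q0 * q1 ≠
      part (AddSubgroup.closure (T : Set (G n))) q1 * q0
    set W := AddSubgroup.closure (T : Set (G n)) with hW
    intro hEq
    rw [hq0, hq1, part_sm, part_sm, ← hq0, ← hq1] at hEq
    set S0 := P.support.filter fun e => io n e - io n e0 ∈ W with hS0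
    set S1 := P.support.filter fun e => io n e1 - io n e ∈ W with hS1
    -- the top exponent
    set cc : Fin n →₀ ℕ := Finsupp.equivFunOnFinite.symm (fun i => P.degreeOf i) with hcc
    have hcci : ∀ i, cc i = P.degreeOf i := fun i => rfl
    have hle : ∀ e ∈ P.support, e ≤ cc := by
      intro e he i
      rw [hcci]
      exact MvPolynomial.monomial_le_degreeOf i he
    set R := mo (fun e => e) S0 a with hR
    set R' := mo (fun e => cc - e) S1 a with hR'
    set Ps := mo (fun e => cc - e) P.support a with hPs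
    have hPm : mo (fun e => e) P.support a = P := by
      apply MvPolynomial.ext
      intro m
      rw [coeff_mo, Finset.sum_ite_eq']
      by_cases hm : m ∈ P.support
      · rw [if_pos hm]
      · rw [if_neg hm]
        rw [MvPolynomial.mem_support_iff, not_not] at hm
        exact hm.symm
    have E1 : EE n R = AddMonoidAlgebra.single (io n e0) 1 * sm (fun e => io n e - io n e0) S0 a := by
      rw [shift, hR, EE_mo]
      exact sm_congr _ _ _ _ fun e _ => by abel
    have E2 : EE n P = AddMonoidAlgebra.single (io n e0) 1 * q0 := by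
      conv_lhs => rw [← hPm]
      rw [hq0, shift, EE_mo]
      exact sm_congr _ _ _ _ fun e _ => by abel
    have E3 : EE n R' = AddMonoidAlgebra.single (io n cc - io n e1) 1 *
        sm (fun e => io n e1 - io n e) S1 a := by
      rw [shift, hR', EE_mo]
      refine sm_congr _ _ _ _ fun e he => ?_
      rw [io_sub (hle e (Finset.mem_filter.1 he).1)]
      abel
    have E4 : EE n Ps = AddMonoidAlgebra.single (io n cc - io n e1) 1 * q1 := by
      rw [hq1, shift, hPs, EE_mo]
      refine sm_congr _ _ _ _ fun e he => ?_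
      rw [io_sub (hle e he)]
      abel
    have hmul : R * Ps = R' * P := by
      apply EE_inj
      rw [map_mul, map_mul, E1, E2, E3, E4]
      calc _ = AddMonoidAlgebra.single (io n e0) 1 * AddMonoidAlgebra.single (io n cc - io n e1) 1 *
            (sm (fun e => io n e - io n e0) S0 a * q1) := by ring
        _ = _ := by rw [hEq]; ring
    have hprime : Prime P := hP.prime
    have hdvd : P ∣ R * Ps := by rw [hmul]; exact Dvd.intro_left _ rfl
    have hRc : ∀ m, R.coeff m = if m ∈ S0 then P.coeff m else 0 := by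
      intro m
      rw [hR, coeff_mo, Finset.sum_ite_eq']
    have he0S : e0 ∈ S0 := by
      rw [hS0, Finset.mem_filter]
      refine ⟨he0, ?_⟩
      rw [sub_self]
      exact W.zero_mem
    rcases hprime.dvd_or_dvd hdvd with ⟨K, hK⟩ | ⟨K, hK⟩
    · have hR0 : R ≠ 0 := by
        intro h
        have h1 := hRc e0
        rw [h, if_pos he0S, MvPolynomial.coeff_zero] at h1
        exact MvPolynomial.mem_support_iff.1 he0 h1.symm
      have hd : ∀ i, R.degreeOf i ≤ P.degreeOf i := by
        intro i
        rw [MvPolynomial.degreeOf_le_iff]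
        intro m hm
        apply MvPolynomial.monomial_le_degreeOf i
        rw [MvPolynomial.mem_support_iff] at hm ⊢
        rw [hRc] at hm
        by_cases h : m ∈ S0
        · rwa [if_pos h] at hm
        · rw [if_neg h] at hm
          exact absurd rfl hm
      obtain ⟨k, hk⟩ := const_quot hR0 hK hd
      have hk1 : k = 1 := by
        have h1 := hRc e0
        rw [if_pos he0S, hk, MvPolynomial.coeff_C_mul] at h1
        have h2 : P.coeff e0 ≠ 0 := MvPolynomial.mem_support_iff.1 he0
        have h3 : (k - 1) * P.coeff e0 = 0 := by linear_combination h1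
        rcases mul_eq_zero.1 h3 with h | h
        · omega
        · exact absurd h h2
      rw [hk1, map_one, one_mul] at hk
      have hall : ∀ e ∈ P.support, io n e - io n e0 ∈ W := by
        intro e he
        have h1 := hRc e
        rw [hk] at h1
        by_cases h : e ∈ S0
        · exact (Finset.mem_filter.1 h).2
        · rw [if_neg h] at h1
          exact absurd h1 (MvPolynomial.mem_support_iff.1 he)
      have := dim_le P T e0 he0 hall
      omega
    · have hPsc : ∀ m, m ≤ cc → Ps.coeff m = P.coeff (cc - m) := by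
        intro m hm
        rw [hPs, coeff_mo]
        have h1 : ∀ e ∈ P.support, (if cc - e = m then a e else 0) =
            if e = cc - m then a e else 0 := by
          intro e he
          have h2 : cc - e = m ↔ e = cc - m := by
            constructor
            · intro h
              rw [← h]
              exact (tsub_tsub_cancel_of_le (hle e he)).symm
            · intro h
              rw [h]
              exact tsub_tsub_cancel_of_le hm
          simp only [h2]
        rw [Finset.sum_congr rfl h1, Finset.sum_ite_eq']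
        by_cases h : cc - m ∈ P.support
        · rw [if_pos h]
        · rw [if_neg h]
          rw [MvPolynomial.mem_support_iff, not_not] at h
          exact h.symm
      have hPsn : ∀ m, Ps.coeff m ≠ 0 → m ≤ cc := by
        intro m hm
        by_contra hcon
        apply hm
        rw [hPs, coeff_mo]
        refine Finset.sum_eq_zero fun e _ => if_neg ?_
        intro h
        apply hcon
        rw [← h]
        exact tsub_le_self
      have hPs0 : Ps ≠ 0 := by
        intro h
        have h1 := hPsc (cc - e0) tsub_le_self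
        rw [h, MvPolynomial.coeff_zero, tsub_tsub_cancel_of_le (hle e0 he0)] at h1
        exact MvPolynomial.mem_support_iff.1 he0 h1.symm
      have hd : ∀ i, Ps.degreeOf i ≤ P.degreeOf i := by
        intro i
        rw [MvPolynomial.degreeOf_le_iff]
        intro m hm
        rw [MvPolynomial.mem_support_iff] at hm
        exact hPsn m hm i
      obtain ⟨k, hk⟩ := const_quot hPs0 hK hd
      have hrel : ∀ m, m ≤ cc → P.coeff (cc - m) = k * P.coeff m := by
        intro m hm
        rw [← hPsc m hm, hk, MvPolynomial.coeff_C_mul]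
      have hk2 : k * k = 1 := by
        have h1 := hrel e0 (hle e0 he0)
        have h2 := hrel (cc - e0) tsub_le_self
        rw [tsub_tsub_cancel_of_le (hle e0 he0), h1] at h2
        have h3 : P.coeff e0 ≠ 0 := MvPolynomial.mem_support_iff.1 he0
        have h4 : (k * k - 1) * P.coeff e0 = 0 := by linear_combination -h2
        rcases mul_eq_zero.1 h4 with h | h
        · omega
        · exact absurd h h3
      apply hrec
      exact ⟨cc, k, mul_self_eq_one_iff.1 hk2, hle, fun e he => hrel e (hle e he)⟩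
  · intro θ
    rw [Fin.sum_univ_two]
    show ‖ev (cst q0) θ‖ ^ 2 + ‖ev (cst q1) θ‖ ^ 2 = 2 * ‖val P θ‖ ^ 2
    have h0 : ‖ev (cst q0) θ‖ = ‖val P θ‖ := by
      rw [hq0, ev_sm, val_eq]
      have h1 : ∀ e ∈ P.support, ((a e : ℤ) : ℂ) * ch θ (io n e - io n e0) =
          ch θ (- io n e0) * (((P.coeff e : ℤ) : ℂ) * ch θ (io n e)) := by
        intro e _
        rw [sub_eq_add_neg, ch_add]
        ring
      rw [Finset.sum_congr rfl h1, ← Finset.mul_sum, norm_mul, ch_norm, one_mul]
    have h2 : ‖ev (cst q1) θ‖ = ‖val P θ‖ := by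
      rw [hq1, ev_sm, val_eq]
      have h1 : ∀ e ∈ P.support, ((a e : ℤ) : ℂ) * ch θ (io n e1 - io n e) =
          ch θ (io n e1) * (starRingEnd ℂ) (((P.coeff e : ℤ) : ℂ) * ch θ (io n e)) := by
        intro e _
        rw [sub_eq_add_neg, ch_add, ch_neg, map_mul, map_intCast]
        ring
      rw [Finset.sum_congr rfl h1, ← Finset.mul_sum, norm_mul, ch_norm, one_mul, ← map_sum,
        Complex.norm_conj]
    rw [h0, h2]
    ring

end Pool.Agent.H589.Boyd

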