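import Pool.Agent.H589.Boyd.Spec

/-!
# Boyd's conjecture: approximate outer functions (helper282)
-/

set_option autoImplicit false

open MeasureTheory

namespace Pool.Agent.H589.Boyd.Out_

open Finset

/-- the character `u` of the torus -/
noncomputable def chi {n : ℕ} (u : G n) (θ : Fin n → ℝ) : ℂ :=
  Complex.exp (2 * (Real.pi : ℂ) * Complex.I * ((∑ i, ((ofLex u i : ℤ) : ℝ) * θ i : ℝ) : ℂ))

theorem norm_chi {n : ℕ} (u : G n) (θ : Fin n → ℝ) : ‖chi u θ‖ = 1 := by
  unfold chi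
  rw [Complex.norm_exp]
  have : (2 * (Real.pi : ℂ) * Complex.I * ((∑ i, ((ofLex u i : ℤ) : ℝ) * θ i : ℝ) : ℂ)).re = 0 := by
    have e : (2 * (Real.pi : ℂ) * Complex.I * ((∑ i, ((ofLex u i : ℤ) : ℝ) * θ i : ℝ) : ℂ)) =
      ((2 * Real.pi * (∑ i, ((ofLex u i : ℤ) : ℝ) * θ i) : ℝ) : ℂ) * Complex.I := by
      push_cast
      ring
    rw [e, Complex.re_ofReal_mul, Complex.I_re, mul_zero]
  rw [this, Real.exp_zero]

theorem chi_zero {n : ℕ} (θ : Fin n → ℝ) : chi (0 : G n) θ = 1 := by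
  unfold chi
  have : (∑ i, ((ofLex (0 : G n) i : ℤ) : ℝ) * θ i : ℝ) = 0 := by
    refine Finset.sum_eq_zero fun i _ => ?_
    have : (ofLex (0 : G n) i : ℤ) = 0 := rfl
    rw [this, Int.cast_zero, zero_mul]
  rw [this, Complex.ofReal_zero, mul_zero, Complex.exp_zero]

theorem chi_neg {n : ℕ} (u : G n) (θ : Fin n → ℝ) : chi (-u) θ = (starRingEnd ℂ) (chi u θ) := by
  unfold chi
  rw [← Complex.exp_conj]
  congr 1
  rw [map_mul, map_mul, map_mul, Complex.conj_ofReal, Complex.conj_ofReal, Complex.conj_I]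
  have h2 : (starRingEnd ℂ) 2 = 2 := Complex.conj_ofNat 2
  rw [h2]
  have e : (∑ i, ((ofLex (-u) i : ℤ) : ℝ) * θ i : ℝ) = -(∑ i, ((ofLex u i : ℤ) : ℝ) * θ i : ℝ) := by
    rw [← Finset.sum_neg_distrib]
    refine Finset.sum_congr rfl fun i _ => ?_
    have : (ofLex (-u) i : ℤ) = -(ofLex u i) := rfl
    rw [this]
    push_cast
    ring
  rw [e]
  push_cast
  ring

theorem ev_eq {n : ℕ} (X : AddMonoidAlgebra ℂ (G n)) (θ : Fin n → ℝ) :
    ev X θ = X.coeff.sum (fun u a => a * chi u θ) := rfl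

theorem ev_add {n : ℕ} (X Y : AddMonoidAlgebra ℂ (G n)) (θ : Fin n → ℝ) :
    ev (X + Y) θ = ev X θ + ev Y θ := by
  rw [ev_eq, ev_eq, ev_eq, AddMonoidAlgebra.coeff_add]
  exact Finsupp.sum_add_index' (fun u => by simp) (fun u a b => by ring)

theorem ev_zero {n : ℕ} (θ : Fin n → ℝ) : ev (0 : AddMonoidAlgebra ℂ (G n)) θ = 0 := by
  rw [ev_eq, AddMonoidAlgebra.coeff_zero]
  exact Finsupp.sum_zero_index

theorem ev_single {n : ℕ} (u : G n) (a : ℂ) (θ : Fin n → ℝ) :
    ev (AddMonoidAlgebra.single u a) θ = a * chi u θ := by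
  rw [ev_eq, AddMonoidAlgebra.coeff_single]
  exact Finsupp.sum_single_index (by simp)

theorem ev_one {n : ℕ} (θ : Fin n → ℝ) : ev (1 : AddMonoidAlgebra ℂ (G n)) θ = 1 := by
  rw [AddMonoidAlgebra.one_def, ev_single, chi_zero, one_mul]

theorem ev_sum {n : ℕ} {ι : Type} (s : Finset ι) (f : ι → AddMonoidAlgebra ℂ (G n)) (θ : Fin n → ℝ) :
    ev (∑ i ∈ s, f i) θ = ∑ i ∈ s, ev (f i) θ := by
  classical
  induction s using Finset.induction_on with
  | empty => simp [ev_zero]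
  | insert a s ha ih => rw [Finset.sum_insert ha, Finset.sum_insert ha, ev_add, ih]

theorem norm_ev {n : ℕ} (X : AddMonoidAlgebra ℂ (G n)) (θ : Fin n → ℝ) :
    ‖ev X θ‖ ≤ ∑ u ∈ X.coeff.support, ‖X.coeff u‖ := by
  refine (norm_sum_le _ _).trans (Finset.sum_le_sum fun u _ => ?_)
  rw [norm_mul]
  exact (by rw [show ‖Complex.exp (2 * (Real.pi : ℂ) * Complex.I *
    ((∑ i, ((ofLex u i : ℤ) : ℝ) * θ i : ℝ) : ℂ))‖ = 1 from norm_chi u θ, mul_one] :
    ‖X.coeff u‖ * ‖Complex.exp (2 * (Real.pi : ℂ) * Complex.I *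
    ((∑ i, ((ofLex u i : ℤ) : ℝ) * θ i : ℝ) : ℂ))‖ = ‖X.coeff u‖).le

/-- all exponents are positive -/
def Pos {n : ℕ} (X : AddMonoidAlgebra ℂ (G n)) : Prop := ∀ u ∈ X.coeff.support, 0 < u

/-- all exponents are nonnegative -/
def NonN {n : ℕ} (X : AddMonoidAlgebra ℂ (G n)) : Prop := ∀ u ∈ X.coeff.support, 0 ≤ u

theorem Pos.nonN {n : ℕ} {X : AddMonoidAlgebra ℂ (G n)} (h : Pos X) : NonN X := fun u hu => (h u hu).le

theorem Pos.coeff {n : ℕ} {X : AddMonoidAlgebra ℂ (G n)} (h : Pos X) : X.coeff 0 = 0 := by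
  by_contra h0
  exact lt_irrefl _ (h 0 (Finsupp.mem_support_iff.2 h0))

theorem nonN_add {n : ℕ} {X Y : AddMonoidAlgebra ℂ (G n)} (hX : NonN X) (hY : NonN Y) :
    NonN (X + Y) := by
  classical
  intro u hu
  rcases Finset.mem_union.1 (Finsupp.support_add hu) with h | h
  · exact hX u h
  · exact hY u h

theorem pos_add {n : ℕ} {X Y : AddMonoidAlgebra ℂ (G n)} (hX : Pos X) (hY : Pos Y) :
    Pos (X + Y) := by
  classical
  intro u hu
  rcases Finset.mem_union.1 (Finsupp.support_add hu) with h | h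
  · exact hX u h
  · exact hY u h

theorem pos_zero {n : ℕ} : Pos (0 : AddMonoidAlgebra ℂ (G n)) := by
  intro u hu
  simp at hu

theorem pos_sum {n : ℕ} {ι : Type} (s : Finset ι) (f : ι → AddMonoidAlgebra ℂ (G n))
    (h : ∀ i ∈ s, Pos (f i)) : Pos (∑ i ∈ s, f i) := by
  classical
  induction s using Finset.induction_on with
  | empty => simpa using pos_zero
  | insert a s ha ih =>
    rw [Finset.sum_insert ha]
    exact pos_add (h a (Finset.mem_insert_self a s)) (ih fun i hi => h i (Finset.mem_insert_of_mem hi))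

theorem pos_single {n : ℕ} {u : G n} (hu : 0 < u) (a : ℂ) : Pos (AddMonoidAlgebra.single u a) := by
  intro v hv
  rw [AddMonoidAlgebra.coeff_single] at hv
  have := Finsupp.support_single_subset hv
  rw [Finset.mem_singleton] at this
  rw [this]
  exact hu

theorem nonN_single {n : ℕ} (a : ℂ) : NonN (AddMonoidAlgebra.single (0 : G n) a) := by
  intro v hv
  rw [AddMonoidAlgebra.coeff_single] at hv
  have := Finsupp.support_single_subset hv
  rw [Finset.mem_singleton] at this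
  rw [this]

theorem pos_mul {n : ℕ} {X Y : AddMonoidAlgebra ℂ (G n)} (hX : NonN X) (hY : Pos Y) :
    Pos (X * Y) := by
  classical
  intro u hu
  obtain ⟨a, ha, b, hb, rfl⟩ := Finset.mem_add.1 (AddMonoidAlgebra.support_coeff_mul_subset X Y hu)
  exact add_pos_of_nonneg_of_pos (hX a ha) (hY b hb)

theorem nonN_pow {n : ℕ} {X : AddMonoidAlgebra ℂ (G n)} (hX : Pos X) (k : ℕ) : NonN (X ^ k) ∧ (1 ≤ k → Pos (X ^ k)) := by
  induction k with
  | zero =>
    refine ⟨?_, fun h => by omega⟩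
    rw [pow_zero, AddMonoidAlgebra.one_def]
    exact nonN_single 1
  | succ k ih =>
    have h : Pos (X ^ (k + 1)) := by
      rw [pow_succ]
      exact pos_mul ih.1 hX
    exact ⟨h.nonN, fun _ => h⟩

/-- the positive part of `T` plus the conjugate of the negative part -/
theorem exists_h {n : ℕ} (T : AddMonoidAlgebra ℂ (G n)) :
    ∃ h : AddMonoidAlgebra ℂ (G n), Pos h ∧ ∀ θ, (ev T θ).re = (T.coeff 0).re + (ev h θ).re := by
  classical
  let piece : G n → AddMonoidAlgebra ℂ (G n) := fun u =>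
    if 0 < u then AddMonoidAlgebra.single u (T.coeff u)
    else if u < 0 then AddMonoidAlgebra.single (-u) ((starRingEnd ℂ) (T.coeff u)) else 0
  have p1 : ∀ u, 0 < u → piece u = AddMonoidAlgebra.single u (T.coeff u) := fun u h => if_pos h
  have p2 : ∀ u, u < 0 → piece u = AddMonoidAlgebra.single (-u) ((starRingEnd ℂ) (T.coeff u)) :=
    fun u h => (if_neg (not_lt.2 h.le)).trans (if_pos h)
  have p3 : piece 0 = 0 := (if_neg (lt_irrefl _)).trans (if_neg (lt_irrefl _))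
  have hp : ∀ u, Pos (piece u) := by
    intro u
    rcases lt_trichotomy u 0 with h | h | h
    · rw [p2 u h]
      exact pos_single (Left.neg_pos_iff.2 h) _
    · rw [h, p3]
      exact pos_zero
    · rw [p1 u h]
      exact pos_single h _
  refine ⟨∑ u ∈ T.coeff.support, piece u, pos_sum _ _ (fun u _ => hp u), fun θ => ?_⟩
  have hre : ∀ u, (ev (piece u) θ).re = if u = 0 then 0 else (T.coeff u * chi u θ).re := by
    intro u
    rcases lt_trichotomy u 0 with h | h | h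
    · rw [p2 u h, if_neg h.ne, ev_single, chi_neg, ← map_mul, Complex.conj_re]
    · rw [h, p3, if_pos rfl, ev_zero, Complex.zero_re]
    · rw [p1 u h, if_neg h.ne', ev_single]
  rw [ev_sum, Complex.re_sum, Finset.sum_congr rfl (fun u _ => hre u)]
  have h0 : (T.coeff 0).re = ∑ u ∈ T.coeff.support, if u = 0 then (T.coeff u * chi u θ).re else 0 := by
    rw [Finset.sum_ite_eq']
    by_cases h : (0 : G n) ∈ T.coeff.support
    · rw [if_pos h, chi_zero, mul_one]
    · rw [if_neg h, Finsupp.notMem_support_iff.1 h, Complex.zero_re]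
  rw [h0, ← Finset.sum_add_distrib]
  have h1 : (ev T θ).re = ∑ u ∈ T.coeff.support, (T.coeff u * chi u θ).re := by
    rw [ev_eq]
    exact Complex.re_sum _ _
  rw [h1]
  refine Finset.sum_congr rfl fun u _ => ?_
  by_cases h : u = 0 <;> simp [h]

theorem ev_pow {n : ℕ} (hm : ∀ X Y : AddMonoidAlgebra ℂ (G n), ∀ θ, ev (X * Y) θ = ev X θ * ev Y θ)
    (X : AddMonoidAlgebra ℂ (G n)) (θ : Fin n → ℝ) (k : ℕ) : ev (X ^ k) θ = ev X θ ^ k := by
  induction k with
  | zero => rw [pow_zero, pow_zero, ev_one]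
  | succ k ih => rw [pow_succ, pow_succ, hm, ih]

/-- truncated exponential series of `-h/2` -/
noncomputable def gK {n : ℕ} (h : AddMonoidAlgebra ℂ (G n)) (K : ℕ) : AddMonoidAlgebra ℂ (G n) :=
  ∑ k ∈ Finset.range K, AddMonoidAlgebra.single (0 : G n) ((-1 / 2 : ℂ) ^ k / (Nat.factorial k : ℂ)) * h ^ k

theorem gK_prop {n : ℕ} {h : AddMonoidAlgebra ℂ (G n)} (hh : Pos h) (K : ℕ) :
    NonN (gK h (K + 1)) ∧ (gK h (K + 1)).coeff 0 = 1 := by
  induction K with
  | zero =>
    have : gK h (0 + 1) = AddMonoidAlgebra.single (0 : G n) (1 : ℂ) := by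
      rw [gK, Finset.sum_range_succ, Finset.sum_range_zero, zero_add, pow_zero, pow_zero, mul_one,
        Nat.factorial_zero, Nat.cast_one, div_one]
    rw [this]
    refine ⟨nonN_single 1, ?_⟩
    rw [AddMonoidAlgebra.coeff_single, Finsupp.single_eq_same]
  | succ K ih =>
    have h1 : gK h (K + 1 + 1) = gK h (K + 1) +
        AddMonoidAlgebra.single (0 : G n) ((-1 / 2 : ℂ) ^ (K + 1) / (Nat.factorial (K + 1) : ℂ)) *
          h ^ (K + 1) := by
      rw [gK, Finset.sum_range_succ]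
      rfl
    have h2 : Pos (AddMonoidAlgebra.single (0 : G n) ((-1 / 2 : ℂ) ^ (K + 1) / (Nat.factorial (K + 1) : ℂ)) *
          h ^ (K + 1)) := pos_mul (nonN_single _) ((nonN_pow hh (K + 1)).2 (by omega))
    rw [h1]
    refine ⟨nonN_add ih.1 h2.nonN, ?_⟩
    rw [AddMonoidAlgebra.coeff_add, Finsupp.add_apply, ih.2, h2.coeff, add_zero]

theorem ev_gK {n : ℕ} (hm : ∀ X Y : AddMonoidAlgebra ℂ (G n), ∀ θ, ev (X * Y) θ = ev X θ * ev Y θ)
    (h : AddMonoidAlgebra ℂ (G n)) (K : ℕ) (θ : Fin n → ℝ) :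
    ev (gK h K) θ = ∑ k ∈ Finset.range K, (-(ev h θ) / 2) ^ k / (Nat.factorial k : ℂ) := by
  rw [gK, ev_sum]
  refine Finset.sum_congr rfl fun k _ => ?_
  rw [hm, ev_single, chi_zero, mul_one, ev_pow hm]
  have : (-(ev h θ) / 2) = (-1 / 2) * ev h θ := by ring
  rw [this, mul_pow]
  ring

theorem norm_partial (z : ℂ) (K : ℕ) :
    ‖∑ k ∈ Finset.range K, z ^ k / (Nat.factorial k : ℂ)‖ ≤ Real.exp ‖z‖ := by
  refine (norm_sum_le _ _).trans ?_
  have : ∀ k ∈ Finset.range K, ‖z ^ k / (Nat.factorial k : ℂ)‖ = ‖z‖ ^ k / (Nat.factorial k : ℝ) := by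
    intro k _
    rw [norm_div, norm_pow, Complex.norm_natCast]
  rw [Finset.sum_congr rfl this]
  exact Real.sum_le_exp_of_nonneg (norm_nonneg _) K

theorem tendsto_partial (z : ℂ) : Filter.Tendsto
    (fun K : ℕ => ∑ k ∈ Finset.range K, z ^ k / (Nat.factorial k : ℂ)) Filter.atTop
    (nhds (Complex.exp z)) := by
  have h := NormedSpace.expSeries_div_hasSum_exp z
  rw [← Complex.exp_eq_exp_ℂ] at h
  exact h.tendsto_sum_nat

theorem vol_cube (n : ℕ) : (volume : Measure (Fin n → ℝ)) (cube n) = 1 := by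
  rw [Real.volume_Icc_pi]
  simp

end Pool.Agent.H589.Boyd.Out_

namespace Pool.Agent.H589.Boyd

open Out_ Filter Topology

theorem out : S_SW → S_Pars → S_Out := by
  intro hSW hPars n w hw hw0 hwp δ hδ
  obtain ⟨hP1, hm⟩ := hPars n
  obtain ⟨ε, hε⟩ : ∃ ε : ℝ, ε = δ / 8 := ⟨_, rfl⟩
  have hε0 : 0 < ε := by rw [hε]; positivity
  obtain ⟨φ, hφ⟩ : ∃ φ : (Fin n → ℝ) → ℝ, φ = fun θ => Real.log (w θ) := ⟨_, rfl⟩
  have hφc : Continuous φ := by
    rw [hφ]
    exact hw.log fun θ => (hw0 θ).ne'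
  have hφe : ∀ θ, Real.exp (φ θ) = w θ := by
    intro θ
    rw [hφ]
    exact Real.exp_log (hw0 θ)
  obtain ⟨T, hT⟩ := hSW n φ hφc (by
    intro θ k
    rw [hφ]
    show Real.log (w _) = Real.log (w θ)
    rw [hwp θ k]) ε hε0
  obtain ⟨h, hh, hre⟩ := exists_h T
  have hfin : IsFiniteMeasure (volume.restrict (cube n) : Measure (Fin n → ℝ)) := by
    refine ⟨?_⟩
    rw [Measure.restrict_apply_univ, vol_cube]
    exact ENNReal.one_lt_top
  have hvr : ((volume : Measure (Fin n → ℝ)).restrict (cube n)).real Set.univ = 1 := by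
    rw [Measure.real, Measure.restrict_apply_univ, vol_cube]
    rfl
  have hint : ∀ F : (Fin n → ℝ) → ℝ, Continuous F → IntegrableOn F (cube n) := fun F hF =>
    hF.continuousOn.integrableOn_compact isCompact_Icc
  have hintC : ∀ F : (Fin n → ℝ) → ℂ, Continuous F → IntegrableOn F (cube n) := fun F hF =>
    hF.continuousOn.integrableOn_compact isCompact_Icc
  -- the constant term
  have hT0 : (T.coeff 0).re ≤ (∫ θ in cube n, φ θ) + ε := by
    have h1 : ‖(∫ θ in cube n, (ev T θ - (φ θ : ℂ)))‖ ≤ ε *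
        ((volume : Measure (Fin n → ℝ)).restrict (cube n)).real Set.univ :=
      norm_integral_le_of_norm_le_const (Eventually.of_forall fun θ => hT θ)
    have h0 : (∫ θ in cube n, (ev T θ - (φ θ : ℂ))) = (∫ θ in cube n, ev T θ) - ∫ θ in cube n, (φ θ : ℂ) :=
      integral_sub (hintC _ (hP1 T).1) (hintC _ (Complex.continuous_ofReal.comp hφc))
    rw [h0, (hP1 T).2.2.2, hvr, mul_one, integral_complex_ofReal] at h1
    have h2 := (Complex.abs_re_le_norm _).trans h1
    rw [Complex.sub_re, Complex.ofReal_re, abs_le] at h2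
    linarith only [h2.2]
  -- the limit
  obtain ⟨z, hz⟩ : ∃ z : (Fin n → ℝ) → ℂ, z = fun θ => -(ev h θ) / 2 := ⟨_, rfl⟩
  have hzc : Continuous z := by
    rw [hz]
    exact (hP1 h).1.neg.div_const 2
  obtain ⟨M, hM⟩ : ∃ M : ℝ, ∀ θ, ‖z θ‖ ≤ M := by
    refine ⟨∑ u ∈ h.coeff.support, ‖h.coeff u‖, fun θ => ?_⟩
    rw [hz]
    show ‖-(ev h θ) / 2‖ ≤ _
    rw [norm_div, norm_neg]
    have h1 := norm_ev h θ
    have h2 : ‖(2 : ℂ)‖ = 2 := by simp
    rw [h2]
    have h3 := norm_nonneg (ev h θ)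
    linarith only [h1, h3]
  have hlim : Tendsto (fun K : ℕ => ∫ θ in cube n, w θ * ‖ev (gK h (K + 1)) θ‖ ^ 2) atTop
      (𝓝 (∫ θ in cube n, w θ * ‖Complex.exp (z θ)‖ ^ 2)) := by
    refine tendsto_integral_of_dominated_convergence (fun θ => w θ * (Real.exp M) ^ 2) ?_ ?_ ?_ ?_
    · intro K
      exact (hw.mul ((hP1 _).1.norm.pow 2)).aestronglyMeasurable
    · exact hint _ (hw.mul continuous_const)
    · intro K
      refine Eventually.of_forall fun θ => ?_
      rw [norm_mul, Real.norm_of_nonneg (hw0 θ).le, norm_pow, norm_norm]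
      refine mul_le_mul_of_nonneg_left ?_ (hw0 θ).le
      refine pow_le_pow_left₀ (norm_nonneg _) ?_ 2
      have h1 := norm_partial (z θ) (K + 1)
      rw [ev_gK hm]
      rw [hz] at h1 hM
      exact h1.trans (Real.exp_le_exp.2 (hM θ))
    · refine Eventually.of_forall fun θ => ?_
      refine Tendsto.const_mul _ ((Tendsto.norm ?_).pow 2)
      have h1 := (tendsto_partial (z θ)).comp (tendsto_add_atTop_nat 1)
      refine h1.congr fun K => ?_
      rw [ev_gK hm, hz]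
      rfl
  have hL : (∫ θ in cube n, w θ * ‖Complex.exp (z θ)‖ ^ 2) ≤
      Real.exp ((∫ θ in cube n, φ θ) + 2 * ε) := by
    have h1 : ∀ θ, w θ * ‖Complex.exp (z θ)‖ ^ 2 ≤ Real.exp ((∫ θ in cube n, φ θ) + 2 * ε) := by
      intro θ
      rw [Complex.norm_exp, ← hφe θ, ← Real.exp_nat_mul, ← Real.exp_add, Real.exp_le_exp]
      have h2 : (z θ).re = -(ev h θ).re / 2 := by
        rw [hz]
        show (-(ev h θ) / 2).re = _
        rw [Complex.div_ofNat_re, Complex.neg_re]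
      have h3 := hre θ
      have h4 := (Complex.abs_re_le_norm _).trans (hT θ)
      rw [Complex.sub_re, Complex.ofReal_re, abs_le] at h4
      rw [h2]
      push_cast
      linarith only [h3, h4.1, hT0]
    calc (∫ θ in cube n, w θ * ‖Complex.exp (z θ)‖ ^ 2)
        ≤ ∫ θ in cube n, Real.exp ((∫ θ in cube n, φ θ) + 2 * ε) := by
          refine integral_mono (hint _ (hw.mul ((Complex.continuous_exp.comp hzc).norm.pow 2)))
            (integrable_const _) fun θ => h1 θ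
      _ = Real.exp ((∫ θ in cube n, φ θ) + 2 * ε) := by
          rw [integral_const, hvr, one_smul]
  have hlt : (∫ θ in cube n, w θ * ‖Complex.exp (z θ)‖ ^ 2) < Real.exp ((∫ θ in cube n, φ θ) + δ) := by
    refine hL.trans_lt (Real.exp_lt_exp.2 ?_)
    rw [hε]
    linarith only [hδ]
  obtain ⟨K, hK⟩ := (hlim.eventually_lt_const hlt).exists
  refine ⟨gK h (K + 1), (gK_prop hh K).1, (gK_prop hh K).2, ?_⟩
  rw [hφ] at hK
  exact hK.le

end Pool.Agent.H589.Boyd
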