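import Pool.Agent.H589.Boyd.Spec

/-!
# PARS: Parseval and multiplicativity
-/

set_option autoImplicit false

open MeasureTheory

namespace Pool.Agent.H589.Boyd

namespace pars_

/-- the characters -/
noncomputable def ch {n : ℕ} (u : G n) (θ : Fin n → ℝ) : ℂ :=
  Complex.exp (2 * (Real.pi : ℂ) * Complex.I * ((∑ i, ((ofLex u i : ℤ) : ℝ) * θ i : ℝ) : ℂ))

lemma ch_zero {n : ℕ} (θ : Fin n → ℝ) : ch (0 : G n) θ = 1 := by
  unfold ch
  have h : (∑ i, ((ofLex (0 : G n) i : ℤ) : ℝ) * θ i) = 0 := by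
    refine Finset.sum_eq_zero fun i _ => ?_
    have h1 : ofLex (0 : G n) i = 0 := rfl
    rw [h1, Int.cast_zero, zero_mul]
  rw [h, Complex.ofReal_zero, mul_zero, Complex.exp_zero]

lemma ch_add {n : ℕ} (u v : G n) (θ : Fin n → ℝ) : ch (u + v) θ = ch u θ * ch v θ := by
  unfold ch
  rw [← Complex.exp_add]
  congr 1
  have h : (∑ i, ((ofLex (u + v) i : ℤ) : ℝ) * θ i) =
      (∑ i, ((ofLex u i : ℤ) : ℝ) * θ i) + ∑ i, ((ofLex v i : ℤ) : ℝ) * θ i := by
    rw [← Finset.sum_add_distrib]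
    refine Finset.sum_congr rfl fun i _ => ?_
    have h1 : ofLex (u + v) i = ofLex u i + ofLex v i := rfl
    rw [h1]
    push_cast
    ring
  rw [h]
  push_cast
  ring

lemma ch_cont {n : ℕ} (u : G n) : Continuous (ch u) := by
  unfold ch
  refine Complex.continuous_exp.comp (continuous_const.mul (Complex.continuous_ofReal.comp ?_))
  exact continuous_finsetSum _ fun i _ => continuous_const.mul (continuous_apply i)

lemma ch_per {n : ℕ} (u : G n) (θ : Fin n → ℝ) (k : Fin n → ℤ) :
    ch u (fun i => θ i + k i) = ch u θ := by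
  unfold ch
  have h : (∑ i, ((ofLex u i : ℤ) : ℝ) * (θ i + k i)) =
      (∑ i, ((ofLex u i : ℤ) : ℝ) * θ i) + ((∑ i, ofLex u i * k i : ℤ) : ℝ) := by
    push_cast
    rw [← Finset.sum_add_distrib]
    exact Finset.sum_congr rfl fun i _ => by ring
  rw [h, Complex.ofReal_add, mul_add, Complex.exp_add]
  have h2 : Complex.exp (2 * (Real.pi : ℂ) * Complex.I *
      ((((∑ i, ofLex u i * k i : ℤ) : ℝ)) : ℂ)) = 1 := by
    rw [Complex.exp_eq_one_iff]
    refine ⟨∑ i, ofLex u i * k i, ?_⟩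
    push_cast
    ring
  rw [h2, mul_one]

lemma ch_conj {n : ℕ} (u : G n) (θ : Fin n → ℝ) : (starRingEnd ℂ) (ch u θ) = ch (-u) θ := by
  unfold ch
  rw [← Complex.exp_conj]
  congr 1
  have h : (∑ i, ((ofLex (-u) i : ℤ) : ℝ) * θ i) = - ∑ i, ((ofLex u i : ℤ) : ℝ) * θ i := by
    rw [← Finset.sum_neg_distrib]
    refine Finset.sum_congr rfl fun i _ => ?_
    have h1 : ofLex (-u) i = - ofLex u i := rfl
    rw [h1]
    push_cast
    ring
  rw [h, map_mul, map_mul, map_mul, Complex.conj_ofReal, Complex.conj_ofReal, Complex.conj_I,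
    Complex.ofReal_neg]
  have h2 : (starRingEnd ℂ) (2 : ℂ) = 2 := Complex.conj_ofNat 2
  rw [h2]
  ring

lemma one_dim (m : ℤ) : ∫ t in Set.Icc (0 : ℝ) 1,
    Complex.exp (2 * (Real.pi : ℂ) * Complex.I * (m : ℂ) * (t : ℂ)) = if m = 0 then 1 else 0 := by
  rw [integral_Icc_eq_integral_Ioc, ← intervalIntegral.integral_of_le zero_le_one]
  split
  · next h =>
    subst h
    simp
  · next h =>
    have hc : 2 * (Real.pi : ℂ) * Complex.I * (m : ℂ) ≠ 0 := by
      refine mul_ne_zero (mul_ne_zero (mul_ne_zero two_ne_zero ?_) Complex.I_ne_zero) ?_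
      · exact_mod_cast Real.pi_ne_zero
      · exact_mod_cast h
    rw [integral_exp_mul_complex hc]
    have h1 : Complex.exp (2 * (Real.pi : ℂ) * Complex.I * (m : ℂ) * ((1 : ℝ) : ℂ)) = 1 := by
      rw [Complex.exp_eq_one_iff]
      refine ⟨m, ?_⟩
      push_cast
      ring
    rw [h1]
    simp

lemma ch_prod {n : ℕ} (u : G n) (θ : Fin n → ℝ) : ch u θ =
    ∏ i, Complex.exp (2 * (Real.pi : ℂ) * Complex.I * ((ofLex u i : ℤ) : ℂ) * (θ i : ℂ)) := by
  unfold ch
  rw [← Complex.exp_sum]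
  congr 1
  push_cast
  rw [Finset.mul_sum]
  exact Finset.sum_congr rfl fun i _ => by ring

lemma cube_eq (n : ℕ) : (volume : Measure (Fin n → ℝ)).restrict (cube n) =
    Measure.pi (fun _ : Fin n => (volume : Measure ℝ).restrict (Set.Icc 0 1)) := by
  have h1 : cube n = Set.pi Set.univ (fun _ : Fin n => Set.Icc (0 : ℝ) 1) := by
    rw [Set.pi_univ_Icc]
    rfl
  rw [h1, volume_pi, Measure.restrict_pi_pi]

lemma ch_int {n : ℕ} (u : G n) : ∫ θ in cube n, ch u θ = if u = 0 then 1 else 0 := by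
  rw [cube_eq]
  simp only [ch_prod]
  rw [integral_fintype_prod_eq_prod (fun (i : Fin n) (t : ℝ) =>
    Complex.exp (2 * (Real.pi : ℂ) * Complex.I * ((ofLex u i : ℤ) : ℂ) * (t : ℂ)))]
  simp only [one_dim]
  split
  · next h =>
    subst h
    refine Finset.prod_eq_one fun i _ => ?_
    have h1 : ofLex (0 : G n) i = 0 := rfl
    rw [if_pos h1]
  · next h =>
    have h1 : ∃ i, ofLex u i ≠ 0 := by
      by_contra h2
      push Not at h2
      exact h (funext h2)
    obtain ⟨i, hi⟩ := h1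
    exact Finset.prod_eq_zero (Finset.mem_univ i) (if_neg hi)

lemma int_cube {n : ℕ} {f : (Fin n → ℝ) → ℂ} (hf : Continuous f) :
    IntegrableOn f (cube n) := hf.continuousOn.integrableOn_compact isCompact_Icc

lemma ev_eq {n : ℕ} (X : AddMonoidAlgebra ℂ (G n)) (θ : Fin n → ℝ) :
    ev X θ = ∑ u ∈ X.coeff.support, X.coeff u * ch u θ := rfl

lemma ev_cont {n : ℕ} (X : AddMonoidAlgebra ℂ (G n)) : Continuous (ev X) := by
  have h : ev X = fun θ => ∑ u ∈ X.coeff.support, X.coeff u * ch u θ := rfl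
  rw [h]
  exact continuous_finsetSum _ fun u _ => continuous_const.mul (ch_cont u)

/-- the character as a monoid homomorphism -/
noncomputable def chM {n : ℕ} (θ : Fin n → ℝ) : Multiplicative (G n) →* ℂ where
  toFun u := ch u.toAdd θ
  map_one' := ch_zero θ
  map_mul' u v := ch_add u.toAdd v.toAdd θ

lemma ev_lift {n : ℕ} (X : AddMonoidAlgebra ℂ (G n)) (θ : Fin n → ℝ) :
    ev X θ = AddMonoidAlgebra.lift ℂ ℂ (G n) (chM θ) X := by
  rw [AddMonoidAlgebra.lift_apply]
  rfl

lemma parseval {n : ℕ} (X : AddMonoidAlgebra ℂ (G n)) :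
    ∫ θ in cube n, ‖ev X θ‖ ^ 2 = sq X := by
  apply Complex.ofReal_injective
  rw [← integral_complex_ofReal]
  have h1 : ∀ θ : Fin n → ℝ, (((‖ev X θ‖ ^ 2 : ℝ)) : ℂ) = ∑ u ∈ X.coeff.support,
      ∑ v ∈ X.coeff.support, X.coeff u * (starRingEnd ℂ) (X.coeff v) * ch (u + -v) θ := by
    intro θ
    rw [← Complex.normSq_eq_norm_sq, ← Complex.mul_conj, ev_eq, map_sum, Finset.sum_mul_sum]
    refine Finset.sum_congr rfl fun u _ => Finset.sum_congr rfl fun v _ => ?_
    rw [map_mul, ch_conj, ch_add]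
    ring
  simp only [h1]
  rw [integral_finsetSum]
  · unfold sq
    push_cast
    refine Finset.sum_congr rfl fun u hu => ?_
    rw [integral_finsetSum]
    · rw [Finset.sum_eq_single u]
      · rw [integral_const_mul, ch_int, if_pos (by rw [add_neg_cancel]), mul_one,
          Complex.mul_conj, Complex.normSq_eq_norm_sq]
        push_cast
        rfl
      · intro v _ hv
        rw [integral_const_mul, ch_int, if_neg, mul_zero]
        intro h
        apply hv
        exact (add_neg_eq_zero.1 h).symm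
      · intro h
        exact absurd hu h
    · intro v _
      exact int_cube (continuous_const.mul (ch_cont _))
  · intro u _
    exact int_cube (continuous_finsetSum _ fun v _ => continuous_const.mul (ch_cont _))

lemma mean {n : ℕ} (X : AddMonoidAlgebra ℂ (G n)) : ∫ θ in cube n, ev X θ = X.coeff 0 := by
  have h : ev X = fun θ => ∑ u ∈ X.coeff.support, X.coeff u * ch u θ := rfl
  rw [h, integral_finsetSum]
  · simp only [integral_const_mul, ch_int]
    rw [Finset.sum_eq_single 0]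
    · rw [if_pos rfl, mul_one]
    · intro v _ hv
      rw [if_neg hv, mul_zero]
    · intro h0
      rw [Finsupp.notMem_support_iff.1 h0, zero_mul]
  · intro u _
    exact int_cube (continuous_const.mul (ch_cont _))

end pars_

open pars_ in
theorem pars : S_Pars := by
  intro n
  refine ⟨fun X => ⟨ev_cont X, fun θ k => ?_, parseval X, mean X⟩, fun X Y θ => ?_⟩
  · rw [ev_eq, ev_eq]
    exact Finset.sum_congr rfl fun u _ => by rw [ch_per]
  · rw [ev_lift, ev_lift, ev_lift, map_mul]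

end Pool.Agent.H589.Boyd
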