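import Pool.Agent.H589.Boyd.Spec

set_option autoImplicit false

open MeasureTheory

namespace Pool.Agent.H589.Boyd

namespace sw_

/-- the character -/
noncomputable def ch {n : ℕ} (θ : Fin n → ℝ) (u : G n) : ℂ :=
  Complex.exp (2 * (Real.pi : ℂ) * Complex.I * ((∑ i, ((ofLex u i : ℤ) : ℝ) * θ i : ℝ) : ℂ))

theorem ev_eq {n : ℕ} (X : AddMonoidAlgebra ℂ (G n)) (θ : Fin n → ℝ) :
    ev X θ = X.coeff.sum fun u c => c * ch θ u := rfl

theorem ev_zero {n : ℕ} (θ : Fin n → ℝ) : ev (0 : AddMonoidAlgebra ℂ (G n)) θ = 0 := by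
  rw [ev_eq, AddMonoidAlgebra.coeff_zero, Finsupp.sum_zero_index]

theorem ev_add {n : ℕ} (X Y : AddMonoidAlgebra ℂ (G n)) (θ : Fin n → ℝ) :
    ev (X + Y) θ = ev X θ + ev Y θ := by
  rw [ev_eq, ev_eq, ev_eq, AddMonoidAlgebra.coeff_add, Finsupp.sum_add_index']
  · intro u; exact zero_mul _
  · intro u a b; exact add_mul _ _ _

theorem ev_smul {n : ℕ} (c : ℂ) (X : AddMonoidAlgebra ℂ (G n)) (θ : Fin n → ℝ) :
    ev (c • X) θ = c * ev X θ := by
  rw [ev_eq, ev_eq, AddMonoidAlgebra.coeff_smul, Finsupp.sum_smul_index', Finsupp.mul_sum]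
  · refine Finsupp.sum_congr fun u _ => ?_
    rw [smul_eq_mul, mul_assoc]
  · intro u; exact zero_mul _

theorem ev_single {n : ℕ} (u : G n) (c : ℂ) (θ : Fin n → ℝ) :
    ev (AddMonoidAlgebra.single u c : AddMonoidAlgebra ℂ (G n)) θ = c * ch θ u := by
  rw [ev_eq, AddMonoidAlgebra.coeff_single, Finsupp.sum_single_index]
  exact zero_mul _

/-- the projection to the torus -/
def pr {n : ℕ} (θ : Fin n → ℝ) : UnitAddTorus (Fin n) := fun i => (θ i : UnitAddCircle)

theorem pr_quot (n : ℕ) : IsOpenQuotientMap (pr (n := n)) := by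
  have h : IsOpenQuotientMap (Pi.map (fun _ : Fin n => ((↑) : ℝ → UnitAddCircle))) :=
    IsOpenQuotientMap.piMap fun _ => QuotientAddGroup.isOpenQuotientMap_mk
  exact h

theorem pr_eq {n : ℕ} {θ η : Fin n → ℝ} (h : pr θ = pr η) :
    ∃ k : Fin n → ℤ, η = fun i => θ i + k i := by
  have h1 : ∀ i, ∃ k : ℤ, η i = θ i + k := by
    intro i
    have h2 : (θ i : UnitAddCircle) = (η i : UnitAddCircle) := congrFun h i
    rw [← sub_eq_zero, ← AddCircle.coe_sub, AddCircle.coe_eq_zero_iff] at h2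
    obtain ⟨m, hm⟩ := h2
    refine ⟨-m, ?_⟩
    push_cast
    rw [zsmul_eq_mul, mul_one] at hm
    linarith
  choose k hk using h1
  exact ⟨k, funext hk⟩

theorem four {n : ℕ} (k : Fin n → ℤ) (θ : Fin n → ℝ) :
    UnitAddTorus.mFourier k (pr θ) = ch θ (toLex k) := by
  show ∏ i, fourier (k i) (θ i : UnitAddCircle) = _
  unfold ch
  push_cast
  rw [Finset.mul_sum, Complex.exp_sum]
  refine Finset.prod_congr rfl fun i _ => ?_
  rw [fourier_coe_apply]
  congr 1
  simp only [ofLex_toLex, Complex.ofReal_one, div_one]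
  ring

theorem span_ev {n : ℕ} (g : C(UnitAddTorus (Fin n), ℂ))
    (hg : g ∈ Submodule.span ℂ (Set.range (UnitAddTorus.mFourier (d := Fin n)))) :
    ∃ T : AddMonoidAlgebra ℂ (G n), ∀ θ, ev T θ = g (pr θ) := by
  induction hg using Submodule.span_induction with
  | mem x hx =>
    obtain ⟨k, rfl⟩ := hx
    exact ⟨AddMonoidAlgebra.single (toLex k) 1, fun θ => by rw [ev_single, one_mul, four]⟩
  | zero => exact ⟨0, fun θ => ev_zero θ⟩
  | add x y _ _ hx hy =>
    obtain ⟨T, hT⟩ := hx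
    obtain ⟨S, hS⟩ := hy
    exact ⟨T + S, fun θ => by rw [ev_add, hT, hS]; rfl⟩
  | smul c x _ hx =>
    obtain ⟨T, hT⟩ := hx
    exact ⟨c • T, fun θ => by rw [ev_smul, hT]; rfl⟩

end sw_

open sw_ in
theorem sw : S_SW := by
  intro n φ hφ hper ε hε
  have hq := pr_quot n
  obtain ⟨s, hs⟩ : ∃ s : UnitAddTorus (Fin n) → (Fin n → ℝ), ∀ x, pr (s x) = x :=
    ⟨_, Function.rightInverse_surjInv hq.surjective⟩
  have hf : ∀ θ, φ (s (pr θ)) = φ θ := by
    intro θ
    obtain ⟨k, hk⟩ := pr_eq (hs (pr θ))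
    have h1 := hper (s (pr θ)) k
    rw [← hk] at h1
    exact h1.symm
  have hcont : Continuous (fun x : UnitAddTorus (Fin n) => ((φ (s x) : ℝ) : ℂ)) := by
    rw [hq.isQuotientMap.continuous_iff]
    have : (fun x : UnitAddTorus (Fin n) => ((φ (s x) : ℝ) : ℂ)) ∘ pr = fun θ => ((φ θ : ℝ) : ℂ) := by
      funext θ
      simp only [Function.comp_apply, hf]
    rw [this]
    exact Complex.continuous_ofReal.comp hφ
  let f : C(UnitAddTorus (Fin n), ℂ) := ⟨_, hcont⟩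
  have hmem : f ∈ (Submodule.span ℂ (Set.range (UnitAddTorus.mFourier (d := Fin n)))).topologicalClosure := by
    rw [UnitAddTorus.span_mFourier_closure_eq_top]
    trivial
  rw [← SetLike.mem_coe, Submodule.topologicalClosure_coe, Metric.mem_closure_iff] at hmem
  obtain ⟨g, hg, hgf⟩ := hmem ε hε
  obtain ⟨T, hT⟩ := span_ev g hg
  refine ⟨T, fun θ => ?_⟩
  rw [hT]
  have h1 : dist (f (pr θ)) (g (pr θ)) ≤ dist f g := ContinuousMap.dist_apply_le_dist _
  have h2 : f (pr θ) = ((φ θ : ℝ) : ℂ) := by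
    show ((φ (s (pr θ)) : ℝ) : ℂ) = _
    rw [hf]
  rw [h2, dist_comm, dist_eq_norm] at h1
  exact h1.trans hgf.le

end Pool.Agent.H589.Boyd
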