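import Pool.Agent.H589.Boyd.Gen
import Pool.Agent.H589.Boyd.Core
import Pool.Agent.H589.Boyd.SW
import Pool.Agent.H589.Boyd.Pars
import Pool.Agent.H589.Boyd.Lim
import Pool.Agent.H589.Boyd.Ident
import Pool.Agent.H589.Boyd.Out
import Pool.Agent.H589.Boyd.NDA

set_option autoImplicit false

open MeasureTheory

namespace Pool.Agent.H589.Boyd

theorem genT : S_Gen := gen (core ident) (out sw pars) pars lim

theorem finAT : S_FinA := finA genT nda lim pars

end Pool.Agent.H589.Boyd
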