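import Pool.Agent.H589.Boyd.Spec

set_option autoImplicit false

open MeasureTheory

namespace Pool.Agent.H589.Boyd

theorem gen : S_Core → S_Out → S_Pars → S_Lim → S_Gen := by
  intro hCore hOut hPars hLim n ι _ q j0 m hm hG
  obtain ⟨hP1, hP2⟩ := hPars n
  set w : (Fin n → ℝ) → ℝ := fun θ => ∑ j, ‖ev (cst (q j)) θ‖ ^ 2 with hw
  have hwc : Continuous w := by
    refine continuous_finset_sum _ fun j _ => ?_
    exact ((hP1 (cst (q j))).1.norm).pow 2
  have hwn : ∀ θ, 0 ≤ w θ := fun θ => Finset.sum_nonneg fun j _ => sq_nonneg _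
  have hwp : ∀ θ : Fin n → ℝ, ∀ k : Fin n → ℤ, w (fun i => θ i + k i) = w θ := by
    intro θ k
    simp only [hw]
    refine Finset.sum_congr rfl fun j _ => ?_
    rw [(hP1 (cst (q j))).2.1 θ k]
  have hcomp : IsCompact (cube n) := isCompact_Icc
  have key : ∀ δ : ℝ, 0 < δ → δ < 1 → Real.log m / 2 ≤ ∫ θ in cube n, Real.log (w θ + δ) := by
    intro δ hδ _
    refine le_of_forall_pos_le_add fun η hη => ?_
    obtain ⟨g, hg1, hg2, hg3⟩ := hOut n (fun θ => w θ + δ) (hwc.add continuous_const)
      (fun θ => by have := hwn θ; positivity) (fun θ k => by simp only [hwp θ k]) η hη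
    have h1 := hCore (G n) ι q j0 m hG g hg1 hg2
    have hgc : Continuous (ev g) := (hP1 g).1
    have h2 : ∑ j, sq (cst (q j) * g) = ∫ θ in cube n, w θ * ‖ev g θ‖ ^ 2 := by
      have : ∀ j, sq (cst (q j) * g) = ∫ θ in cube n, ‖ev (cst (q j)) θ‖ ^ 2 * ‖ev g θ‖ ^ 2 := by
        intro j
        rw [← (hP1 (cst (q j) * g)).2.2.1]
        refine integral_congr_ae (Filter.Eventually.of_forall fun θ => ?_)
        simp only [hP2, norm_mul, mul_pow]
      rw [Finset.sum_congr rfl fun j _ => this j, ← integral_finset_sum]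
      · refine integral_congr_ae (Filter.Eventually.of_forall fun θ => ?_)
        simp only [hw, Finset.sum_mul]
      · intro j _
        exact (((((hP1 (cst (q j))).1.norm).pow 2).mul (hgc.norm.pow 2)).continuousOn).integrableOn_compact
          hcomp
    have h3 : ∫ θ in cube n, w θ * ‖ev g θ‖ ^ 2 ≤ ∫ θ in cube n, (w θ + δ) * ‖ev g θ‖ ^ 2 := by
      refine integral_mono ?_ ?_ fun θ => ?_
      · exact ((hwc.mul (hgc.norm.pow 2)).continuousOn).integrableOn_compact hcomp
      · exact (((hwc.add continuous_const).mul (hgc.norm.pow 2)).continuousOn).integrableOn_compact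
          hcomp
      · exact mul_le_mul_of_nonneg_right (by linarith) (by positivity)
    have h4 : (m : ℝ) ≤ (Real.exp ((∫ θ in cube n, Real.log (w θ + δ)) + η)) ^ 2 := by
      refine h1.trans ?_
      rw [h2]
      refine pow_le_pow_left₀ ?_ (h3.trans hg3) 2
      exact integral_nonneg fun θ => mul_nonneg (hwn θ) (by positivity)
    have hm0 : (0 : ℝ) < m := by exact_mod_cast hm
    have h5 := Real.log_le_log hm0 h4
    rw [Real.log_pow, Real.log_exp] at h5
    push_cast at h5
    linarith
  exact hLim n w (Real.log m / 2) hwc hwn key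

theorem finA : S_Gen → S_NDA → S_Lim → S_Pars → S_FinA := by
  intro hGen hNDA _ _ n P hP hR
  obtain ⟨q, j0, hG, hv⟩ := hNDA n P hP hR
  by_cases hm : dim P = 0
  · rw [hm]; simp; positivity
  have hm1 : 1 ≤ dim P := Nat.one_le_iff_ne_zero.mpr hm
  obtain ⟨h1, h2, h3⟩ := hGen n (Fin 2) q j0 (dim P) hm1 hG
  simp only [hv] at h1 h2 h3
  have hvol : volume.real (cube n) = 1 := by
    simp [Measure.real, cube, Real.volume_Icc_pi]
  have h4 : (fun θ => Real.log (2 * ‖val P θ‖ ^ 2)) =ᵐ[volume.restrict (cube n)]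
      fun θ => Real.log 2 + 2 * Real.log ‖val P θ‖ := by
    filter_upwards [h2] with θ hθ
    have : ‖val P θ‖ ≠ 0 := by
      intro h; apply hθ; rw [h]; simp
    rw [Real.log_mul (by norm_num) (by positivity), Real.log_pow]
    push_cast; ring
  have h5 : IntegrableOn (fun θ => Real.log 2 + 2 * Real.log ‖val P θ‖) (cube n) :=
    h1.congr h4
  have hcst : IntegrableOn (fun _ : Fin n → ℝ => Real.log 2) (cube n) := by
    refine integrableOn_const ?_ ?_
    · exact isCompact_Icc.measure_lt_top.ne
    · simp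
  have h6 : IntegrableOn (fun θ => Real.log ‖val P θ‖) (cube n) := by
    have := (h5.sub hcst).const_mul (1 / 2)
    refine this.congr (Filter.Eventually.of_forall fun θ => ?_)
    simp only [Pi.sub_apply]
    ring
  rw [integral_congr_ae h4, integral_add hcst (h6.const_mul 2), integral_const_mul] at h3
  rw [setIntegral_const, hvol, one_smul] at h3
  have hm0 : (0 : ℝ) < dim P := by exact_mod_cast hm1
  have h7 : Real.log (dim P : ℝ) - 2 * Real.log 2 ≤ 4 * ∫ θ in cube n, Real.log ‖val P θ‖ := by
    linarith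
  rw [← Real.exp_nat_mul]
  have h8 : (dim P : ℝ) / 4 = Real.exp (Real.log (dim P : ℝ) - 2 * Real.log 2) := by
    rw [Real.exp_sub, Real.exp_log hm0]
    have : Real.exp (2 * Real.log 2) = 4 := by
      rw [show (2 : ℝ) * Real.log 2 = Real.log (2 ^ 2) by rw [Real.log_pow]; norm_num,
        Real.exp_log (by norm_num)]
      norm_num
    rw [this]
  rw [h8]
  apply Real.exp_le_exp.mpr
  simpa using h7

end Pool.Agent.H589.Boyd
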