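import Mathlib

/-!
# Boyd's conjecture on the Mahler measure and the dimension: specification
-/

set_option autoImplicit false

open MeasureTheory

namespace Pool.Agent.H589.Boyd

/-- exponents, with the lexicographic order (a linearly ordered group) -/
abbrev G (n : ℕ) : Type := Lex (Fin n → ℤ)

section
variable {Γ : Type} [AddCommGroup Γ] {R : Type} [Semiring R]

open Classical in
/-- the part of a Laurent polynomial with exponents in `W` -/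
noncomputable def part (W : AddSubgroup Γ) (A : AddMonoidAlgebra R Γ) : AddMonoidAlgebra R Γ :=
  ∑ u ∈ A.coeff.support.filter (fun u => u ∈ W), AddMonoidAlgebra.single u (A.coeff u)

/-- integer Laurent polynomials as complex ones -/
noncomputable def cst : AddMonoidAlgebra ℤ Γ →+* AddMonoidAlgebra ℂ Γ :=
  AddMonoidAlgebra.mapRingHom Γ (Int.castRingHom ℂ)

/-- sum of the squares of the absolute values of the coefficients -/
noncomputable def sq (X : AddMonoidAlgebra ℂ Γ) : ℝ := ∑ u ∈ X.coeff.support, ‖X.coeff u‖ ^ 2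

end

/-- value of a Laurent polynomial at the point of the torus with angles `θ` -/
noncomputable def ev {n : ℕ} (X : AddMonoidAlgebra ℂ (G n)) (θ : Fin n → ℝ) : ℂ :=
  ∑ u ∈ X.coeff.support, X.coeff u *
    Complex.exp (2 * (Real.pi : ℂ) * Complex.I * ((∑ i, ((ofLex u i : ℤ) : ℝ) * θ i : ℝ) : ℂ))

/-- value of an integer polynomial at the point of the torus with angles `θ` (as in the frozen
statement) -/
noncomputable def val {n : ℕ} (P : MvPolynomial (Fin n) ℤ) (θ : Fin n → ℝ) : ℂ :=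
  MvPolynomial.eval₂ (Int.castRingHom ℂ)
    (fun i : Fin n => Complex.exp (2 * (Real.pi : ℂ) * Complex.I * ((θ i : ℝ) : ℂ))) P

/-- the unit cube -/
abbrev cube (n : ℕ) : Set (Fin n → ℝ) := Set.Icc 0 1

/-- dimension of the Newton polytope (as in the frozen statement) -/
noncomputable def dim {n : ℕ} (P : MvPolynomial (Fin n) ℤ) : ℕ :=
  Module.finrank ℝ (vectorSpan ℝ ((fun e : Fin n →₀ ℕ => fun i : Fin n => (e i : ℝ)) ''
    (P.support : Set (Fin n →₀ ℕ))))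

/-- `P(x) = ± x ^ c * P(1/x)` for some exponent `c` -/
def Recip {n : ℕ} (P : MvPolynomial (Fin n) ℤ) : Prop :=
  ∃ c : Fin n →₀ ℕ, ∃ ε : ℤ, (ε = 1 ∨ ε = -1) ∧ (∀ e ∈ P.support, e ≤ c) ∧
    ∀ e ∈ P.support, P.coeff (c - e) = ε * P.coeff e

/-- a family of integer Laurent polynomials with exponents `≥ 0`, one of them with nonzero
constant coefficient, and not degenerate below rank `m` -/
structure Good {Γ : Type} [AddCommGroup Γ] [LinearOrder Γ] {ι : Type}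
    (q : ι → AddMonoidAlgebra ℤ Γ) (j0 : ι) (m : ℕ) : Prop where
  nonneg : ∀ j, ∀ u ∈ (q j).coeff.support, 0 ≤ u
  zero : (q j0).coeff 0 ≠ 0
  nondeg : ∀ T : Finset Γ, T.card < m →
    ∃ j, part (AddSubgroup.closure (T : Set Γ)) (q j0) * q j ≠
      part (AddSubgroup.closure (T : Set Γ)) (q j) * q j0

/-- ID: coefficient identity. -/
def S_Ident : Prop := ∀ (Γ : Type) [AddCommGroup Γ] [LinearOrder Γ] [IsOrderedAddMonoid Γ]
  (A B : AddMonoidAlgebra ℤ Γ) (W : AddSubgroup Γ), (∀ u ∈ A.coeff.support, 0 ≤ u) →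
  (∀ u ∈ B.coeff.support, 0 ≤ u) → A.coeff 0 ≠ 0 → part W A * B ≠ part W B * A →
  ∃ s : Γ, s ∉ W ∧ ∀ g : AddMonoidAlgebra ℂ Γ, (∀ u ∈ g.coeff.support, 0 ≤ u) → g.coeff 0 = 1 →
    1 ≤ ‖(part W (cst A * g) * (cst B * g) - part W (cst B * g) * (cst A * g) :
      AddMonoidAlgebra ℂ Γ).coeff s‖

/-- CORE: energy bound. -/
def S_Core : Prop := ∀ (Γ : Type) [AddCommGroup Γ] [LinearOrder Γ] [IsOrderedAddMonoid Γ]
  (ι : Type) [Fintype ι] (q : ι → AddMonoidAlgebra ℤ Γ) (j0 : ι) (m : ℕ), Good q j0 m →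
  ∀ g : AddMonoidAlgebra ℂ Γ, (∀ u ∈ g.coeff.support, 0 ≤ u) → g.coeff 0 = 1 →
    (m : ℝ) ≤ (∑ j, sq (cst (q j) * g)) ^ 2

/-- SW: trigonometric polynomials are dense. -/
def S_SW : Prop := ∀ (n : ℕ) (φ : (Fin n → ℝ) → ℝ), Continuous φ →
  (∀ θ : Fin n → ℝ, ∀ k : Fin n → ℤ, φ (fun i => θ i + k i) = φ θ) → ∀ ε : ℝ, 0 < ε →
  ∃ T : AddMonoidAlgebra ℂ (G n), ∀ θ, ‖ev T θ - (φ θ : ℂ)‖ ≤ ε

/-- OUT: approximate outer function. -/
def S_Out : Prop := ∀ (n : ℕ) (w : (Fin n → ℝ) → ℝ), Continuous w → (∀ θ, 0 < w θ) →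
  (∀ θ : Fin n → ℝ, ∀ k : Fin n → ℤ, w (fun i => θ i + k i) = w θ) → ∀ δ : ℝ, 0 < δ →
  ∃ g : AddMonoidAlgebra ℂ (G n), (∀ u ∈ g.coeff.support, 0 ≤ u) ∧ g.coeff 0 = 1 ∧
    ∫ θ in cube n, w θ * ‖ev g θ‖ ^ 2 ≤ Real.exp ((∫ θ in cube n, Real.log (w θ)) + δ)

/-- PARS: Parseval and multiplicativity. -/
def S_Pars : Prop := ∀ (n : ℕ),
  (∀ X : AddMonoidAlgebra ℂ (G n), Continuous (ev X) ∧
    (∀ θ : Fin n → ℝ, ∀ k : Fin n → ℤ, ev X (fun i => θ i + k i) = ev X θ) ∧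
    ∫ θ in cube n, ‖ev X θ‖ ^ 2 = sq X ∧ ∫ θ in cube n, ev X θ = X.coeff 0) ∧
  (∀ X Y : AddMonoidAlgebra ℂ (G n), ∀ θ, ev (X * Y) θ = ev X θ * ev Y θ)

/-- LIM: removing `δ` (monotone convergence). -/
def S_Lim : Prop := ∀ (n : ℕ) (w : (Fin n → ℝ) → ℝ) (c : ℝ), Continuous w → (∀ θ, 0 ≤ w θ) →
  (∀ δ : ℝ, 0 < δ → δ < 1 → c ≤ ∫ θ in cube n, Real.log (w θ + δ)) →
  IntegrableOn (fun θ => Real.log (w θ)) (cube n) ∧
    (∀ᵐ θ ∂(volume.restrict (cube n)), w θ ≠ 0) ∧ c ≤ ∫ θ in cube n, Real.log (w θ)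

/-- NDA: the pair `P, P*` for `P` irreducible and not reciprocal. -/
def S_NDA : Prop := ∀ (n : ℕ) (P : MvPolynomial (Fin n) ℤ), Irreducible P → ¬ Recip P →
  ∃ (q : Fin 2 → AddMonoidAlgebra ℤ (G n)) (j0 : Fin 2), Good q j0 (dim P) ∧
    ∀ θ, ∑ j, ‖ev (cst (q j)) θ‖ ^ 2 = 2 * ‖val P θ‖ ^ 2

/-- NDB: the coefficients of `P` as a polynomial in the variable `0`. -/
def S_NDB : Prop := ∀ (n : ℕ) (P : MvPolynomial (Fin (n + 1)) ℤ), Irreducible P →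
  1 ≤ P.degreeOf 0 →
  ∃ (q : Fin (P.degreeOf 0 + 1) → AddMonoidAlgebra ℤ (G n)) (j0 : Fin (P.degreeOf 0 + 1)),
    Good q j0 (dim P - 1) ∧
    ∀ θ : Fin n → ℝ, ∃ f : Polynomial ℂ, f.natDegree ≤ P.degreeOf 0 ∧
      (∀ y : ℝ, ‖val P (Fin.cons y θ)‖ =
        ‖f.eval (Complex.exp (2 * (Real.pi : ℂ) * Complex.I * (y : ℂ)))‖) ∧
      ∀ j : Fin (P.degreeOf 0 + 1), ‖f.coeff j‖ = ‖ev (cst (q j)) θ‖

/-- JEN: Mahler's inequality for the coefficients, integrated form. -/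
def S_Jen : Prop := ∀ (f : Polynomial ℂ) (d : ℕ), f ≠ 0 → f.natDegree ≤ d → ∀ δ : ℝ, 0 < δ →
  Real.log (∑ j : Fin (d + 1), ‖f.coeff j‖ ^ 2) - Real.log (Nat.centralBinom d) ≤
    ∫ y in Set.Icc (0 : ℝ) 1,
      Real.log (‖f.eval (Complex.exp (2 * (Real.pi : ℂ) * Complex.I * (y : ℂ)))‖ ^ 2 + δ)

/-- GEN: the general theorem. -/
def S_Gen : Prop := ∀ (n : ℕ) (ι : Type) [Fintype ι] (q : ι → AddMonoidAlgebra ℤ (G n)) (j0 : ι)
  (m : ℕ), 1 ≤ m → Good q j0 m →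
  IntegrableOn (fun θ => Real.log (∑ j, ‖ev (cst (q j)) θ‖ ^ 2)) (cube n) ∧
    (∀ᵐ θ ∂(volume.restrict (cube n)), ∑ j, ‖ev (cst (q j)) θ‖ ^ 2 ≠ 0) ∧
    Real.log m / 2 ≤ ∫ θ in cube n, Real.log (∑ j, ‖ev (cst (q j)) θ‖ ^ 2)

/-- FINA: nonreciprocal case. -/
def S_FinA : Prop := ∀ (n : ℕ) (P : MvPolynomial (Fin n) ℤ), Irreducible P → ¬ Recip P →
  (dim P : ℝ) / 4 ≤ Real.exp (∫ θ in cube n, Real.log ‖val P θ‖) ^ 4

/-- FINB: bounded degree in one variable. -/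
def S_FinB : Prop := ∀ (n : ℕ) (P : MvPolynomial (Fin (n + 1)) ℤ), Irreducible P →
  1 ≤ P.degreeOf 0 →
  ((dim P : ℝ) - 1) / (Nat.centralBinom (P.degreeOf 0) : ℝ) ^ 2 ≤
    Real.exp (∫ θ in cube (n + 1), Real.log ‖val P θ‖) ^ 4

end Pool.Agent.H589.Boyd
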