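import Pool.Agent.H589.Boyd.Spec

/-!
# Boyd's conjecture: second part of the specification (polynomial loss in the degree)
-/

set_option autoImplicit false

open MeasureTheory

namespace Pool.Agent.H589.Boyd

/-- `x_0 ∂P/∂x_0` -/
noncomputable def euler {n : ℕ} (P : MvPolynomial (Fin (n + 1)) ℤ) : MvPolynomial (Fin (n + 1)) ℤ :=
  MvPolynomial.X 0 * MvPolynomial.pderiv 0 P

/-- NDC: the pair `P, x_0 ∂P/∂x_0`. -/
def S_NDC : Prop := ∀ (n : ℕ) (P : MvPolynomial (Fin (n + 1)) ℤ), Irreducible P →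
  1 ≤ P.degreeOf 0 →
  ∃ (q : Fin 2 → AddMonoidAlgebra ℤ (G (n + 1))) (j0 : Fin 2), Good q j0 (dim P) ∧
    ∀ θ, ∑ j, ‖ev (cst (q j)) θ‖ ^ 2 = ‖val P θ‖ ^ 2 + ‖val (euler P) θ‖ ^ 2

/-- JENC: a polynomial and its derivative on the circle. -/
def S_JenC : Prop := ∀ (f : Polynomial ℂ) (d : ℕ), f ≠ 0 → f.natDegree ≤ d → ∀ δ : ℝ, 0 < δ →
  (∫ y in Set.Icc (0 : ℝ) 1,
      Real.log (‖f.eval (Complex.exp (2 * (Real.pi : ℂ) * Complex.I * (y : ℂ)))‖ ^ 2 +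
        ‖f.derivative.eval (Complex.exp (2 * (Real.pi : ℂ) * Complex.I * (y : ℂ)))‖ ^ 2)) -
      4 * Real.log (1 + 2 * d) ≤
    ∫ y in Set.Icc (0 : ℝ) 1,
      Real.log (‖f.eval (Complex.exp (2 * (Real.pi : ℂ) * Complex.I * (y : ℂ)))‖ ^ 2 + δ)

/-- FINC: degree `d` in one variable, polynomial loss. -/
def S_FinC : Prop := ∀ (n : ℕ) (P : MvPolynomial (Fin (n + 1)) ℤ), Irreducible P →
  1 ≤ P.degreeOf 0 →
  (dim P : ℝ) / (1 + 2 * (P.degreeOf 0 : ℝ)) ^ 8 ≤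
    Real.exp (∫ θ in cube (n + 1), Real.log ‖val P θ‖) ^ 4

/-- SWAP: exchanging the variables `0` and `i`. -/
def S_Swap : Prop := ∀ (n : ℕ) (P : MvPolynomial (Fin (n + 1)) ℤ) (i : Fin (n + 1)),
  ∃ P' : MvPolynomial (Fin (n + 1)) ℤ, (Irreducible P → Irreducible P') ∧
    P'.degreeOf 0 = P.degreeOf i ∧ dim P' = dim P ∧
    ∫ θ in cube (n + 1), Real.log ‖val P' θ‖ = ∫ θ in cube (n + 1), Real.log ‖val P θ‖

end Pool.Agent.H589.Boyd
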