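import Pool.Agent.H589.Boyd.Spec2

/-!
# Boyd's conjecture: third part of the specification (sharp loss in the degree)
-/

set_option autoImplicit false

open MeasureTheory

namespace Pool.Agent.H589.Boyd

/-- JEND: a polynomial and its derivative on the circle, sharp form. -/
def S_JenD : Prop := ∀ (f : Polynomial ℂ) (d : ℕ), f ≠ 0 → f.natDegree ≤ d → ∀ δ : ℝ, 0 < δ →
  (∫ y in Set.Icc (0 : ℝ) 1,
      Real.log (‖f.eval (Complex.exp (2 * (Real.pi : ℂ) * Complex.I * (y : ℂ)))‖ ^ 2 +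
        ‖f.derivative.eval (Complex.exp (2 * (Real.pi : ℂ) * Complex.I * (y : ℂ)))‖ ^ 2)) -
      Real.log ((d : ℝ) ^ 2 + 4) ≤
    ∫ y in Set.Icc (0 : ℝ) 1,
      Real.log (‖f.eval (Complex.exp (2 * (Real.pi : ℂ) * Complex.I * (y : ℂ)))‖ ^ 2 + δ)

/-- FIND: degree `d` in one variable. -/
def S_FinD : Prop := ∀ (n : ℕ) (P : MvPolynomial (Fin (n + 1)) ℤ), Irreducible P →
  1 ≤ P.degreeOf 0 →
  (dim P : ℝ) / ((P.degreeOf 0 : ℝ) ^ 2 + 4) ^ 2 ≤
    Real.exp (∫ θ in cube (n + 1), Real.log ‖val P θ‖) ^ 4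

end Pool.Agent.H589.Boyd
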